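import Pool.Agent.Helper37.Ff.Emb
import Pool.Agent.Helper37.Ad.Main

/-!
# Project FRF (MP_6cbef8_nt), module Ea: the two easy implications

The characteristic polynomial of a subrepresentation divides that of the representation.
-/

set_option autoImplicit false

open NumberField Polynomial MeasureTheory

namespace Pool.Agent.Helper37.Ff

open Pool.Agent.Helper37.Af Pool.Agent.Helper37.Fd Pool.Agent.Helper37.Ad Pool.Agent.Helper37.Ub

section

variable {M : Type} [Field M] [NumberField M] {Λ : Type} (ℓ : Λ → ℕ) [∀ v, Fact (ℓ v).Prime]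
  {E : Λ → Type} [∀ v, NontriviallyNormedField (E v)] [∀ v, NormedAlgebra ℚ_[ℓ v] (E v)]
  (j : ∀ v, M →+* E v)
  {F : Λ → Type} [∀ v, NontriviallyNormedField (F v)] [∀ v, NormedAlgebra ℚ_[ℓ v] (F v)]
  (φ : ∀ v, E v →ₐ[ℚ_[ℓ v]] F v)
  {G : Type} [Group G] [TopologicalSpace G] (V : ∀ v, G →* GL (Fin 2) (E v)) {n : ℕ}
  (T : ∀ (l : ℕ) [Fact l.Prime], G →* GL (Fin n) ℚ_[l]) (f g : G → (𝓞 M)[X])

private theorem charpoly_dvd {K : Type*} [Field K] {n : ℕ} (V : Matrix (Fin 2) (Fin 2) K)
    (A : Matrix (Fin n) (Fin n) K) (P : Matrix (Fin n) (Fin 2) K)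
    (hP : Function.Injective P.mulVec) (h : A * P = P * V) : V.charpoly ∣ A.charpoly := by
  classical
  have hli : LinearIndependent K (fun i : Fin 2 => P.mulVec (Pi.single i 1)) := by
    have h1 : LinearIndependent K (fun i : Fin 2 => P.mulVecLin (Pi.single i (1 : K))) := by
      have h2 : LinearIndependent K (fun i : Fin 2 => (Pi.single i (1 : K) : Fin 2 → K)) := by
        have h3 := (Pi.basisFun K (Fin 2)).linearIndependent
        have h4 : (fun i : Fin 2 => (Pi.single i (1 : K) : Fin 2 → K)) = Pi.basisFun K (Fin 2) := by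
          funext i
          simp
        rw [h4]
        exact h3
      exact h2.map' P.mulVecLin (LinearMap.ker_eq_bot.mpr hP)
    exact h1
  obtain ⟨b, hb⟩ : ∃ b : Module.Basis (Fin 2 ⊕ Module.Basis.sumExtendIndex hli) K (Fin n → K),
      ∀ i : Fin 2, b (Sum.inl i) = P.mulVec (Pi.single i 1) := by
    refine ⟨Module.Basis.sumExtend hli, fun i => ?_⟩
    simp only [Module.Basis.sumExtend, Module.Basis.coe_reindex, Function.comp_apply,
      Module.Basis.coe_extend]
    have : DecidablePred (· ∈ Set.range fun i : Fin 2 => P.mulVec (Pi.single i 1)) :=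
      Classical.decPred _
    exact congrArg Subtype.val (Equiv.Set.sumDiffSubset_apply_inl
      (hli.linearIndepOn_id.subset_extend _)
      (Equiv.ofInjective (fun i : Fin 2 => P.mulVec (Pi.single i 1)) hli.injective i))
  obtain ⟨κ, hκ, hκ'⟩ : ∃ κ : Type _, ∃ _ : Fintype κ, κ = Module.Basis.sumExtendIndex hli := by
    have : Fintype (Fin 2 ⊕ Module.Basis.sumExtendIndex hli) :=
      FiniteDimensional.fintypeBasisIndex b
    have h2 : Finite (Module.Basis.sumExtendIndex hli) :=
      Finite.of_injective (Sum.inr : _ → Fin 2 ⊕ Module.Basis.sumExtendIndex hli)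
        Sum.inr_injective
    exact ⟨_, Fintype.ofFinite _, rfl⟩
  subst hκ'
  have hcol : ∀ (j : Fin 2), A.mulVec (P.mulVec (Pi.single j 1)) =
      ∑ i, V i j • P.mulVec (Pi.single i 1) := by
    intro j
    rw [Matrix.mulVec_mulVec, h, ← Matrix.mulVec_mulVec]
    have h1 : V.mulVec (Pi.single j 1) = ∑ i, V i j • (Pi.single i (1 : K) : Fin 2 → K) := by
      funext k
      simp [Finset.sum_apply, Pi.single_apply]
    rw [h1, Matrix.mulVec_sum]
    simp only [Matrix.mulVec_smul]
  have hrep : ∀ (j : Fin 2) (i : Fin 2), b.repr (A.mulVec (b (Sum.inl j))) (Sum.inl i) = V i j := by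
    intro j i
    rw [hb, hcol]
    have h1 : ∀ k : Fin 2, b.repr (P.mulVec (Pi.single k 1)) = Finsupp.single (Sum.inl k) 1 := by
      intro k
      rw [← hb, Module.Basis.repr_self]
    simp only [map_sum, map_smul, h1, Finsupp.coe_finsetSum, Finsupp.coe_smul, Finset.sum_apply,
      Pi.smul_apply, Finsupp.single_apply, smul_eq_mul]
    simp
  have hrep' : ∀ (j : Fin 2) (i : Module.Basis.sumExtendIndex hli),
      b.repr (A.mulVec (b (Sum.inl j))) (Sum.inr i) = 0 := by
    intro j i
    rw [hb, hcol]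
    have h1 : ∀ k : Fin 2, b.repr (P.mulVec (Pi.single k 1)) = Finsupp.single (Sum.inl k) 1 := by
      intro k
      rw [← hb, Module.Basis.repr_self]
    simp only [map_sum, map_smul, h1, Finsupp.coe_finsetSum, Finsupp.coe_smul, Finset.sum_apply,
      Pi.smul_apply, Finsupp.single_apply, smul_eq_mul]
    simp
  have h3 : LinearMap.toMatrix b b (Matrix.toLin' A) =
      Matrix.fromBlocks V (LinearMap.toMatrix b b (Matrix.toLin' A)).toBlocks₁₂ 0
        (LinearMap.toMatrix b b (Matrix.toLin' A)).toBlocks₂₂ := by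
    ext i j
    rcases i with i | i <;> rcases j with j | j
    · rw [LinearMap.toMatrix_apply, Matrix.fromBlocks_apply₁₁, Matrix.toLin'_apply, hrep]
    · rfl
    · rw [LinearMap.toMatrix_apply, Matrix.fromBlocks_apply₂₁, Matrix.toLin'_apply, hrep']
      rfl
    · rfl
  have h4 : A.charpoly = (LinearMap.toMatrix b b (Matrix.toLin' A)).charpoly := by
    rw [LinearMap.charpoly_toMatrix, Matrix.charpoly_toLin']
  rw [h4, h3, Matrix.charpoly_fromBlocks_zero₂₁]
  exact Dvd.intro _ rfl

theorem fieldIn_of_contained (v : Λ) (h : ContainedAt ℓ φ V T v) :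
    ∃ U : Subgroup G, IsOpen (U : Set G) ∧
      ∀ r ∈ U, Matches ℓ E j V T f g v r → FieldIn M (f r) (g r) := by
  obtain ⟨U, hU, P, hP, hUP⟩ := h
  refine ⟨U, hU, fun r hr hm => ?_⟩
  have hι : Function.Injective ((j v).comp (algebraMap (𝓞 M) M)) :=
    (j v).injective.comp (FaithfulSMul.algebraMap_injective (𝓞 M) M)
  have hg : (g r).Monic := by
    apply monic_of_injective hι
    rw [← hm.2]
    exact Matrix.charpoly_monic _
  have h1 : (extend (φ v : E v →+* F v) (V v) r : Matrix (Fin 2) (Fin 2) (F v)).charpoly =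
      (f r).map ((φ v : E v →+* F v).comp ((j v).comp (algebraMap (𝓞 M) M))) := by
    rw [← Polynomial.map_map, ← hm.1, ← Matrix.charpoly_map]
    rfl
  have h2 : (baseChange (F v) (T (ℓ v)) r : Matrix (Fin n) (Fin n) (F v)).charpoly =
      (g r).map ((φ v : E v →+* F v).comp ((j v).comp (algebraMap (𝓞 M) M))) := by
    rw [← Polynomial.map_map, ← hm.2, ← Matrix.charpoly_map]
    congr 1
    ext a b
    exact ((φ v).commutes _).symm
  refine fieldIn_of_dvd hg ((φ v : E v →+* F v).comp (j v)) ?_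
  have h3 := charpoly_dvd _ _ P hP (hUP r hr)
  rw [h1, h2] at h3
  exact h3

theorem often_of_open [IsTopologicalGroup G] [MeasurableSpace G] [BorelSpace G] (μ : Measure G)
    [μ.IsHaarMeasure] (hD : AlmostMatching ℓ j V T f g) (v : Λ) (U : Subgroup G)
    (hU : IsOpen (U : Set G))
    (h : ∀ r ∈ U, Matches ℓ E j V T f g v r → FieldIn M (f r) (g r)) :
    OftenIn ℓ j V T μ M f g := by
  classical
  refine ⟨U, (hU.measure_pos μ ⟨1, U.one_mem⟩).ne', fun Φ => ?_⟩
  have h1 := (hD (insert v Φ)).open_subset_closure_inter hU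
  refine h1.trans (closure_mono ?_)
  rintro r ⟨hrU, hr, -⟩
  refine ⟨fun w hw => hr w (Finset.mem_insert_of_mem hw), ?_⟩
  exact h r hrU (hr v (Finset.mem_insert_self _ _))

end

end Pool.Agent.Helper37.Ff
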