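import Pool.Agent.Helper37.Ff.Mn
import Pool.Agent.Helper37.Ff.Ea

/-!
# Project FRF (MP_6cbef8_nt), module Fin: the four equivalent conditions
-/

set_option autoImplicit false

open NumberField Polynomial MeasureTheory

namespace Pool.Agent.Helper37.Ff

open Pool.Agent.Helper37.Af Pool.Agent.Helper37.Fd Pool.Agent.Helper37.Ad Pool.Agent.Helper37.Ub

theorem frobenius_fields {M : Type} [Field M] [NumberField M] {Λ : Type} [Nonempty Λ]
    (ℓ : Λ → ℕ) [∀ v, Fact (ℓ v).Prime] (hfin : ∀ l, {v | ℓ v = l}.Finite)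
    (E : Λ → Type) [∀ v, NontriviallyNormedField (E v)] [∀ v, IsUltrametricDist (E v)]
    [∀ v, NormedAlgebra ℚ_[ℓ v] (E v)] [∀ v, FiniteDimensional ℚ_[ℓ v] (E v)] (a : ℕ)
    (ha : ∀ v, Module.finrank ℚ_[ℓ v] (E v) ≤ a) (j : ∀ v, M →+* E v) (habd : Abundant j)
    (F : Λ → Type) [∀ v, NontriviallyNormedField (F v)] [∀ v, IsUltrametricDist (F v)]
    [∀ v, NormedAlgebra ℚ_[ℓ v] (F v)] [∀ v, FiniteDimensional ℚ_[ℓ v] (F v)]
    (φ : ∀ v, E v →ₐ[ℚ_[ℓ v]] F v)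
    {G : Type} [Group G] [TopologicalSpace G] [IsTopologicalGroup G] [CompactSpace G]
    [TotallyDisconnectedSpace G] [MeasurableSpace G] [BorelSpace G] (μ : Measure G)
    [μ.IsHaarMeasure]
    (V : ∀ v, G →* GL (Fin 2) (E v)) (hV : ∀ v, Continuous (V v))
    (hVi : ∀ v x s t, ‖(V v x : Matrix (Fin 2) (Fin 2) (E v)) s t‖ ≤ 1)
    (hopen : AdelicallyOpen ⊤ V) {n : ℕ} (T : ∀ (l : ℕ) [Fact l.Prime], G →* GL (Fin n) ℚ_[l])
    (f g : G → (𝓞 M)[X]) (hT : IsSystem ℓ φ V T) (hD : AlmostMatching ℓ j V T f g) :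
    List.TFAE [
      ∃ v, ContainedAt ℓ φ V T v,
      ∀ v, ContainedAt ℓ φ V T v,
      ∀ v, ∃ U : Subgroup G, IsOpen (U : Set G) ∧
        ∀ r ∈ U, Matches ℓ E j V T f g v r → FieldIn M (f r) (g r),
      ∃ (L : Type) (_ : Field L) (_ : Algebra M L) (_ : FiniteDimensional M L),
        OftenIn ℓ j V T μ L f g] := by
  have hA := adelic ℓ E j F φ V T f g hfin a ha hV hVi hT.continuous
    (fun l _ y s t => hT.integral l y s t) hopen hT.semisimple hT.generated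
    {r | {v | ¬ Matches ℓ E j V T f g v r}.Finite}
    (fun Φ => (hD Φ).mono fun r hr => ⟨hr.2, hr.1⟩) (fun r hr => hr)
  tfae_have 1 → 2 := fun h => (hA.out 0 1).1 h
  tfae_have 2 → 3 := fun h v => fieldIn_of_contained ℓ j φ V T f g v (h v)
  tfae_have 3 → 4 := fun h => by
    obtain ⟨v⟩ := ‹Nonempty Λ›
    obtain ⟨U, hU, h'⟩ := h v
    exact ⟨M, inferInstance, inferInstance, inferInstance,
      often_of_open ℓ j V T f g μ hD v U hU h'⟩
  tfae_have 4 → 1 := fun ⟨L, _, _, _, hO⟩ =>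
    contained_of_often ℓ hfin E a ha j habd F φ μ V hV hVi hopen T f g hT hD L hO
  tfae_finish

end Pool.Agent.Helper37.Ff
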