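import Pool.Agent.Helper37.Ff.Ne

/-!
# Project FRF (MP_6cbef8_nt), module Hank: the rank of the Hankel matrix is the number of eigenvalues
-/

set_option autoImplicit false

open Polynomial

namespace Pool.Agent.Helper37.Ff

private theorem hk_rank_map {K K' : Type*} [Field K] [Field K'] (φ : K →+* K') {n : ℕ}
    (M : Matrix (Fin n) (Fin n) K) : (M.map φ).rank = M.rank := by
  classical
  obtain ⟨L, L', D, h⟩ := Matrix.Pivot.exists_list_transvec_mul_diagonal_mul_list_transvec M
  set P := (L.map Matrix.TransvectionStruct.toMatrix).prod with hP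
  set Q := (L'.map Matrix.TransvectionStruct.toMatrix).prod with hQ
  have hPd : P.det = 1 := Matrix.TransvectionStruct.det_toMatrix_prod L
  have hQd : Q.det = 1 := Matrix.TransvectionStruct.det_toMatrix_prod L'
  have h1 : M.rank = Fintype.card {i // D i ≠ 0} := by
    rw [h, Matrix.rank_mul_eq_left_of_isUnit_det, Matrix.rank_mul_eq_right_of_isUnit_det,
      Matrix.rank_diagonal]
    · rw [hPd]; exact isUnit_one
    · rw [hQd]; exact isUnit_one
  have hPd' : (P.map φ).det = 1 := by
    have := (RingHom.map_det φ P).symm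
    rw [hPd, map_one] at this
    exact this
  have hQd' : (Q.map φ).det = 1 := by
    have := (RingHom.map_det φ Q).symm
    rw [hQd, map_one] at this
    exact this
  have h2 : M.map φ = P.map φ * Matrix.diagonal (fun i => φ (D i)) * Q.map φ := by
    rw [h, Matrix.map_mul, Matrix.map_mul, Matrix.diagonal_map (map_zero φ)]
  rw [h2, Matrix.rank_mul_eq_left_of_isUnit_det, Matrix.rank_mul_eq_right_of_isUnit_det,
      Matrix.rank_diagonal, h1]
  · refine Fintype.card_congr (Equiv.subtypeEquivRight fun i => ?_)
    exact not_congr (map_eq_zero_iff φ φ.injective)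
  · rw [hPd']; exact isUnit_one
  · rw [hQd']; exact isUnit_one

private theorem hk_det {K : Type*} [Field K] [IsAlgClosed K] {n : ℕ}
    (A : Matrix (Fin n) (Fin n) K) (s : Multiset K) :
    (aeval A (s.map fun r => X - C r).prod).det =
      (A.charpoly.roots.map fun x => ((s.map fun r => X - C r).prod).eval x).prod := by
  have hsp : (A.charpoly).Splits := IsAlgClosed.splits _
  have hcard : A.charpoly.roots.card = n := by
    rw [← hsp.natDegree_eq_card_roots, Matrix.charpoly_natDegree_eq_dim, Fintype.card_fin]
  induction s using Multiset.induction_on with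
  | empty => simp
  | cons r s ih =>
    rw [Multiset.map_cons, Multiset.prod_cons, map_mul, Matrix.det_mul, ih]
    have h1 : (A.charpoly.roots.map fun x =>
        ((X - C r) * (s.map fun r => X - C r).prod).eval x) =
        A.charpoly.roots.map fun x => (x - r) * ((s.map fun r => X - C r).prod).eval x := by
      refine Multiset.map_congr rfl fun x _ => ?_
      rw [eval_mul, eval_sub, eval_X, eval_C]
    rw [h1, Multiset.prod_map_mul]
    congr 1
    have h2 : A.charpoly = (A.charpoly.roots.map fun a => X - C a).prod :=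
      hsp.eq_prod_roots_of_monic (Matrix.charpoly_monic A)
    have h3 : (A.charpoly).eval r = (A.charpoly.roots.map fun a => r - a).prod := by
      conv_lhs => rw [h2]
      rw [Polynomial.eval_multiset_prod, Multiset.map_map]
      congr 1
      refine Multiset.map_congr rfl fun a _ => ?_
      simp
    have h4 : aeval A (X - C r) = -(Matrix.scalar (Fin n) r - A) := by
      rw [map_sub, aeval_X, aeval_C, neg_sub]
      rfl
    rw [h4, Matrix.det_neg, ← Matrix.eval_charpoly, h3, Fintype.card_fin]
    have h5 : (A.charpoly.roots.map fun t => t - r) =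
        A.charpoly.roots.map fun t => (-1) * (r - t) := by
      refine Multiset.map_congr rfl fun t _ => ?_
      ring
    rw [h5, Multiset.prod_map_mul, Multiset.map_const', Multiset.prod_replicate, hcard]

private theorem hk_roots {K : Type*} [Field K] [IsAlgClosed K] {n : ℕ}
    (A : Matrix (Fin n) (Fin n) K) {e : ℕ} (he : e ≠ 0) :
    (A ^ e).charpoly.roots = A.charpoly.roots.map fun x => x ^ e := by
  have hsp : (A.charpoly).Splits := IsAlgClosed.splits _
  have hcard : A.charpoly.roots.card = n := by
    rw [← hsp.natDegree_eq_card_roots, Matrix.charpoly_natDegree_eq_dim, Fintype.card_fin]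
  have h0 : (A ^ e).charpoly = ((A.charpoly.roots.map fun x => x ^ e).map fun a => X - C a).prod := by
    refine Polynomial.funext fun t => ?_
    rw [Matrix.eval_charpoly, Multiset.map_map, Polynomial.eval_multiset_prod, Multiset.map_map]
    have h1 : (X ^ e - C t : K[X]) = ((X ^ e - C t : K[X]).roots.map fun r => X - C r).prod :=
      (IsAlgClosed.splits (X ^ e - C t : K[X])).eq_prod_roots_of_monic
        (monic_X_pow_sub_C t he)
    have h2 := hk_det A (X ^ e - C t : K[X]).roots
    rw [← h1] at h2
    have h3 : Matrix.scalar (Fin n) t - A ^ e = -(aeval A (X ^ e - C t : K[X])) := by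
      rw [map_sub, map_pow, aeval_X, aeval_C, neg_sub]
      rfl
    rw [h3, Matrix.det_neg, h2, Fintype.card_fin]
    have h5 : (A.charpoly.roots.map (eval t ∘ ((fun a => X - C a) ∘ fun x => x ^ e))) =
        A.charpoly.roots.map fun x => (-1) * (X ^ e - C t : K[X]).eval x := by
      refine Multiset.map_congr rfl fun x _ => ?_
      simp
    rw [h5, Multiset.prod_map_mul, Multiset.map_const', Multiset.prod_replicate, hcard]
  rw [h0, Polynomial.roots_multiset_prod_X_sub_C]

private theorem hk_trace {K : Type*} [Field K] [IsAlgClosed K] [DecidableEq K] {n : ℕ}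
    (A : Matrix (Fin n) (Fin n) K) (e : ℕ) :
    (A ^ e).trace = ∑ x ∈ A.charpoly.roots.toFinset, (A.charpoly.roots.count x : K) * x ^ e := by
  have hsp : (A.charpoly).Splits := IsAlgClosed.splits _
  have hcard : A.charpoly.roots.card = n := by
    rw [← hsp.natDegree_eq_card_roots, Matrix.charpoly_natDegree_eq_dim, Fintype.card_fin]
  have h1 : (A ^ e).trace = (A.charpoly.roots.map fun x => x ^ e).sum := by
    rcases eq_or_ne e 0 with rfl | he
    · simp [hcard]
    · rw [Matrix.trace_eq_sum_roots_charpoly, hk_roots A he]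
  rw [h1, Finset.sum_multiset_map_count]
  refine Finset.sum_congr rfl fun x _ => ?_
  rw [nsmul_eq_mul]

/-- the decomposition of the Hankel matrix over an algebraically closed field -/
private theorem hk_dec {K : Type*} [Field K] [IsAlgClosed K] {n : ℕ}
    (A : Matrix (Fin n) (Fin n) K) :
    ∃ (v : Fin (sp A).card → K) (m : Fin (sp A).card → ℕ), Function.Injective v ∧
      (∀ i, 0 < m i ∧ m i ≤ n) ∧ ∀ e : ℕ, (A ^ e).trace = ∑ i, (m i : K) * v i ^ e := by
  classical
  have hsp : (A.charpoly).Splits := IsAlgClosed.splits _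
  have hcard : A.charpoly.roots.card = n := by
    rw [← hsp.natDegree_eq_card_roots, Matrix.charpoly_natDegree_eq_dim, Fintype.card_fin]
  have hs : sp A = A.charpoly.roots.toFinset := by
    unfold sp
    congr
  refine ⟨fun i => ((sp A).equivFin.symm i : K),
    fun i => A.charpoly.roots.count ((sp A).equivFin.symm i : K), ?_, ?_, ?_⟩
  · intro i j hij
    exact (sp A).equivFin.symm.injective (Subtype.ext hij)
  · intro i
    constructor
    · rw [Multiset.count_pos, ← Multiset.mem_toFinset, ← hs]
      exact ((sp A).equivFin.symm i).2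
    · refine le_trans (Multiset.count_le_card _ _) ?_
      rw [hcard]
  · intro e
    rw [hk_trace, ← hs]
    rw [Equiv.sum_comp (sp A).equivFin.symm
      (fun x : sp A => (A.charpoly.roots.count (x : K) : K) * (x : K) ^ e)]
    rw [Finset.sum_coe_sort (sp A) fun x => (A.charpoly.roots.count x : K) * x ^ e]

private theorem hk_map {K : Type*} [Field K] {n : ℕ} (A : Matrix (Fin n) (Fin n) K) :
    hr A = (Matrix.of fun i j : Fin n => ((A.map (algebraMap K (AlgebraicClosure K))) ^
      ((i : ℕ) + (j : ℕ))).trace).rank := by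
  unfold hr
  rw [← hk_rank_map (algebraMap K (AlgebraicClosure K))]
  congr 1
  ext i j
  rw [Matrix.map_apply, Matrix.of_apply, Matrix.of_apply]
  have h1 : (A.map (algebraMap K (AlgebraicClosure K))) ^ ((i : ℕ) + (j : ℕ)) =
      (A ^ ((i : ℕ) + (j : ℕ))).map (algebraMap K (AlgebraicClosure K)) :=
    (map_pow (algebraMap K (AlgebraicClosure K)).mapMatrix A _).symm
  rw [h1, Matrix.trace, Matrix.trace, map_sum]
  rfl

theorem hr_le_ne {K : Type*} [Field K] {n : ℕ} (A : Matrix (Fin n) (Fin n) K) :
    hr A ≤ ne A := by
  rw [hk_map]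
  unfold ne
  set B := A.map (algebraMap K (AlgebraicClosure K)) with hB
  obtain ⟨v, m, hv, hm, h⟩ := hk_dec B
  have h1 : (Matrix.of fun i j : Fin n => (B ^ ((i : ℕ) + (j : ℕ))).trace) =
      (Matrix.of fun (i : Fin n) (x : Fin (sp B).card) => v x ^ (i : ℕ)) *
      (Matrix.of fun (x : Fin (sp B).card) (j : Fin n) =>
        (m x : AlgebraicClosure K) * v x ^ (j : ℕ)) := by
    ext i j
    rw [Matrix.of_apply, h, Matrix.mul_apply]
    refine Finset.sum_congr rfl fun x _ => ?_
    rw [Matrix.of_apply, Matrix.of_apply, pow_add]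
    ring
  rw [h1]
  refine le_trans (Matrix.rank_mul_le_left _ _) ?_
  refine le_trans (Matrix.rank_le_card_width _) ?_
  rw [Fintype.card_fin]

theorem hr_eq_ne {K : Type*} [Field K] {n : ℕ} (hK : ∀ m : ℕ, 0 < m → m ≤ n → (m : K) ≠ 0)
    (A : Matrix (Fin n) (Fin n) K) : hr A = ne A := by
  refine le_antisymm (hr_le_ne A) ?_
  rw [hk_map]
  unfold ne
  set B := A.map (algebraMap K (AlgebraicClosure K)) with hB
  obtain ⟨v, m, hv, hm, h⟩ := hk_dec B
  have hsp : (B.charpoly).Splits := IsAlgClosed.splits _
  have hcard : B.charpoly.roots.card = n := by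
    rw [← hsp.natDegree_eq_card_roots, Matrix.charpoly_natDegree_eq_dim, Fintype.card_fin]
  have hle : (sp B).card ≤ n := by
    classical
    unfold sp
    refine le_trans (Multiset.toFinset_card_le _) ?_
    rw [hcard]
  have h1 : ((Matrix.of fun i j : Fin n => (B ^ ((i : ℕ) + (j : ℕ))).trace).submatrix
      (Fin.castLE hle) (Fin.castLE hle)) =
      (Matrix.vandermonde v).transpose *
        Matrix.diagonal (fun x => (m x : AlgebraicClosure K)) * Matrix.vandermonde v := by
    ext i j
    rw [Matrix.submatrix_apply, Matrix.of_apply, h, Matrix.mul_apply]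
    refine Finset.sum_congr rfl fun x _ => ?_
    rw [Matrix.mul_diagonal, Matrix.transpose_apply, Matrix.vandermonde_apply,
      Matrix.vandermonde_apply, Fin.val_castLE, Fin.val_castLE, pow_add]
    ring
  have h2 : (((Matrix.of fun i j : Fin n => (B ^ ((i : ℕ) + (j : ℕ))).trace).submatrix
      (Fin.castLE hle) (Fin.castLE hle))).rank = (sp B).card := by
    rw [h1]
    have hd : ((Matrix.vandermonde v).transpose *
        Matrix.diagonal (fun x => (m x : AlgebraicClosure K)) * Matrix.vandermonde v).det ≠ 0 := by
      rw [Matrix.det_mul, Matrix.det_mul, Matrix.det_transpose, Matrix.det_diagonal]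
      refine mul_ne_zero (mul_ne_zero (Matrix.det_vandermonde_ne_zero_iff.mpr hv) ?_)
        (Matrix.det_vandermonde_ne_zero_iff.mpr hv)
      refine Finset.prod_ne_zero_iff.mpr fun x _ => ?_
      have h3 := hK (m x) (hm x).1 (hm x).2
      intro h4
      apply h3
      apply (algebraMap K (AlgebraicClosure K)).injective
      rw [map_natCast, map_zero, h4]
    have h5 := Matrix.rank_of_det_ne_zero hd
    rw [h5, Fintype.card_fin]
  rw [← h2]
  exact Matrix.rank_submatrix_le _ _ _

end Pool.Agent.Helper37.Ff
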