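import Mathlib

/-!
# Project FRF (MP_6cbef8_nt), module RkM: ranks of matrices under reduction

Over a field `r ≤ rank B` iff some `r × r` submatrix has nonzero determinant.
-/

set_option autoImplicit false

namespace Pool.Agent.Helper37.Ff

private theorem rkm_cols {K : Type*} [Field K] {N b : ℕ} (M : Matrix (Fin N) (Fin b) K)
    (h : LinearIndependent K M.row) : ∃ c : Fin N → Fin b, (M.submatrix id c).det ≠ 0 := by
  have h1 : M.rank = N := by
    rw [h.rank_matrix, Fintype.card_fin]
  rw [Matrix.rank_eq_finrank_span_cols] at h1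
  obtain ⟨f, hf1, -, hf3⟩ := Submodule.exists_fun_fin_finrank_span_eq K (Set.range M.col)
  choose g hg using hf1
  refine ⟨fun j => g (Fin.cast h1.symm j), ?_⟩
  have h2 : LinearIndependent K (M.submatrix id fun j => g (Fin.cast h1.symm j)).col := by
    have h3 : (M.submatrix id fun j => g (Fin.cast h1.symm j)).col = f ∘ Fin.cast h1.symm := by
      ext j i
      rw [Function.comp_apply, ← hg]
      rfl
    rw [h3]
    exact hf3.comp _ (Fin.cast_injective _)
  rw [Matrix.linearIndependent_cols_iff_isUnit, Matrix.isUnit_iff_isUnit_det] at h2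
  exact h2.ne_zero

private theorem rkm_minor {K : Type*} [Field K] {a b : ℕ} (B : Matrix (Fin a) (Fin b) K) :
    ∃ (r : Fin B.rank → Fin a) (c : Fin B.rank → Fin b), (B.submatrix r c).det ≠ 0 := by
  have h1 := B.rank_eq_finrank_span_row
  obtain ⟨f, hf1, -, hf3⟩ := Submodule.exists_fun_fin_finrank_span_eq K (Set.range B.row)
  choose g hg using hf1
  have h2 : LinearIndependent K (B.submatrix (fun j => g (Fin.cast h1 j)) id).row := by
    have h3 : (B.submatrix (fun j => g (Fin.cast h1 j)) id).row = f ∘ Fin.cast h1 := by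
      ext j i
      rw [Function.comp_apply, ← hg]
      rfl
    rw [h3]
    exact hf3.comp _ (Fin.cast_injective _)
  obtain ⟨c, hc⟩ := rkm_cols _ h2
  exact ⟨fun j => g (Fin.cast h1 j), c, hc⟩

private theorem rkm_le {K : Type*} [Field K] {a b r : ℕ} (B : Matrix (Fin a) (Fin b) K)
    (x : Fin r → Fin a) (y : Fin r → Fin b) (h : (B.submatrix x y).det ≠ 0) : r ≤ B.rank := by
  have h1 := B.rank_submatrix_le x y
  rw [Matrix.rank_of_det_ne_zero h, Fintype.card_fin] at h1
  exact h1

private theorem rkm_det {R K : Type*} [CommRing R] [Field K] (ι : R →+* K) {a b r : ℕ}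
    (A : Matrix (Fin a) (Fin b) R) (x : Fin r → Fin a) (y : Fin r → Fin b) :
    ((A.map ι).submatrix x y).det = ι (A.submatrix x y).det := by
  rw [RingHom.map_det]
  rfl

theorem rank_red {R E k : Type*} [CommRing R] [Field E] [Field k] (ι : R →+* E)
    (hι : Function.Injective ι) (φ : R →+* k) {a b : ℕ} (A : Matrix (Fin a) (Fin b) R) :
    (A.map φ).rank ≤ (A.map ι).rank := by
  obtain ⟨x, y, h⟩ := rkm_minor (A.map φ)
  rw [rkm_det] at h
  refine rkm_le _ x y ?_
  rw [rkm_det]
  intro h0
  have h1 : (A.submatrix x y).det = 0 := hι (by rw [h0, map_zero])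
  exact h (by rw [h1, map_zero])

theorem rank_almost {R K : Type*} [CommRing R] [Field K] (ι : R →+* K) {a b : ℕ}
    (A : Matrix (Fin a) (Fin b) R) : ∃ D : R, D ≠ 0 ∧
      ∀ {k : Type*} [Field k] (ψ : R →+* k), ψ D ≠ 0 → (A.map ι).rank ≤ (A.map ψ).rank := by
  obtain ⟨x, y, h⟩ := rkm_minor (A.map ι)
  rw [rkm_det] at h
  refine ⟨(A.submatrix x y).det, fun h0 => h (by rw [h0, map_zero]), fun ψ hψ => ?_⟩
  refine rkm_le _ x y ?_
  rw [rkm_det]
  exact hψ

end Pool.Agent.Helper37.Ff
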