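import Pool.Agent.Helper37.Ff.EvB
import Pool.Agent.Helper37.Ff.Hank
import Pool.Agent.Helper37.Ff.RkM
import Pool.Agent.Helper37.Ad.NormF

/-!
# Project FRF (MP_6cbef8_nt), module Alm: the number of eigenvalues and reduction

PLAN. Uses `hr_le_ne`, `hr_eq_ne` (Hank), `rank_red`, `rank_almost` (RkM), `eq_zero_of_small` (Ad/NormF), `ne_map` (EvB). The Hankel matrix
of the image of `A` is the image of the Hankel matrix `(trace (A ^ (i + j)))` over the ring.
`ne_red`: `ne (A.map φ) = hr (A.map φ)` (`hk`) `≤ hr (A.map ι)` (`rank_red`) `≤ ne (A.map ι)`.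
`ne_almost`: over `M` (characteristic zero) `ne (A.map ..) = hr (A.map ..)`; let `D ≠ 0` be the element of `rank_almost` for the Hankel
matrix of `A`. If `ψ D ≠ 0` then `ne (A.map ..) = hr (A.map ..) ≤ hr (A.map ψ) ≤ ne (A.map ψ)`. If `ψ D = 0` then `‖j v D‖ < 1`, which happens
for finitely many `v` only (`eq_zero_of_small`).
-/

set_option autoImplicit false

open NumberField

namespace Pool.Agent.Helper37.Ff

open Pool.Agent.Helper37.Ad

private theorem hr_map {R K : Type*} [CommRing R] [Field K] (φ : R →+* K) {n : ℕ}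
    (A : Matrix (Fin n) (Fin n) R) :
    hr (A.map φ) = ((Matrix.of fun i j : Fin n => (A ^ ((i : ℕ) + (j : ℕ))).trace).map φ).rank := by
  unfold hr
  congr 1
  ext i j
  have h : (A.map φ) ^ ((i : ℕ) + (j : ℕ)) = (A ^ ((i : ℕ) + (j : ℕ))).map φ := by
    have h2 := map_pow φ.mapMatrix A ((i : ℕ) + (j : ℕ))
    simp only [RingHom.mapMatrix_apply] at h2
    exact h2.symm
  simp only [Matrix.of_apply, Matrix.map_apply, h]
  simp [Matrix.trace, map_sum]

theorem ne_red {R E k : Type*} [CommRing R] [Field E] [Field k] (ι : R →+* E)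
    (hι : Function.Injective ι) (φ : R →+* k) {n : ℕ}
    (hk : ∀ m : ℕ, 0 < m → m ≤ n → (m : k) ≠ 0) (A : Matrix (Fin n) (Fin n) R) :
    ne (A.map φ) ≤ ne (A.map ι) := by
  rw [← hr_eq_ne hk (A.map φ), hr_map]
  refine (rank_red ι hι φ _).trans ?_
  rw [← hr_map]
  exact hr_le_ne _

theorem ne_almost {M : Type*} [Field M] [NumberField M] {Λ : Type*} (ℓ : Λ → ℕ)
    [∀ v, Fact (ℓ v).Prime] (hfin : ∀ l, {v | ℓ v = l}.Finite) (E : Λ → Type*)
    [∀ v, NontriviallyNormedField (E v)] [∀ v, IsUltrametricDist (E v)]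
    [∀ v, NormedAlgebra ℚ_[ℓ v] (E v)] (j : ∀ v, M →+* E v) {n : ℕ}
    (A : Matrix (Fin n) (Fin n) (𝓞 M)) :
    {v | ∃ (k : Type) (_ : Field k) (ψ : 𝓞 M →+* k), (∀ x : 𝓞 M, ψ x = 0 → ‖j v (x : M)‖ < 1) ∧
      ne (A.map ψ) < ne (A.map (algebraMap (𝓞 M) M))}.Finite := by
  obtain ⟨D, hD, h⟩ := rank_almost (algebraMap (𝓞 M) M)
    (Matrix.of fun i j : Fin n => (A ^ ((i : ℕ) + (j : ℕ))).trace)
  by_contra hinf
  refine hD (eq_zero_of_small ℓ hfin E j D _ hinf ?_)
  rintro v ⟨k, _, ψ, h1, h2⟩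
  refine h1 D ?_
  by_contra h3
  have h4 := h ψ h3
  rw [← hr_map, ← hr_map] at h4
  rw [hr_eq_ne (fun m hm _ => by exact_mod_cast hm.ne')] at h4
  exact absurd (h4.trans (hr_le_ne _)) (not_le.2 h2)

end Pool.Agent.Helper37.Ff
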