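import Mathlib

/-!
# Project FRF (MP_6cbef8_nt), module MsF: the measure of a union of fibres

The fibres of `θ` on `U` are left translates of the open subgroup `U ⊓ θ.ker`, so they all have the same measure.
-/

set_option autoImplicit false

open MeasureTheory

namespace Pool.Agent.Helper37.Ff

theorem measure_fibre {G : Type*} [Group G] [TopologicalSpace G] [IsTopologicalGroup G]
    [CompactSpace G] [MeasurableSpace G] [BorelSpace G] (μ : Measure G) [μ.IsHaarMeasure]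
    {Q : Type*} [Group Q] (θ : G →* Q) (hθ : IsOpen (θ.ker : Set G)) (U : Subgroup G)
    (hU : IsOpen (U : Set G)) (g : G) (A : Set Q) (B : ℕ)
    (h : Nat.card (U.map θ) ≤ B * Nat.card {q : Q // q ∈ U.map θ ∧ θ g * q ∈ A}) :
    IsOpen {x : G | g⁻¹ * x ∈ U ∧ θ x ∈ A} ∧
      μ (U : Set G) ≤ B * μ {x : G | g⁻¹ * x ∈ U ∧ θ x ∈ A} := by
  classical
  obtain ⟨W, hW⟩ : ∃ W : Set G, W = (U : Set G) ∩ (θ.ker : Set G) := ⟨_, rfl⟩
  have hWo : IsOpen W := by
    rw [hW]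
    exact hU.inter hθ
  obtain ⟨F, hF⟩ : ∃ F : Q → Set G, F = fun q => {x : G | x ∈ U ∧ θ x = q} := ⟨_, rfl⟩
  have hFm : ∀ q x, x ∈ F q ↔ x ∈ U ∧ θ x = q := fun q x => by
    rw [hF]
    exact Iff.rfl
  have hfin : Finite (U.map θ) := by
    have h1 : Finite (G ⧸ θ.ker) := Subgroup.quotient_finite_of_isOpen θ.ker hθ
    have h2 : Finite θ.range := Finite.of_equiv _ (QuotientGroup.quotientKerEquivRange θ).toEquiv
    have h3 : U.map θ ≤ θ.range := by
      rintro _ ⟨x, -, rfl⟩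
      exact ⟨x, rfl⟩
    exact Finite.of_injective (Subgroup.inclusion h3) (Subgroup.inclusion_injective h3)
  have hcoset : ∀ q ∈ U.map θ, ∃ u : G, F q = (fun x => u⁻¹ * x) ⁻¹' W := by
    rintro _ ⟨u, hu, rfl⟩
    refine ⟨u, ?_⟩
    ext x
    rw [hFm, hW]
    show _ ↔ u⁻¹ * x ∈ U ∧ u⁻¹ * x ∈ θ.ker
    rw [MonoidHom.mem_ker, map_mul, map_inv, Subgroup.mul_mem_cancel_left U (inv_mem hu),
      inv_mul_eq_one]
    constructor
    · rintro ⟨h1, h2⟩
      exact ⟨h1, h2.symm⟩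
    · rintro ⟨h1, h2⟩
      exact ⟨h1, h2.symm⟩
  have hFo : ∀ q ∈ U.map θ, IsOpen (F q) := by
    intro q hq
    obtain ⟨u, hu⟩ := hcoset q hq
    rw [hu]
    exact hWo.preimage (continuous_const.mul continuous_id)
  have hFμ : ∀ q ∈ U.map θ, μ (F q) = μ W := by
    intro q hq
    obtain ⟨u, hu⟩ := hcoset q hq
    rw [hu]
    exact measure_preimage_mul μ u⁻¹ W
  have hgo : ∀ q ∈ U.map θ, IsOpen ((fun x => g⁻¹ * x) ⁻¹' (F q)) := fun q hq =>
    (hFo q hq).preimage (continuous_const.mul continuous_id)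
  have hgμ : ∀ q ∈ U.map θ, μ ((fun x => g⁻¹ * x) ⁻¹' (F q)) = μ W := fun q hq =>
    (measure_preimage_mul μ g⁻¹ (F q)).trans (hFμ q hq)
  obtain ⟨T, hT⟩ : ∃ T : Finset Q, ∀ q, q ∈ T ↔ q ∈ U.map θ :=
    ⟨(Set.toFinite (U.map θ : Set Q)).toFinset, fun q => by
      rw [Set.Finite.mem_toFinset]
      exact Iff.rfl⟩
  have hUeq : (U : Set G) = ⋃ q ∈ T, F q := by
    ext x
    simp only [Set.mem_iUnion, hFm, exists_prop]
    constructor
    · intro hx
      exact ⟨θ x, (hT _).2 ⟨x, hx, rfl⟩, hx, rfl⟩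
    · rintro ⟨q, -, hx, -⟩
      exact hx
  have hEeq : {x : G | g⁻¹ * x ∈ U ∧ θ x ∈ A} =
      ⋃ q ∈ T.filter (fun q => θ g * q ∈ A), (fun x => g⁻¹ * x) ⁻¹' (F q) := by
    ext x
    simp only [Set.mem_iUnion, Set.mem_preimage, hFm, exists_prop, Finset.mem_filter,
      Set.mem_ofPred_eq]
    have h1 : θ g * θ (g⁻¹ * x) = θ x := by
      rw [← map_mul, mul_inv_cancel_left]
    constructor
    · rintro ⟨hx, hx'⟩
      refine ⟨θ (g⁻¹ * x), ⟨(hT _).2 ⟨g⁻¹ * x, hx, rfl⟩, ?_⟩, hx, rfl⟩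
      rw [h1]
      exact hx'
    · rintro ⟨q, ⟨-, hq⟩, hx, rfl⟩
      rw [h1] at hq
      exact ⟨hx, hq⟩
  have hdisj : ∀ q q' : Q, q ≠ q' → Disjoint (F q) (F q') := by
    intro q q' hne
    rw [Set.disjoint_left]
    intro x hx hx'
    exact hne (((hFm q x).1 hx).2.symm.trans ((hFm q' x).1 hx').2)
  have hμU : μ (U : Set G) = (T.card : ENNReal) * μ W := by
    rw [hUeq, measure_biUnion_finset (fun q _ q' _ hne => hdisj q q' hne)
      (fun q hq => (hFo q ((hT q).1 hq)).measurableSet),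
      Finset.sum_congr rfl fun q hq => hFμ q ((hT q).1 hq), Finset.sum_const, nsmul_eq_mul]
  have hμE : μ {x : G | g⁻¹ * x ∈ U ∧ θ x ∈ A} =
      ((T.filter (fun q => θ g * q ∈ A)).card : ENNReal) * μ W := by
    rw [hEeq, measure_biUnion_finset
      (fun q _ q' _ hne => (hdisj q q' hne).preimage (fun x => g⁻¹ * x))
      (fun q hq => (hgo q ((hT q).1 (Finset.mem_filter.1 hq).1)).measurableSet),
      Finset.sum_congr rfl fun q hq => hgμ q ((hT q).1 (Finset.mem_filter.1 hq).1),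
      Finset.sum_const, nsmul_eq_mul]
  refine ⟨?_, ?_⟩
  · rw [hEeq]
    exact isOpen_biUnion fun q hq => hgo q ((hT q).1 (Finset.mem_filter.1 hq).1)
  · have h1 : Nat.card (U.map θ) = T.card := Nat.subtype_card T hT
    have h2 : Nat.card {q : Q // q ∈ U.map θ ∧ θ g * q ∈ A} =
        (T.filter (fun q => θ g * q ∈ A)).card :=
      Nat.subtype_card _ fun q => by rw [Finset.mem_filter, hT]
    rw [h1, h2] at h
    rw [hμU, hμE, ← mul_assoc]
    have h3 : (T.card : ENNReal) ≤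
        (B : ENNReal) * ((T.filter (fun q => θ g * q ∈ A)).card : ENNReal) := by
      exact_mod_cast h
    gcongr

end Pool.Agent.Helper37.Ff
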