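import Mathlib

/-!
# Project FRF (MP_6cbef8_nt), module NSp: non-split elements in a coset of SL_2 of a finite field

PLAN. Only Mathlib. Let `q = card k`, `δ = det b ≠ 0`. `s ↦ b s` is a bijection of `SL_2(k)` onto the matrices of determinant `δ`, and
`card SL_2(k) = q (q ^ 2 - 1)` (only `card SL_2(k) ≤ q * (q ^ 2 - 1)` is needed; it can be read off from
`Matrix.card_GL_field`/`Matrix.card_SL..`, or from the injection `s ↦ (first row ≠ 0, one parameter)`: for a given first row `(x, y) ≠ 0` the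
second rows with determinant `δ` form a line of `q` elements).
Lower bound: call `c ∈ k` bad if `X ^ 2 - c X + δ` has a root `ρ` in `k`; then `ρ ≠ 0`, `c = ρ + δ / ρ`. The map `ρ ↦ ρ + δ / ρ` from `kˣ`
has `ρ`, `δ / ρ` in the same fibre, so its image has at most `(q - 1) / 2 + 1` elements (`ρ = δ / ρ` for at most two `ρ`): there are
at least `(q - 1) / 2` good `c`. (To be formal: `2 * card image ≤ (q - 1) + 2`.) For a good `c` and `x ∈ k`, `y ∈ kˣ` the matrix
`!![x, y; (x (c - x) - δ) / y, c - x]` has trace `c` and determinant `δ`; `(c, x, y)` is determined by the matrix. So there are at least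
`(q - 1) / 2 * q * (q - 1)` non-split matrices and `4 * (q - 1) / 2 * q (q - 1) ≥ q (q ^ 2 - 1)` iff `2 (q - 1) ≥ q + 1` iff `q ≥ 3`.
The characteristic polynomial of a matrix of trace `c` and determinant `δ` is `X ^ 2 - c X + δ` (`Matrix.charpoly_fin_two`); of degree
two, it splits iff it has a root. If `q = 2`: `δ = 1`, `card SL_2 = 6` and there are two elements of order three; excluded by `h`.
-/

set_option autoImplicit false

namespace Pool.Agent.Helper37.Ff

open Classical in
private theorem card_SL_le {k : Type*} [Field k] [Fintype k] :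
    Nat.card (Matrix.SpecialLinearGroup (Fin 2) k) ≤ (Fintype.card k ^ 2 - 1) * Fintype.card k := by
  have hc : Nat.card ({v : k × k // v ≠ 0} × k) = (Fintype.card k ^ 2 - 1) * Fintype.card k := by
    rw [Nat.card_prod, Nat.card_eq_fintype_card, Nat.card_eq_fintype_card,
      Fintype.card_subtype_compl, Fintype.card_prod, Fintype.card_subtype_eq, sq]
  rw [← hc]
  let F : Matrix.SpecialLinearGroup (Fin 2) k → {v : k × k // v ≠ 0} × k := fun s =>
    (⟨(s 0 0, s 0 1), by
      intro h0
      have h1 := Prod.mk.inj h0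
      have h2 := s.det_coe
      rw [Matrix.det_fin_two] at h2
      have h3 : (s : Matrix (Fin 2) (Fin 2) k) 0 0 = 0 := h1.1
      have h4 : (s : Matrix (Fin 2) (Fin 2) k) 0 1 = 0 := h1.2
      rw [h3, h4] at h2
      simp at h2⟩, if s 0 0 = 0 then s 1 1 else s 1 0)
  refine Nat.card_le_card_of_injective F ?_
  intro s t hst
  have hs := s.det_coe
  have ht := t.det_coe
  rw [Matrix.det_fin_two] at hs ht
  have e1 := congrArg (fun z => (z.1 : k × k).1) hst
  have e2 := congrArg (fun z => (z.1 : k × k).2) hst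
  have e3 := congrArg (fun z => z.2) hst
  change s 0 0 = t 0 0 at e1
  change s 0 1 = t 0 1 at e2
  change (if s 0 0 = 0 then s 1 1 else s 1 0) = (if t 0 0 = 0 then t 1 1 else t 1 0) at e3
  change s 0 0 * s 1 1 - s 0 1 * s 1 0 = 1 at hs
  change t 0 0 * t 1 1 - t 0 1 * t 1 0 = 1 at ht
  rw [← e1] at e3 ht
  rw [← e2] at ht
  have key : s 1 0 = t 1 0 ∧ s 1 1 = t 1 1 := by
    by_cases h0 : s 0 0 = 0
    · rw [if_pos h0, if_pos h0] at e3
      refine ⟨?_, e3⟩
      rw [h0] at hs ht
      have hy : s 0 1 ≠ 0 := by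
        intro hy
        rw [hy] at hs
        simp at hs
      have : s 0 1 * s 1 0 = s 0 1 * t 1 0 := by linear_combination ht - hs
      exact mul_left_cancel₀ hy this
    · rw [if_neg h0, if_neg h0] at e3
      refine ⟨e3, ?_⟩
      rw [e3] at hs
      have : s 0 0 * s 1 1 = s 0 0 * t 1 1 := by linear_combination hs - ht
      exact mul_left_cancel₀ h0 this
  apply Matrix.SpecialLinearGroup.ext
  intro i j
  fin_cases i <;> fin_cases j
  · exact e1
  · exact e2
  · exact key.1
  · exact key.2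

open Classical in
private theorem card_bad {k : Type*} [Field k] [Fintype k] {δ : k} (hδ : δ ≠ 0) :
    2 * ((Finset.univ.filter fun ρ : k => ρ ≠ 0).image fun ρ => ρ + δ / ρ).card
      ≤ Fintype.card k + 1 := by
  set U : Finset k := Finset.univ.filter fun ρ : k => ρ ≠ 0 with hU
  set D : Finset k := U.filter fun ρ => ρ = δ / ρ with hD
  have hUc : U.card = Fintype.card k - 1 := by
    rw [hU, Finset.filter_ne', Finset.card_erase_of_mem (Finset.mem_univ _), Finset.card_univ]
  have hq : 1 ≤ Fintype.card k := Fintype.card_pos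
  have hDc : D.card ≤ 2 := by
    by_cases hn : D.Nonempty
    · obtain ⟨r, hr⟩ := hn
      have hr0 : r ≠ 0 := (Finset.mem_filter.1 (Finset.mem_filter.1 hr).1).2
      have hr1 : r = δ / r := (Finset.mem_filter.1 hr).2
      have hr2 : r * r = δ := by
        rw [eq_div_iff hr0] at hr1; exact hr1
      have hsub : D ⊆ {r, -r} := by
        intro s hs
        have hs0 : s ≠ 0 := (Finset.mem_filter.1 (Finset.mem_filter.1 hs).1).2
        have hs1 : s = δ / s := (Finset.mem_filter.1 hs).2
        have hs2 : s * s = δ := by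
          rw [eq_div_iff hs0] at hs1; exact hs1
        have : (s - r) * (s + r) = 0 := by linear_combination hs2 - hr2
        rcases mul_eq_zero.1 this with h | h
        · simp [sub_eq_zero.1 h]
        · simp [eq_neg_of_add_eq_zero_left h]
      exact (Finset.card_le_card hsub).trans (Finset.card_le_two)
    · rw [Finset.not_nonempty_iff_eq_empty] at hn
      simp [hn]
  have h1 : 2 * ((U \ D).image fun ρ => ρ + δ / ρ).card ≤ (U \ D).card := by
    apply Finset.mul_card_image_le_card
    intro c hc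
    obtain ⟨ρ, hρ, rfl⟩ := Finset.mem_image.1 hc
    have hρU := (Finset.mem_sdiff.1 hρ).1
    have hρ0 : ρ ≠ 0 := (Finset.mem_filter.1 hρU).2
    have hρD : ρ ≠ δ / ρ := fun h => (Finset.mem_sdiff.1 hρ).2 (Finset.mem_filter.2 ⟨hρU, h⟩)
    have h2 : δ / (δ / ρ) = ρ := by field_simp
    have hσ0 : δ / ρ ≠ 0 := div_ne_zero hδ hρ0
    have hsub : ({ρ, δ / ρ} : Finset k) ⊆ (U \ D).filter fun x => x + δ / x = ρ + δ / ρ := by
      intro x hx
      rw [Finset.mem_insert, Finset.mem_singleton] at hx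
      rcases hx with rfl | rfl
      · exact Finset.mem_filter.2 ⟨hρ, rfl⟩
      · refine Finset.mem_filter.2 ⟨Finset.mem_sdiff.2 ⟨Finset.mem_filter.2 ⟨Finset.mem_univ _, hσ0⟩, ?_⟩, ?_⟩
        · intro h
          have := (Finset.mem_filter.1 h).2
          rw [h2] at this
          exact hρD this.symm
        · rw [h2]; ring
    calc 2 = ({ρ, δ / ρ} : Finset k).card := (Finset.card_pair hρD).symm
      _ ≤ _ := Finset.card_le_card hsub
  have h2 : (U.image fun ρ => ρ + δ / ρ).card ≤
      ((U \ D).image fun ρ => ρ + δ / ρ).card + (D.image fun ρ => ρ + δ / ρ).card := by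
    have : U = (U \ D) ∪ D := (Finset.sdiff_union_of_subset (Finset.filter_subset _ _)).symm
    calc (U.image fun ρ => ρ + δ / ρ).card = (((U \ D) ∪ D).image fun ρ => ρ + δ / ρ).card := by
          rw [← this]
      _ = (((U \ D).image fun ρ => ρ + δ / ρ) ∪ (D.image fun ρ => ρ + δ / ρ)).card := by
          rw [Finset.image_union]
      _ ≤ _ := Finset.card_union_le _ _
  have h3 : (D.image fun ρ => ρ + δ / ρ).card ≤ D.card := Finset.card_image_le
  have h4 : (U \ D).card + D.card = U.card := by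
    rw [Finset.card_sdiff_add_card_eq_card (Finset.filter_subset _ _)]
  omega

private theorem det_mat {k : Type*} [Field k] (δ c x y : k) (hy : y ≠ 0) :
    (!![x, y; (x * (c - x) - δ) / y, c - x] : Matrix (Fin 2) (Fin 2) k).det = δ := by
  rw [Matrix.det_fin_two_of]
  field_simp
  ring

open Classical in
theorem card_nonsplit {k : Type*} [Field k] [Finite k] (h : 3 ≤ Nat.card k) (b : GL (Fin 2) k) :
    Nat.card (Matrix.SpecialLinearGroup (Fin 2) k) ≤ 4 *
      Nat.card {s : Matrix.SpecialLinearGroup (Fin 2) k //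
        ¬ ((b : Matrix (Fin 2) (Fin 2) k) * (s : Matrix (Fin 2) (Fin 2) k)).charpoly.Splits} := by
  haveI : Fintype k := Fintype.ofFinite k
  rw [Nat.card_eq_fintype_card] at h
  set q := Fintype.card k with hq
  set δ : k := (b : Matrix (Fin 2) (Fin 2) k).det with hδ
  have hδ0 : δ ≠ 0 := by
    have := b.isUnit
    rw [Matrix.isUnit_iff_isUnit_det] at this
    exact this.ne_zero
  -- good values
  set B : Finset k := (Finset.univ.filter fun ρ : k => ρ ≠ 0).image fun ρ => ρ + δ / ρ with hB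
  have hbad := card_bad hδ0
  rw [← hB, ← hq] at hbad
  have hgood : q - 1 ≤ 2 * Nat.card {c : k // c ∉ B} := by
    have h1 : Nat.card {c : k // c ∉ B} = q - B.card := by
      rw [Nat.card_eq_fintype_card, Fintype.card_subtype_compl (fun c => c ∈ B)]
      simp [hq]
    have h2 : B.card ≤ q := Finset.card_le_univ B
    omega
  have hinv : ∀ M : Matrix (Fin 2) (Fin 2) k, (b : Matrix (Fin 2) (Fin 2) k) *
      (((b⁻¹ : GL (Fin 2) k) : Matrix (Fin 2) (Fin 2) k) * M) = M := by
    intro M
    rw [← Matrix.mul_assoc]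
    have : (b : Matrix (Fin 2) (Fin 2) k) * ((b⁻¹ : GL (Fin 2) k) : Matrix (Fin 2) (Fin 2) k) = 1 := by
      rw [← Units.val_mul, mul_inv_cancel, Units.val_one]
    rw [this, Matrix.one_mul]
  have hdet : ∀ M : Matrix (Fin 2) (Fin 2) k, M.det = δ →
      (((b⁻¹ : GL (Fin 2) k) : Matrix (Fin 2) (Fin 2) k) * M).det = 1 := by
    intro M hM
    have h1 := congrArg Matrix.det (hinv M)
    rw [Matrix.det_mul, hM, ← hδ] at h1
    exact mul_left_cancel₀ hδ0 (by rw [h1, mul_one])
  have hns : ∀ (c x : k) (y : kˣ), c ∉ B →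
      ¬ (!![x, (y : k); (x * (c - x) - δ) / y, c - x] : Matrix (Fin 2) (Fin 2) k).charpoly.Splits := by
    intro c x y hc hsp
    have hdeg : (!![x, (y : k); (x * (c - x) - δ) / y, c - x] :
        Matrix (Fin 2) (Fin 2) k).charpoly.degree ≠ 0 := by
      rw [Matrix.charpoly_degree_eq_dim]
      simp
    obtain ⟨ρ, hρ⟩ := hsp.exists_eval_eq_zero hdeg
    rw [Matrix.charpoly_fin_two, det_mat δ c x y y.ne_zero, Matrix.trace_fin_two_of] at hρ
    simp only [Polynomial.eval_add, Polynomial.eval_sub, Polynomial.eval_mul, Polynomial.eval_pow,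
      Polynomial.eval_X, Polynomial.eval_C] at hρ
    have hρ0 : ρ ≠ 0 := by
      rintro rfl
      apply hδ0
      simpa using hρ
    apply hc
    rw [hB, Finset.mem_image]
    refine ⟨ρ, Finset.mem_filter.2 ⟨Finset.mem_univ _, hρ0⟩, ?_⟩
    field_simp
    linear_combination hρ
  have hinj : Nat.card ({c : k // c ∉ B} × k × kˣ) ≤
      Nat.card {s : Matrix.SpecialLinearGroup (Fin 2) k //
        ¬ ((b : Matrix (Fin 2) (Fin 2) k) * (s : Matrix (Fin 2) (Fin 2) k)).charpoly.Splits} := by
    let F : ({c : k // c ∉ B} × k × kˣ) → {s : Matrix.SpecialLinearGroup (Fin 2) k //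
        ¬ ((b : Matrix (Fin 2) (Fin 2) k) * (s : Matrix (Fin 2) (Fin 2) k)).charpoly.Splits} := fun t =>
      ⟨⟨((b⁻¹ : GL (Fin 2) k) : Matrix (Fin 2) (Fin 2) k) *
          !![t.2.1, (t.2.2 : k); (t.2.1 * (t.1.1 - t.2.1) - δ) / t.2.2, t.1.1 - t.2.1],
          hdet _ (det_mat δ t.1.1 t.2.1 t.2.2 t.2.2.ne_zero)⟩, by
        change ¬ ((b : Matrix (Fin 2) (Fin 2) k) * (((b⁻¹ : GL (Fin 2) k) : Matrix (Fin 2) (Fin 2) k) *
          !![t.2.1, (t.2.2 : k); (t.2.1 * (t.1.1 - t.2.1) - δ) / t.2.2, t.1.1 - t.2.1])).charpoly.Splits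
        rw [hinv]
        exact hns _ _ _ t.1.2⟩
    refine Nat.card_le_card_of_injective F ?_
    rintro ⟨⟨c, hc⟩, x, y⟩ ⟨⟨c', hc'⟩, x', y'⟩ hst
    have h1 := congrArg (fun z => (b : Matrix (Fin 2) (Fin 2) k) *
      ((z.1 : Matrix.SpecialLinearGroup (Fin 2) k) : Matrix (Fin 2) (Fin 2) k)) hst
    change (b : Matrix (Fin 2) (Fin 2) k) * (((b⁻¹ : GL (Fin 2) k) : Matrix (Fin 2) (Fin 2) k) *
          !![x, (y : k); (x * (c - x) - δ) / y, c - x]) =
      (b : Matrix (Fin 2) (Fin 2) k) * (((b⁻¹ : GL (Fin 2) k) : Matrix (Fin 2) (Fin 2) k) *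
          !![x', (y' : k); (x' * (c' - x') - δ) / y', c' - x']) at h1
    rw [hinv, hinv] at h1
    have e1 : x = x' := by simpa using congrFun (congrFun h1 0) 0
    have e2 : (y : k) = y' := by simpa using congrFun (congrFun h1 0) 1
    have e3 : c - x = c' - x' := by simpa using congrFun (congrFun h1 1) 1
    subst e1
    have e4 : c = c' := sub_left_injective e3
    subst e4
    have e5 : y = y' := Units.ext e2
    subst e5
    rfl
  have hcard : Nat.card ({c : k // c ∉ B} × k × kˣ) = Nat.card {c : k // c ∉ B} * (q * (q - 1)) := by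
    rw [Nat.card_prod, Nat.card_prod, Nat.card_eq_fintype_card (α := k), Nat.card_eq_fintype_card (α := kˣ),
      Fintype.card_units]
  rw [hcard] at hinj
  have hSL := card_SL_le (k := k)
  rw [← hq] at hSL
  refine hSL.trans (le_trans ?_ (Nat.mul_le_mul_left 4 hinj))
  obtain ⟨r, hr⟩ : ∃ r, q = r + 3 := ⟨q - 3, by omega⟩
  rw [hr] at hgood ⊢
  have e1 : (r + 3) ^ 2 - 1 = (r + 2) * (r + 4) := by
    have : (r + 3) ^ 2 = (r + 2) * (r + 4) + 1 := by ring
    rw [this]; rfl
  have e2 : r + 3 - 1 = r + 2 := rfl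
  rw [e1]
  rw [e2] at hgood ⊢
  set N := Nat.card {c : k // c ∉ B} with hN
  have h5 : (r + 4) ≤ 2 * (r + 2) := by omega
  calc (r + 2) * (r + 4) * (r + 3) ≤ (r + 2) * (2 * (r + 2)) * (r + 3) := by gcongr
    _ = 2 * (r + 2) * ((r + 3) * (r + 2)) := by ring
    _ ≤ 2 * (2 * N) * ((r + 3) * (r + 2)) := by gcongr
    _ = 4 * (N * ((r + 3) * (r + 2))) := by ring

end Pool.Agent.Helper37.Ff
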