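import Mathlib

/-!
# Project FRF (MP_6cbef8_nt), module Prs: counting in a subgroup of a product

The fibres of `Θ` over its first projection have the same number of elements; the second condition is handled by counting the
pairs `(q, s)`, `q ∈ Θ`, `s ∈ S`, with `a0 q.1 ∈ A1`, `b0 q.2 s ∈ A2` in two ways.
-/

set_option autoImplicit false

namespace Pool.Agent.Helper37.Ff

open Finset

private theorem prx_fst {G Q : Type*} [Group G] [Group Q] [Finite G] (f : G →* Q) (P : Q → Prop)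
    (B : ℕ) (h1 : Nat.card f.range ≤ B * Nat.card {γ : Q // γ ∈ f.range ∧ P γ}) :
    Nat.card G ≤ B * Nat.card {g : G // P (f g)} := by
  classical
  have := Fintype.ofFinite G
  obtain ⟨I, hI⟩ : ∃ I : Finset Q, I = univ.image f := ⟨_, rfl⟩
  have hIm : ∀ γ, γ ∈ I ↔ γ ∈ f.range := by
    intro γ
    rw [hI, mem_image, MonoidHom.mem_range]
    simp
  obtain ⟨k, hk⟩ : ∃ k, k = (univ.filter fun g : G => f g = 1).card := ⟨_, rfl⟩
  have hfib : ∀ γ ∈ I, (univ.filter fun g : G => f g = γ).card = k := by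
    intro γ hγ
    rw [hk]
    exact MonoidHom.card_fiber_eq_of_mem_range f (MonoidHom.mem_range.1 ((hIm γ).1 hγ))
      ⟨1, map_one f⟩
  have e1 : Nat.card G = I.card * k := by
    rw [Nat.card_eq_fintype_card, ← card_univ,
      card_eq_sum_card_fiberwise (f := f) (t := I) (fun g _ => by
        rw [hI]
        exact mem_coe.2 (mem_image_of_mem f (mem_univ g)))]
    rw [sum_congr rfl hfib, sum_const, smul_eq_mul]
  have e2 : Nat.card {g : G // P (f g)} = (I.filter P).card * k := by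
    rw [Nat.subtype_card (univ.filter fun g : G => P (f g)) (fun x => by simp),
      card_eq_sum_card_fiberwise (f := f) (t := I.filter P) (fun g hg => by
        have hg' := (mem_filter.1 (mem_coe.1 hg)).2
        refine mem_coe.2 (mem_filter.2 ⟨?_, hg'⟩)
        rw [hI]
        exact mem_image_of_mem f (mem_univ g))]
    rw [← smul_eq_mul, ← sum_const]
    refine sum_congr rfl fun γ hγ => ?_
    rw [← hfib γ (mem_filter.1 hγ).1]
    congr 1
    ext g
    simp only [mem_filter, mem_univ, true_and]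
    constructor
    · exact fun h => h.2
    · rintro rfl
      exact ⟨(mem_filter.1 hγ).2, rfl⟩
  have e3 : Nat.card f.range = I.card := Nat.subtype_card I hIm
  have e4 : Nat.card {γ : Q // γ ∈ f.range ∧ P γ} = (I.filter P).card :=
    Nat.subtype_card _ (fun γ => by rw [mem_filter, hIm])
  rw [e3, e4] at h1
  rw [e1, e2, ← mul_assoc]
  exact Nat.mul_le_mul_right _ h1

private theorem prx_snd {G Q : Type*} [Group G] [Group Q] [Finite G] (f : G →* Q) (S : Subgroup Q)
    (j : S → G) (hj : ∀ s, f (j s) = s) (P : G → Prop) (hP : ∀ g s, P (g * j s) ↔ P g)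
    (A2 : Set Q) (b0 : Q)
    (h2 : ∀ b : Q, Nat.card S ≤ 4 * Nat.card {s : Q // s ∈ S ∧ b * s ∈ A2}) :
    Nat.card {g : G // P g} ≤ 4 * Nat.card {g : G // P g ∧ b0 * f g ∈ A2} := by
  classical
  have := Fintype.ofFinite G
  have hjinj : Function.Injective j := by
    intro s t hst
    apply Subtype.ext
    rw [← hj s, ← hj t, hst]
  have : Finite S := Finite.of_injective j hjinj
  have := Fintype.ofFinite S
  rw [Nat.subtype_card (univ.filter fun g : G => P g) (fun x => by simp),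
    Nat.subtype_card (univ.filter fun g : G => P g ∧ b0 * f g ∈ A2) (fun x => by simp)]
  obtain ⟨F, hF⟩ : ∃ F, F = univ.filter fun g : G => P g := ⟨_, rfl⟩
  obtain ⟨T, hT⟩ : ∃ T, T = (univ.filter fun g : G => P g ∧ b0 * f g ∈ A2).card := ⟨_, rfl⟩
  rw [← hF, ← hT]
  have e1 : ∀ s : S, (F.filter fun g => b0 * (f g * s) ∈ A2).card = T := by
    intro s
    rw [hT]
    refine card_bij (fun g _ => g * j s) ?_ ?_ ?_
    · intro g hg
      obtain ⟨hg1, hg2⟩ := mem_filter.1 hg
      rw [hF] at hg1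
      refine mem_filter.2 ⟨mem_univ _, (hP g s).2 (mem_filter.1 hg1).2, ?_⟩
      rw [map_mul, hj]
      exact hg2
    · intro a _ b _ hab
      exact mul_right_cancel hab
    · intro g hg
      obtain ⟨-, hg1, hg2⟩ := mem_filter.1 hg
      have h3 : g * (j s)⁻¹ * j s = g := inv_mul_cancel_right g (j s)
      refine ⟨g * (j s)⁻¹, ?_, h3⟩
      refine mem_filter.2 ⟨?_, ?_⟩
      · rw [hF]
        refine mem_filter.2 ⟨mem_univ _, ?_⟩
        rw [← hP _ s, h3]
        exact hg1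
      · have h4 : f (g * (j s)⁻¹) * s = f g := by
          rw [map_mul, map_inv, hj, inv_mul_cancel_right]
        rw [h4]
        exact hg2
  have e2 : ∀ g : G, Nat.card S ≤ 4 * (univ.filter fun s : S => b0 * (f g * s) ∈ A2).card := by
    intro g
    refine (h2 (b0 * f g)).trans_eq ?_
    congr 1
    have h3 : Nat.card {s : Q // s ∈ S ∧ b0 * f g * s ∈ A2} =
        Nat.card {s : S // b0 * (f g * s) ∈ A2} := by
      refine Nat.card_congr
        { toFun := fun x => ⟨⟨x.1, x.2.1⟩, by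
            show b0 * (f g * x.1) ∈ A2
            rw [← mul_assoc]
            exact x.2.2⟩
          invFun := fun x => ⟨x.1.1, x.1.2, by
            rw [mul_assoc]
            exact x.2⟩
          left_inv := fun x => rfl
          right_inv := fun x => rfl }
    rw [h3]
    exact Nat.subtype_card _ (fun x => by simp)
  have e3 : ∑ g ∈ F, Nat.card S ≤ ∑ g ∈ F, 4 * (univ.filter fun s : S => b0 * (f g * s) ∈ A2).card :=
    sum_le_sum fun g _ => e2 g
  have e4 : ∑ g ∈ F, (univ.filter fun s : S => b0 * (f g * s) ∈ A2).card =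
      ∑ s : S, (F.filter fun g => b0 * (f g * s) ∈ A2).card := by
    simp_rw [card_filter]
    exact sum_comm
  rw [← mul_sum, e4, sum_congr rfl fun s _ => e1 s, sum_const, sum_const, card_univ, smul_eq_mul,
    smul_eq_mul, ← Nat.card_eq_fintype_card] at e3
  have hpos : 0 < Nat.card S := Nat.card_pos
  refine Nat.le_of_mul_le_mul_right ?_ hpos
  calc F.card * Nat.card S ≤ 4 * (Nat.card S * T) := e3
    _ = 4 * T * Nat.card S := by ring

theorem card_pairs {Q1 Q2 : Type*} [Group Q1] [Group Q2] (Θ : Subgroup (Q1 × Q2)) [Finite Θ]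
    (S : Subgroup Q2) (hS : ∀ s ∈ S, ((1 : Q1), s) ∈ Θ) (A1 : Set Q1) (A2 : Set Q2) (a0 : Q1)
    (b0 : Q2) (B : ℕ)
    (h1 : Nat.card (Θ.map (MonoidHom.fst Q1 Q2)) ≤
      B * Nat.card {γ : Q1 // γ ∈ Θ.map (MonoidHom.fst Q1 Q2) ∧ a0 * γ ∈ A1})
    (h2 : ∀ b : Q2, Nat.card S ≤ 4 * Nat.card {s : Q2 // s ∈ S ∧ b * s ∈ A2}) :
    Nat.card Θ ≤ 4 * B * Nat.card {q : Q1 × Q2 // q ∈ Θ ∧ a0 * q.1 ∈ A1 ∧ b0 * q.2 ∈ A2} := by
  obtain ⟨f, hf⟩ : ∃ f : Θ →* Q1, f = (MonoidHom.fst Q1 Q2).comp Θ.subtype := ⟨_, rfl⟩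
  have hr : Θ.map (MonoidHom.fst Q1 Q2) = f.range := by
    rw [hf, MonoidHom.range_comp, Subgroup.range_subtype]
  rw [hr] at h1
  have hff : ∀ g : Θ, f g = g.1.1 := fun g => by
    rw [hf]
    rfl
  have g1 := prx_fst f (fun γ => a0 * γ ∈ A1) B h1
  have g2 := prx_snd ((MonoidHom.snd Q1 Q2).comp Θ.subtype) S (fun s => ⟨((1 : Q1), s.1), hS s.1 s.2⟩)
    (fun s => rfl) (fun g => a0 * f g ∈ A1) (fun g s => by
      have h3 : f (g * (⟨((1 : Q1), s.1), hS s.1 s.2⟩ : Θ)) = f g := by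
        rw [map_mul, hff ⟨((1 : Q1), s.1), hS s.1 s.2⟩]
        exact mul_one _
      rw [h3]) A2 b0 h2
  have e : Nat.card {g : Θ // a0 * f g ∈ A1 ∧ b0 * ((MonoidHom.snd Q1 Q2).comp Θ.subtype) g ∈ A2} =
      Nat.card {q : Q1 × Q2 // q ∈ Θ ∧ a0 * q.1 ∈ A1 ∧ b0 * q.2 ∈ A2} := by
    refine Nat.card_congr
      { toFun := fun x => ⟨x.1.1, x.1.2, by
          have := x.2.1
          rw [hff] at this
          exact this, x.2.2⟩
        invFun := fun x => ⟨⟨x.1, x.2.1⟩, by
          rw [hff]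
          exact x.2.2.1, x.2.2.2⟩
        left_inv := fun x => rfl
        right_inv := fun x => rfl }
  rw [e] at g2
  calc Nat.card Θ ≤ B * Nat.card {g : Θ // a0 * f g ∈ A1} := g1
    _ ≤ B * (4 * Nat.card {q : Q1 × Q2 // q ∈ Θ ∧ a0 * q.1 ∈ A1 ∧ b0 * q.2 ∈ A2}) :=
        Nat.mul_le_mul_left _ g2
    _ = 4 * B * Nat.card {q : Q1 × Q2 // q ∈ Θ ∧ a0 * q.1 ∈ A1 ∧ b0 * q.2 ∈ A2} := by ring

end Pool.Agent.Helper37.Ff
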