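import Pool.Agent.Helper37.Ff.Ne

/-!
# Project FRF (MP_6cbef8_nt), module Sse: a power which is diagonalisable with the same eigenvalues
-/

set_option autoImplicit false

namespace Pool.Agent.Helper37.Ff

open Polynomial

private theorem dg_of_basis {k : Type*} [Field k] {n : ℕ} (B : Matrix (Fin n) (Fin n) k)
    {ι : Type*} (b : Module.Basis ι k (Fin n → k)) (hb : ∀ i, ∃ α : k, B.mulVec (b i) = α • b i) :
    Dg B := by
  classical
  have _ : Fintype ι := FiniteDimensional.fintypeBasisIndex b
  have hcard : Fintype.card ι = n := by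
    have h1 := Module.finrank_eq_card_basis b
    rw [Module.finrank_fin_fun] at h1
    exact h1.symm
  let b' := b.reindex (Fintype.equivFinOfCardEq hcard)
  have hb' : ∀ j, ∃ α : k, B.mulVec (b' j) = α • b' j := by
    intro j
    have h1 : b' j = b ((Fintype.equivFinOfCardEq hcard).symm j) :=
      Module.Basis.reindex_apply _ _ _
    rw [h1]
    exact hb _
  choose a ha using hb'
  have e1 : (Pi.basisFun k (Fin n)).toMatrix b' * b'.toMatrix (Pi.basisFun k (Fin n)) = 1 :=
    Module.Basis.toMatrix_mul_toMatrix_flip _ _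
  have e2 : b'.toMatrix (Pi.basisFun k (Fin n)) * (Pi.basisFun k (Fin n)).toMatrix b' = 1 :=
    Module.Basis.toMatrix_mul_toMatrix_flip _ _
  refine ⟨⟨(Pi.basisFun k (Fin n)).toMatrix b', b'.toMatrix (Pi.basisFun k (Fin n)), e1, e2⟩, a, ?_⟩
  have h2 : B * (Pi.basisFun k (Fin n)).toMatrix b' =
      (Pi.basisFun k (Fin n)).toMatrix b' * Matrix.diagonal a := by
    ext i j
    rw [Matrix.mul_diagonal]
    have h3 := congrFun (ha j) i
    rw [Matrix.mulVec, dotProduct] at h3
    rw [Matrix.mul_apply]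
    simp only [Module.Basis.toMatrix_apply, Pi.basisFun_repr]
    rw [h3]
    simp only [Pi.smul_apply, smul_eq_mul]
    ring
  show B = (Pi.basisFun k (Fin n)).toMatrix b' * Matrix.diagonal a *
    b'.toMatrix (Pi.basisFun k (Fin n))
  rw [← h2, Matrix.mul_assoc, e1, Matrix.mul_one]

private theorem dg_of_span {k : Type*} [Field k] {n : ℕ} (B : Matrix (Fin n) (Fin n) k)
    (h : ⊤ ≤ Submodule.span k {v : Fin n → k | ∃ α : k, B.mulVec v = α • v}) : Dg B :=
  dg_of_basis B (Module.Basis.ofSpan h) fun i => Module.Basis.ofSpan_subset h ⟨i, rfl⟩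

private theorem span_of_aeval {k : Type*} [Field k] {n : ℕ} (B : Matrix (Fin n) (Fin n) k)
    (S : Finset k) (h : aeval B (∏ α ∈ S, (X - C α)) = 0) :
    ⊤ ≤ Submodule.span k {v : Fin n → k | ∃ α : k, B.mulVec v = α • v} := by
  classical
  intro v _
  rcases S.eq_empty_or_nonempty with hS | hS
  · rw [hS, Finset.prod_empty, map_one] at h
    have h1 : v = 0 := by
      have h2 : (1 : Matrix (Fin n) (Fin n) k).mulVec v = v := Matrix.one_mulVec v
      rw [h, Matrix.zero_mulVec] at h2
      exact h2.symm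
    rw [h1]
    exact Submodule.zero_mem _
  · have h1 : ∑ α ∈ S, Lagrange.basis S id α = (1 : k[X]) :=
      Lagrange.sum_basis Function.injective_id.injOn hS
    have h2 : v = ∑ α ∈ S, (aeval B (Lagrange.basis S id α)).mulVec v := by
      have h3 : (aeval B (1 : k[X])).mulVec v = v := by
        rw [map_one, Matrix.one_mulVec]
      rw [← h1, map_sum, Matrix.sum_mulVec] at h3
      exact h3.symm
    rw [h2]
    refine Submodule.sum_mem _ fun α hα => Submodule.subset_span ⟨α, ?_⟩
    have h4 : (∏ α ∈ S, (X - C α)) ∣ (X - C α) * Lagrange.basis S id α := by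
      rw [← Finset.mul_prod_erase S (fun α => X - C α) hα]
      refine mul_dvd_mul_left _ ?_
      unfold Lagrange.basis
      refine Finset.prod_dvd_prod_of_dvd _ _ fun β _ => ?_
      unfold Lagrange.basisDivisor
      exact Dvd.intro_left _ rfl
    obtain ⟨Q, hQ⟩ := h4
    have h5 : aeval B ((X - C α) * Lagrange.basis S id α) = 0 := by
      rw [hQ, map_mul, h, zero_mul]
    rw [map_mul, map_sub, aeval_X, aeval_C] at h5
    have h6 : ((B - algebraMap k (Matrix (Fin n) (Fin n) k) α) *
        aeval B (Lagrange.basis S id α)).mulVec v = 0 := by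
      rw [h5, Matrix.zero_mulVec]
    rw [← Matrix.mulVec_mulVec, Matrix.sub_mulVec, sub_eq_zero] at h6
    rw [h6, Algebra.algebraMap_eq_smul_one, Matrix.smul_mulVec, Matrix.one_mulVec]

theorem semisimple_power {k : Type*} [Field k] [Finite k] {p : ℕ} [Fact p.Prime] [CharP k p]
    {n : ℕ} (t : GL (Fin n) k) (ht : (t : Matrix (Fin n) (Fin n) k).charpoly.Splits) (m0 : ℕ)
    (hm : m0.Coprime p) : ∃ e : ℕ, 0 < e ∧ e ≡ 1 [MOD m0] ∧
      Dg ((t ^ e : GL (Fin n) k) : Matrix (Fin n) (Fin n) k) ∧
      ((t ^ e : GL (Fin n) k) : Matrix (Fin n) (Fin n) k).charpoly =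
        (t : Matrix (Fin n) (Fin n) k).charpoly := by
  classical
  have _ : Fintype k := Fintype.ofFinite k
  have hp : p.Prime := Fact.out
  obtain ⟨r, -, hq⟩ := FiniteField.card k p
  set q := Fintype.card k with hqdef
  have hm0 : 0 < m0 := by
    rcases Nat.eq_zero_or_pos m0 with h | h
    · rw [h, Nat.coprime_zero_left] at hm
      exact absurd hm hp.one_lt.ne'
    · exact h
  have hq1 : 1 < q := Fintype.one_lt_card
  have hqm : Nat.Coprime q m0 := by
    rw [hq]
    exact Nat.Coprime.pow_left _ hm.symm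
  have hφ : 0 < Nat.totient m0 := Nat.totient_pos.2 hm0
  obtain ⟨N, hN⟩ : ∃ N : ℕ, N = Nat.totient m0 * (n + 1) := ⟨_, rfl⟩
  have hmod : q ^ N ≡ 1 [MOD m0] := by
    rw [hN, pow_mul]
    have h1 := (Nat.ModEq.pow_totient hqm).pow (n + 1)
    rw [one_pow] at h1
    exact h1
  have hnN : n + 1 ≤ N := by
    rw [hN]
    exact Nat.le_mul_of_pos_left _ hφ
  have hne : n ≤ q ^ N := by
    have h1 : N < q ^ N := Nat.lt_pow_self hq1
    omega
  set A : Matrix (Fin n) (Fin n) k := (t : Matrix (Fin n) (Fin n) k) with hA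
  have hcp : ∀ M : ℕ, (A ^ (q ^ M)).charpoly = A.charpoly := by
    intro M
    induction M with
    | zero => rw [pow_zero, pow_one]
    | succ M ih => rw [pow_succ, pow_mul, FiniteField.Matrix.charpoly_pow_card, ih]
  have hα : ∀ α : k, α ^ (q ^ N) = α := fun α => FiniteField.pow_card_pow N α
  refine ⟨q ^ N, pow_pos (by omega) N, hmod, ?_, ?_⟩
  · rw [Units.val_pow_eq_pow_val, ← hA]
    refine dg_of_span _ (span_of_aeval _ A.charpoly.roots.toFinset ?_)
    set S := A.charpoly.roots.toFinset with hS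
    have h1 : A.charpoly ∣ (∏ α ∈ S, (X - C α)) ^ (q ^ N) := by
      have h2 : A.charpoly = (A.charpoly.roots.map fun a => X - C a).prod := by
        have h3 := ht.eq_prod_roots
        rw [(Matrix.charpoly_monic A).leadingCoeff, C_1, one_mul] at h3
        exact h3
      rw [h2, Finset.prod_multiset_map_count, ← Finset.prod_pow]
      refine Finset.prod_dvd_prod_of_dvd _ _ fun α _ => pow_dvd_pow _ ?_
      refine (Multiset.count_le_card α _).trans ?_
      refine (Polynomial.card_roots' _).trans ?_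
      rw [Matrix.charpoly_natDegree_eq_dim, Fintype.card_fin]
      exact hne
    obtain ⟨Q, hQ⟩ := h1
    have h4 : aeval A ((∏ α ∈ S, (X - C α)) ^ (q ^ N)) = 0 := by
      rw [hQ, map_mul, Matrix.aeval_self_charpoly, zero_mul]
    have h5 : (∏ α ∈ S, (X - C α)) ^ (q ^ N) = (∏ α ∈ S, (X - C α)).comp (X ^ (q ^ N)) := by
      rw [Polynomial.prod_comp, ← Finset.prod_pow]
      refine Finset.prod_congr rfl fun α _ => ?_
      rw [Polynomial.sub_comp, Polynomial.X_comp, Polynomial.C_comp]
      have h6 : q ^ N = p ^ ((r : ℕ) * N) := by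
        rw [hq, pow_mul]
      rw [h6, sub_pow_char_pow, ← C_pow, ← h6, hα]
    rw [h5, Polynomial.aeval_comp, map_pow, aeval_X] at h4
    exact h4
  · rw [Units.val_pow_eq_pow_val, ← hA]
    exact hcp N

end Pool.Agent.Helper37.Ff
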