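import Pool.Agent.Helper37.Ff.ThP
import Pool.Agent.Helper37.Ff.Sse
import Pool.Agent.Helper37.Ff.MsF
import Pool.Agent.Helper37.Ff.Prs
import Pool.Agent.Helper37.Ff.NSp

/-!
# Project FRF (MP_6cbef8_nt), module Bad: the measure of the set of elements split for τ and not for ρ

PLAN. Uses the STATEMENTS of ThP, Sse, MsF, Prs, NSp, EvB (`ne_congr`). `B = 4 * B0`, `B0` the number of `many_split n w`. `semisimple_power` for
`t1 = τ r1` and `m0 = U.index` gives `e`. `g' = r1 ^ e`, `t = τ g' = t1 ^ e`, diagonalisable with the characteristic polynomial of `t1`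
(so `ne (t ^ i) = ne (t1 ^ i)` for all `i` by `ne_congr`, also `ne t = ne t1`). `g⁻¹ * g' ∈ U`: modulo the normal subgroup `U` of
index `m0` we have `r1 = g`, `g ^ m0 = 1`, `g ^ e = g` (`e ≡ 1 mod m0`). So `{x | g⁻¹ x ∈ U} = {x | g'⁻¹ x ∈ U}`.
`Γ = U.map τ`; `t` normalises `Γ`; `m = w * m0`; `t ^ m = τ (g' ^ m) ∈ Γ` (`Subgroup.pow_index_mem`). For `γ = τ u ∈ Γ` we have
`t γ = τ (g' u)`, so the hypothesis on `w`-th powers holds; the hypothesis on `ne (t ^ (w * m * j))` too. So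
`card Γ ≤ B0 * card {γ ∈ Γ | t γ ∈ A1}`, `A1 = {y | y.charpoly.Splits ∧ ne y = ne t1 ∧ ne (y ^ w) = ne (t1 ^ w)}`.
`θ = τ.prod ρ : G →* GL_n(k) × GL_2(k)`, `Θ = U.map θ` (finite: subgroup of a finite group), `Θ.map fst = Γ`; `S ≤ GL_2(k)` the image of
`SL_2(k)` (`Matrix.SpecialLinearGroup.toGL` range), `(1, s) ∈ Θ` for `s ∈ S` by `hfull`; `A2 = {y | ¬ y.charpoly.Splits}`;
`h2` of `card_pairs` is `card_nonsplit` (`SL_2(k) ≃ S`). So `card Θ ≤ 4 * B0 * card {q ∈ Θ | τ g' * q.1 ∈ A1 ∧ ρ g' * q.2 ∈ A2}`, and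
`measure_fibre` for `θ`, `g'`, `A = A1 ×ˢ A2` (as a set of pairs) gives the claim (`θ.ker = τ.ker ⊓ ρ.ker` is open).
-/

set_option autoImplicit false

open MeasureTheory

namespace Pool.Agent.Helper37.Ff

theorem bad_measure (n w : ℕ) (hw : 0 < w) : ∃ B : ℕ, ∀ {G : Type} [Group G]
    [TopologicalSpace G] [IsTopologicalGroup G] [CompactSpace G] [MeasurableSpace G] [BorelSpace G]
    (μ : Measure G) [μ.IsHaarMeasure] (k : Type) [Field k] [Finite k] (p : ℕ) [Fact p.Prime]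
    [CharP k p], n < p → 3 ≤ p → ∀ (τ : G →* GL (Fin n) k) (ρ : G →* GL (Fin 2) k),
    IsOpen (τ.ker : Set G) → IsOpen (ρ.ker : Set G) →
    ∀ (U : Subgroup G), U.Normal → IsOpen (U : Set G) → U.index.Coprime p →
    (∀ s : Matrix.SpecialLinearGroup (Fin 2) k, ∃ h ∈ U, τ h = 1 ∧
      (ρ h : Matrix (Fin 2) (Fin 2) k) = (s : Matrix (Fin 2) (Fin 2) k)) →
    ∀ g r1 : G, g⁻¹ * r1 ∈ U → (τ r1 : Matrix (Fin n) (Fin n) k).charpoly.Splits →
    (∀ x : G, g⁻¹ * x ∈ U → ne ((τ x : Matrix (Fin n) (Fin n) k) ^ w) ≤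
      ne ((τ r1 : Matrix (Fin n) (Fin n) k) ^ w)) →
    (∀ i, 0 < i → i ≤ n ^ 4 → ne ((τ r1 : Matrix (Fin n) (Fin n) k) ^ (w * (w * U.index) * i)) =
      ne ((τ r1 : Matrix (Fin n) (Fin n) k) ^ w)) →
    ∀ Bd : Set G, Bd = {x : G | g⁻¹ * x ∈ U ∧ (τ x : Matrix (Fin n) (Fin n) k).charpoly.Splits ∧
      ne (τ x : Matrix (Fin n) (Fin n) k) = ne (τ r1 : Matrix (Fin n) (Fin n) k) ∧
      ne ((τ x : Matrix (Fin n) (Fin n) k) ^ w) = ne ((τ r1 : Matrix (Fin n) (Fin n) k) ^ w) ∧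
      ¬ (ρ x : Matrix (Fin 2) (Fin 2) k).charpoly.Splits} →
    IsOpen Bd ∧ μ (U : Set G) ≤ B * μ Bd := by
  classical
  obtain ⟨B0, hB0⟩ := many_split n w hw
  refine ⟨4 * B0, ?_⟩
  intro G _ _ _ _ _ _ μ _ k _ _ p _ _ hnp hp3 τ ρ hτ hρ U hUn hUo hcop hfull g r1 hr1 hsplit
    hmax hne Bd hBd
  obtain ⟨e, he0, he1, hDg, hchar⟩ := semisimple_power (τ r1) hsplit U.index hcop
  have hcong : ∀ i : ℕ, ne ((τ (r1 ^ e) : Matrix (Fin n) (Fin n) k) ^ i) =
      ne ((τ r1 : Matrix (Fin n) (Fin n) k) ^ i) := by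
    intro i
    rw [map_pow]
    exact ne_congr hchar i
  have hcong1 : ne (τ (r1 ^ e) : Matrix (Fin n) (Fin n) k) =
      ne (τ r1 : Matrix (Fin n) (Fin n) k) := by
    have := hcong 1
    rwa [pow_one, pow_one] at this
  have hgg : g⁻¹ * r1 ^ e ∈ U := by
    rw [← QuotientGroup.eq]
    have h1 : (g : G ⧸ U) = (r1 : G ⧸ U) := QuotientGroup.eq.2 hr1
    have h2 : (r1 : G ⧸ U) ^ e = (r1 : G ⧸ U) ^ 1 := by
      rw [pow_eq_pow_iff_modEq]
      refine he1.of_dvd ?_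
      apply orderOf_dvd_of_pow_eq_one
      rw [Subgroup.index]
      exact pow_card_eq_one'
    rw [pow_one] at h2
    rw [h1, QuotientGroup.mk_pow, h2]
  have hmem : ∀ x : G, g⁻¹ * x ∈ U ↔ (r1 ^ e)⁻¹ * x ∈ U := by
    intro x
    have h1 : g⁻¹ * x = (g⁻¹ * r1 ^ e) * ((r1 ^ e)⁻¹ * x) := by group
    rw [h1]
    exact U.mul_mem_cancel_left hgg
  have hpk : ∀ m : ℕ, 0 < m → m ≤ n → (m : k) ≠ 0 := by
    intro m hm hmn h0
    have := (CharP.cast_eq_zero_iff k p m).1 h0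
    have := Nat.le_of_dvd hm this
    omega
  have hcard : 3 ≤ Nat.card k := by
    have : Fintype k := Fintype.ofFinite k
    have h0 : ((Nat.card k : ℕ) : k) = 0 := by
      rw [Nat.card_eq_fintype_card]
      exact Nat.cast_card_eq_zero k
    have h1 := Nat.le_of_dvd Nat.card_pos ((CharP.cast_eq_zero_iff k p _).1 h0)
    omega
  have hU' : ∀ x : G, (r1 ^ e)⁻¹ * x ∈ U →
      ne ((τ x : Matrix (Fin n) (Fin n) k) ^ w) ≤
        ne ((τ (r1 ^ e) : Matrix (Fin n) (Fin n) k) ^ w) := by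
    intro x hx
    rw [hcong]
    exact hmax x ((hmem x).2 hx)
  have hΓ := hB0 k hpk (U.map τ) (τ (r1 ^ e)) (by
      rintro γ ⟨u, hu, rfl⟩
      refine ⟨(r1 ^ e)⁻¹ * u * r1 ^ e, ?_, by simp only [map_mul, map_inv]⟩
      have := hUn.conj_mem u hu (r1 ^ e)⁻¹
      rwa [inv_inv] at this) (by rw [map_pow]; exact hDg) (w * U.index) (Dvd.intro _ rfl)
    (by
      refine ⟨(r1 ^ e) ^ (w * U.index), ?_, by rw [map_pow]⟩
      rw [pow_mul]
      exact Subgroup.pow_index_mem _ _)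
    (by
      rintro γ ⟨u, hu, rfl⟩
      rw [← map_mul, Units.val_pow_eq_pow_val, Units.val_pow_eq_pow_val]
      refine hU' _ ?_
      have : (r1 ^ e)⁻¹ * (r1 ^ e * u) = u := by group
      rw [this]
      exact hu)
    (by
      intro j hj hj'
      rw [Units.val_pow_eq_pow_val, Units.val_pow_eq_pow_val, hcong, hcong]
      exact hne j hj hj')
  set A1 : Set (GL (Fin n) k) := {y | (y : Matrix (Fin n) (Fin n) k).charpoly.Splits ∧
    ne (y : Matrix (Fin n) (Fin n) k) = ne (τ r1 : Matrix (Fin n) (Fin n) k) ∧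
    ne ((y : Matrix (Fin n) (Fin n) k) ^ w) = ne ((τ r1 : Matrix (Fin n) (Fin n) k) ^ w)}
    with hA1
  set A2 : Set (GL (Fin 2) k) := {y | ¬ (y : Matrix (Fin 2) (Fin 2) k).charpoly.Splits}
    with hA2
  have hΓ2 : Nat.card (U.map τ) ≤ B0 * Nat.card {γ : GL (Fin n) k //
      γ ∈ U.map τ ∧ τ (r1 ^ e) * γ ∈ A1} := by
    refine hΓ.trans (le_of_eq ?_)
    congr 1
    apply Nat.card_congr
    refine Equiv.subtypeEquivRight fun γ => ?_
    rw [Units.val_pow_eq_pow_val, Units.val_pow_eq_pow_val, hcong, hcong1]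
    rfl
  have hfst : (U.map (τ.prod ρ)).map (MonoidHom.fst (GL (Fin n) k) (GL (Fin 2) k)) =
      U.map τ := by
    rw [Subgroup.map_map, MonoidHom.fst_comp_prod]
  have hS : ∀ s ∈ (Matrix.SpecialLinearGroup.toGL : Matrix.SpecialLinearGroup (Fin 2) k →*
      GL (Fin 2) k).range, ((1 : GL (Fin n) k), s) ∈ U.map (τ.prod ρ) := by
    rintro s ⟨s', rfl⟩
    obtain ⟨h, hh, h1, h2⟩ := hfull s'
    refine ⟨h, hh, ?_⟩
    rw [MonoidHom.prod_apply, h1]
    refine Prod.ext rfl ?_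
    apply Units.ext
    rw [h2]
    rfl
  have h2 : ∀ b : GL (Fin 2) k, Nat.card (Matrix.SpecialLinearGroup.toGL :
      Matrix.SpecialLinearGroup (Fin 2) k →* GL (Fin 2) k).range ≤ 4 * Nat.card {s : GL (Fin 2) k //
        s ∈ (Matrix.SpecialLinearGroup.toGL : Matrix.SpecialLinearGroup (Fin 2) k →*
          GL (Fin 2) k).range ∧ b * s ∈ A2} := by
    intro b
    have h3 := card_nonsplit hcard b
    have h4 : Nat.card (Matrix.SpecialLinearGroup.toGL :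
        Matrix.SpecialLinearGroup (Fin 2) k →* GL (Fin 2) k).range ≤
        Nat.card (Matrix.SpecialLinearGroup (Fin 2) k) :=
      Nat.card_le_card_of_surjective _ (MonoidHom.rangeRestrict_surjective _)
    refine h4.trans (h3.trans (Nat.mul_le_mul_left 4 ?_))
    refine Nat.card_le_card_of_injective (fun s => ⟨Matrix.SpecialLinearGroup.toGL s.1,
      ⟨s.1, rfl⟩, s.2⟩) ?_
    intro s s' h
    have h5 := congrArg Subtype.val h
    have h6 : ((Matrix.SpecialLinearGroup.toGL s.1 : GL (Fin 2) k) : Matrix (Fin 2) (Fin 2) k) =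
      ((Matrix.SpecialLinearGroup.toGL s'.1 : GL (Fin 2) k) : Matrix (Fin 2) (Fin 2) k) :=
      congrArg Units.val h5
    exact Subtype.ext (Subtype.ext h6)
  have hker : IsOpen ((τ.prod ρ).ker : Set G) := by
    have h3 : ((τ.prod ρ).ker : Set G) = (τ.ker : Set G) ∩ (ρ.ker : Set G) := by
      ext x
      simp only [SetLike.mem_coe, MonoidHom.mem_ker, Set.mem_inter_iff, MonoidHom.prod_apply,
        Prod.mk_eq_one]
    rw [h3]
    exact hτ.inter hρ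
  have hfin : Finite (U.map (τ.prod ρ)) := inferInstance
  have h3 := card_pairs (U.map (τ.prod ρ)) _ hS A1 A2 (τ (r1 ^ e)) (ρ (r1 ^ e)) B0
    (by rw [hfst]; exact hΓ2) h2
  have h4 := measure_fibre μ (τ.prod ρ) hker U hUo (r1 ^ e) {q | q.1 ∈ A1 ∧ q.2 ∈ A2} (4 * B0) h3
  have h5 : Bd = {x : G | (r1 ^ e)⁻¹ * x ∈ U ∧ (τ.prod ρ) x ∈
      ({q | q.1 ∈ A1 ∧ q.2 ∈ A2} : Set (GL (Fin n) k × GL (Fin 2) k))} := by
    rw [hBd]
    ext x
    simp only [Set.mem_ofPred_eq, MonoidHom.prod_apply, hA1, hA2, hmem x]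
    constructor
    · rintro ⟨a, b, c, d, f⟩
      exact ⟨a, ⟨b, c, d⟩, f⟩
    · rintro ⟨a, ⟨b, c, d⟩, f⟩
      exact ⟨a, b, c, d, f⟩
  rw [h5]
  exact h4

end Pool.Agent.Helper37.Ff
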