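import Mathlib

/-!
# Project FRF (MP_6cbef8_nt), module Burn: a trace argument of Burnside type
-/

set_option autoImplicit false

namespace Pool.Agent.Helper37.Ff

open Polynomial

private theorem nil_aux {K : Type} [Field K] (d : ℕ) (hd : ∀ m : ℕ, 0 < m → m ≤ d → (m : K) ≠ 0)
    {W : Type} [AddCommGroup W] [Module K W] [FiniteDimensional K W]
    (hW : Module.finrank K W ≤ d) (x : Module.End K W)
    (hx : ∀ p : K[X], LinearMap.trace K W (x * aeval x p) = 0) (ν : K)
    (hν : Module.End.HasEigenvalue x ν) : ν = 0 := by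
  by_contra h0
  have hint : IsIntegral K x := Algebra.IsIntegral.isIntegral x
  have hm0 : minpoly K x ≠ 0 := minpoly.ne_zero hint
  have hroot : (minpoly K x).IsRoot ν := Module.End.isRoot_of_hasEigenvalue hν
  obtain ⟨g, hg, hng⟩ := Polynomial.exists_eq_pow_rootMultiplicity_mul_and_not_dvd
    (minpoly K x) hm0 ν
  have ha : 0 < (minpoly K x).rootMultiplicity ν := (Polynomial.rootMultiplicity_pos hm0).2 hroot
  set a := (minpoly K x).rootMultiplicity ν with haa
  have hnd : ¬ (X - C ν) ∣ X * g := by
    intro h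
    rcases (Polynomial.prime_X_sub_C ν).dvd_or_dvd h with h1 | h1
    · rw [Polynomial.dvd_iff_isRoot] at h1
      have h2 : (X : K[X]).eval ν = 0 := h1
      rw [Polynomial.eval_X] at h2
      exact h0 h2
    · exact hng h1
  have hcop : IsCoprime ((X - C ν) ^ a) (X * g) := by
    apply IsCoprime.pow_left
    exact (Polynomial.irreducible_X_sub_C ν).coprime_iff_not_dvd.2 hnd
  obtain ⟨u, v, huv⟩ := hcop
  have hidem : IsIdempotentElem (aeval x (v * (X * g))) := by
    have h1 : v * (X * g) * (v * (X * g)) = v * (X * g) - (u * v * X) * ((X - C ν) ^ a * g) := by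
      have h2 : v * (X * g) = 1 - u * (X - C ν) ^ a := by rw [← huv]; ring
      calc v * (X * g) * (v * (X * g)) = v * (X * g) * (1 - u * (X - C ν) ^ a) := by rw [← h2]
        _ = _ := by ring
    unfold IsIdempotentElem
    rw [← map_mul, h1, ← hg, map_sub, map_mul _ (u * v * X), minpoly.aeval, mul_zero, sub_zero]
  obtain ⟨P, hP⟩ := (LinearMap.isProj_iff_isIdempotentElem _).2 hidem
  have htr := hP.trace
  have hz : LinearMap.trace K W (aeval x (v * (X * g))) = 0 := by
    have h1 : aeval x (v * (X * g)) = x * aeval x (v * g) := by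
      have h2 : v * (X * g) = X * (v * g) := by ring
      rw [h2, map_mul, aeval_X]
    rw [h1]
    exact hx _
  rw [hz] at htr
  obtain ⟨e, he⟩ := hν.exists_hasEigenvector
  have hev : (aeval x (v * (X * g))) e = e := by
    rw [Module.End.aeval_apply_of_hasEigenvector he]
    have h1 : (v * (X * g)).eval ν = 1 := by
      have h2 := congrArg (Polynomial.eval ν) huv
      simp only [Polynomial.eval_add, Polynomial.eval_mul, Polynomial.eval_pow,
        Polynomial.eval_sub, Polynomial.eval_X, Polynomial.eval_C, sub_self, Polynomial.eval_one,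
        zero_pow ha.ne', mul_zero, zero_add] at h2
      simp only [Polynomial.eval_mul, Polynomial.eval_X]
      exact h2
    rw [h1, one_smul]
  have heP : e ∈ P := by
    rw [← hev]
    exact hP.map_mem e
  have hne : P ≠ ⊥ := by
    intro h
    rw [h, Submodule.mem_bot] at heP
    exact he.2 heP
  have hpos : 0 < Module.finrank K P := by
    rw [Nat.pos_iff_ne_zero]
    intro h
    exact hne (Submodule.finrank_eq_zero.1 h)
  exact hd _ hpos ((Submodule.finrank_le P).trans hW) htr.symm

private theorem tup_aux {K : Type} [Field K] (e : ℕ) (s : Multiset K) (hs : Multiset.card s = e) :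
    ∃ f : Fin e → K, (∀ i, f i ∈ s) ∧ ∑ i, f i = s.sum := by
  subst hs
  induction s using Quotient.inductionOn with
  | h l =>
    refine ⟨fun i => l.get i, fun i => List.get_mem _ _, ?_⟩
    exact Fin.sum_univ_getElem l

private theorem eig_det {K : Type} [Field K] [IsAlgClosed K] {W : Type} [AddCommGroup W]
    [Module K W] [FiniteDimensional K W] (w : ℕ) (y : Module.End K W)
    (h : ∀ μ ν : K, y.HasEigenvalue μ → y.HasEigenvalue ν → μ ^ w = ν ^ w) (γ : K)
    (hγ : y.HasEigenvalue γ) : γ ^ (w * Module.finrank K W) = LinearMap.det y ^ w := by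
  have hs : y.charpoly.Splits := IsAlgClosed.splits _
  have hc0 : y.charpoly ≠ 0 := (LinearMap.charpoly_monic y).ne_zero
  have h0 : y.charpoly.roots.prod ^ w = (y.charpoly.roots.map fun r => r ^ w).prod := by
    rw [Multiset.prod_map_pow, Multiset.map_id']
  rw [Module.End.det_eq_prod_roots_charpoly_of_splits hs, h0]
  have h1 : y.charpoly.roots.map (fun r => r ^ w) = Multiset.replicate (Module.finrank K W)
      (γ ^ w) := by
    rw [Multiset.eq_replicate]
    refine ⟨?_, ?_⟩
    · rw [Multiset.card_map, IsAlgClosed.card_roots_eq_natDegree, LinearMap.charpoly_natDegree]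
    · intro b hb
      obtain ⟨r, hr, rfl⟩ := Multiset.mem_map.1 hb
      refine h r γ ?_ hγ
      rw [Module.End.hasEigenvalue_iff_isRoot_charpoly]
      exact (Polynomial.mem_roots hc0).1 hr
  rw [h1, Multiset.prod_replicate, pow_mul]

theorem burn (d w : ℕ) (hw : 0 < w) : ∃ B : ℕ, ∀ (K : Type) [Field K] [IsAlgClosed K],
    (∀ m : ℕ, 0 < m → m ≤ d → (m : K) ≠ 0) →
    ∀ (W : Type) [AddCommGroup W] [Module K W] [FiniteDimensional K W],
    Module.finrank K W ≤ d → ∀ (C : Type) [Group C] (ρ : C →* Module.End K W),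
    (∀ (c : C) (μ ν : K), (ρ c).HasEigenvalue μ → (ρ c).HasEigenvalue ν → μ ^ w = ν ^ w) →
    ∃ f : C → Fin B, ∀ c c' : C, f c = f c' → ∀ μ ν : K, (ρ (c * c'⁻¹)).HasEigenvalue μ →
      (ρ (c * c'⁻¹)).HasEigenvalue ν → μ = ν := by
  classical
  refine ⟨(w * d + 1) ^ (d * (d * d)), ?_⟩
  intro K _ _ hd W _ _ _ hW C _ ρ hρ
  have hB : 0 < (w * d + 1) ^ (d * (d * d)) := pow_pos (Nat.succ_pos _) _
  rcases subsingleton_or_nontrivial W with hsub | hnt
  · refine ⟨fun _ => ⟨0, hB⟩, fun c c' _ μ ν hμ _ => ?_⟩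
    obtain ⟨v, hv⟩ := hμ.exists_hasEigenvector
    exact absurd (Subsingleton.elim v 0) hv.2
  -- eigenvalues
  have hex : ∀ c : C, ∃ δ : K, (ρ c).HasEigenvalue δ := fun c => Module.End.exists_eigenvalue _
  choose δ hδ using hex
  have hdet : ∀ c : C, LinearMap.det (ρ c) ≠ 0 := by
    intro c h
    have h1 : LinearMap.det (ρ c) * LinearMap.det (ρ c⁻¹) = 1 := by
      rw [← map_mul, ← map_mul, mul_inv_cancel, map_one, map_one]
    rw [h, zero_mul] at h1
    exact zero_ne_one h1
  have hpow : ∀ (c : C) (γ : K), (ρ c).HasEigenvalue γ →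
      γ ^ (w * Module.finrank K W) = LinearMap.det (ρ c) ^ w := fun c γ hγ =>
    eig_det w (ρ c) (hρ c) γ hγ
  have he : 0 < Module.finrank K W := Module.finrank_pos
  have hδ0 : ∀ c, δ c ≠ 0 := by
    intro c h
    have h1 := hpow c _ (hδ c)
    rw [h, zero_pow (Nat.mul_pos hw he).ne'] at h1
    exact pow_ne_zero w (hdet c) h1.symm
  -- a basis
  obtain ⟨F, hF, hspan, hli⟩ := Submodule.exists_fun_fin_finrank_span_eq K
    (Set.range fun c : C => ρ c)
  choose cc hcc using hF
  -- the tuples
  have htup : ∀ (c : C), ∃ f : Fin (Module.finrank K W) → K, (∀ i, (ρ c).HasEigenvalue (f i)) ∧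
      ∑ i, f i = LinearMap.trace K W (ρ c) := by
    intro c
    have hs : (ρ c).charpoly.Splits := IsAlgClosed.splits _
    have hc0 : (ρ c).charpoly ≠ 0 := (LinearMap.charpoly_monic (ρ c)).ne_zero
    obtain ⟨f, hf, hf2⟩ := tup_aux (Module.finrank K W) (ρ c).charpoly.roots
      (by rw [IsAlgClosed.card_roots_eq_natDegree, LinearMap.charpoly_natDegree])
    refine ⟨f, fun i => ?_, ?_⟩
    · rw [Module.End.hasEigenvalue_iff_isRoot_charpoly]
      exact (Polynomial.mem_roots hc0).1 (hf i)
    · rw [hf2, Module.End.trace_eq_sum_roots_charpoly_of_splits hs]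
  choose t ht ht2 using htup
  have hmem : ∀ (c : C) (i : Fin (Module.finrank K (Submodule.span K (Set.range fun c : C => ρ c))))
      (k : Fin (Module.finrank K W)),
      t (c * cc i) k / (δ c * δ (cc i)) ∈
        (Polynomial.nthRoots (w * Module.finrank K W) (1 : K)).toFinset := by
    intro c i k
    rw [Multiset.mem_toFinset, Polynomial.mem_nthRoots (Nat.mul_pos hw he), div_pow, mul_pow,
      hpow _ _ (ht _ _), hpow _ _ (hδ _), hpow _ _ (hδ _), map_mul, map_mul, mul_pow, div_self]
    exact mul_ne_zero (pow_ne_zero _ (hdet _)) (pow_ne_zero _ (hdet _))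
  have hcard : Fintype.card (Fin (Module.finrank K (Submodule.span K
      (Set.range fun c : C => ρ c))) → Fin (Module.finrank K W) →
      ((Polynomial.nthRoots (w * Module.finrank K W) (1 : K)).toFinset : Finset K)) ≤
      Fintype.card (Fin ((w * d + 1) ^ (d * (d * d)))) := by
    rw [Fintype.card_fun, Fintype.card_fun, Fintype.card_fin, Fintype.card_fin, Fintype.card_fin,
      Fintype.card_coe, ← pow_mul]
    have h1 : (Polynomial.nthRoots (w * Module.finrank K W) (1 : K)).toFinset.card ≤ w * d + 1 :=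
      (Multiset.toFinset_card_le _).trans ((Polynomial.card_nthRoots _ _).trans
        ((Nat.mul_le_mul_left w hW).trans (Nat.le_succ _)))
    have h2 : Module.finrank K (Submodule.span K (Set.range fun c : C => ρ c)) ≤ d * d := by
      refine (Submodule.finrank_le _).trans ?_
      rw [Module.finrank_linearMap]
      exact Nat.mul_le_mul hW hW
    exact (Nat.pow_le_pow_left h1 _).trans (Nat.pow_le_pow_right (Nat.succ_pos _)
      (Nat.mul_le_mul hW h2))
  obtain ⟨emb⟩ := Function.Embedding.nonempty_of_card_le hcard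
  refine ⟨fun c => emb fun i k => ⟨_, hmem c i k⟩, ?_⟩
  intro c c' hcc' μ ν hμ hν
  have hfe := emb.injective hcc'
  have htr : ∀ i, LinearMap.trace K W (ρ (c * cc i)) =
      δ c / δ c' * LinearMap.trace K W (ρ (c' * cc i)) := by
    intro i
    rw [← ht2, ← ht2, Finset.mul_sum]
    refine Finset.sum_congr rfl fun k _ => ?_
    have h1 : t (c * cc i) k / (δ c * δ (cc i)) = t (c' * cc i) k / (δ c' * δ (cc i)) :=
      congrArg Subtype.val (congrFun (congrFun hfe i) k)
    have ha := hδ0 c
    have hb := hδ0 c'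
    have hc := hδ0 (cc i)
    rw [div_eq_div_iff (mul_ne_zero ha hc) (mul_ne_zero hb hc)] at h1
    rw [div_mul_eq_mul_div, eq_div_iff hb]
    apply mul_right_cancel₀ hc
    linear_combination h1
  have hspan2 : ∀ b ∈ Submodule.span K (Set.range fun c : C => ρ c),
      LinearMap.trace K W ((ρ c - (δ c / δ c') • ρ c') * b) = 0 := by
    intro b hb
    rw [← hspan] at hb
    induction hb using Submodule.span_induction with
    | mem y hy =>
      obtain ⟨i, rfl⟩ := hy
      have h1 : F i = ρ (cc i) := (hcc i).symm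
      rw [h1, sub_mul, smul_mul_assoc, ← map_mul, ← map_mul, map_sub, map_smul, htr i,
        smul_eq_mul, sub_self]
    | zero => rw [mul_zero, map_zero]
    | add y z _ _ h1 h2 => rw [mul_add, map_add, h1, h2, add_zero]
    | smul r y _ h1 => rw [mul_smul_comm, map_smul, h1, smul_zero]
  have hA : Subalgebra.toSubmodule (Algebra.adjoin K (Set.range fun c : C => ρ c)) =
      Submodule.span K (Set.range fun c : C => ρ c) := by
    rw [Algebra.adjoin_eq_span]
    congr 1
    have h1 : (Set.range fun c : C => ρ c) = (MonoidHom.mrange ρ : Set (Module.End K W)) := by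
      rw [MonoidHom.coe_mrange]
    rw [h1, Submonoid.closure_eq]
  have key : ∀ κ : K, (ρ (c * c'⁻¹)).HasEigenvalue κ → κ = δ c / δ c' := by
    intro κ hκ
    have hx : ρ (c * c'⁻¹) - algebraMap K (Module.End K W) (δ c / δ c') =
        (ρ c - (δ c / δ c') • ρ c') * ρ c'⁻¹ := by
      rw [sub_mul, smul_mul_assoc, ← map_mul, ← map_mul, mul_inv_cancel, map_one,
        Algebra.algebraMap_eq_smul_one]
    have h1 := nil_aux d hd hW (ρ (c * c'⁻¹) - algebraMap K (Module.End K W) (δ c / δ c'))
      (fun p => by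
        have h2 : (ρ (c * c'⁻¹) - algebraMap K (Module.End K W) (δ c / δ c')) *
            aeval (ρ (c * c'⁻¹) - algebraMap K (Module.End K W) (δ c / δ c')) p =
            (ρ c - (δ c / δ c') • ρ c') * (ρ c'⁻¹ *
            aeval (ρ (c * c'⁻¹) - algebraMap K (Module.End K W) (δ c / δ c')) p) := by
          rw [← mul_assoc, ← hx]
        rw [h2]
        apply hspan2
        rw [← hA, Subalgebra.mem_toSubmodule]
        refine Subalgebra.mul_mem _ (Algebra.subset_adjoin ⟨_, rfl⟩) ?_
        have h3 := Polynomial.aeval_mem_adjoin_singleton K (p := p)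
          (ρ (c * c'⁻¹) - algebraMap K (Module.End K W) (δ c / δ c'))
        refine (Algebra.adjoin_le ?_ : Algebra.adjoin K {_} ≤ _) h3
        rw [Set.singleton_subset_iff]
        exact Subalgebra.sub_mem _ (Algebra.subset_adjoin ⟨_, rfl⟩) (Subalgebra.algebraMap_mem _ _))
      (κ - δ c / δ c') ?_
    · exact sub_eq_zero.1 h1
    · obtain ⟨v, hv⟩ := hκ.exists_hasEigenvector
      refine Module.End.hasEigenvalue_of_hasEigenvector (x := v) ⟨?_, hv.2⟩
      rw [Module.End.mem_eigenspace_iff, LinearMap.sub_apply, hv.apply_eq_smul,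
        Module.algebraMap_end_apply, sub_smul]
  rw [key μ hμ, key ν hν]

end Pool.Agent.Helper37.Ff
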