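import Pool.Agent.Helper37.Ff.Ne

/-!
# Project FRF (MP_6cbef8_nt), module EvB: basic facts on the sets of eigenvalues

Roots of the characteristic polynomial and eigenvectors; extension of homomorphisms to algebraic closures.
-/

set_option autoImplicit false

open Polynomial

namespace Pool.Agent.Helper37.Ff

private theorem evb_mem {K : Type*} [Field K] {n : ℕ} (A : Matrix (Fin n) (Fin n) K) (x : K) :
    x ∈ sp A ↔ x ∈ A.charpoly.roots := by
  classical
  unfold sp
  exact Multiset.mem_toFinset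

theorem mem_sp {K : Type*} [Field K] {n : ℕ} (A : Matrix (Fin n) (Fin n) K) (x : K) :
    x ∈ sp A ↔ ∃ u : Fin n → K, u ≠ 0 ∧ A.mulVec u = x • u := by
  rw [evb_mem, mem_roots A.charpoly_monic.ne_zero, IsRoot.def, Matrix.eval_charpoly,
    ← Matrix.exists_mulVec_eq_zero_iff]
  refine exists_congr fun u => and_congr Iff.rfl ?_
  have h1 : (Matrix.scalar (Fin n) x).mulVec u = x • u := by
    funext i
    rw [Matrix.scalar_apply, Matrix.mulVec_diagonal]
    rfl
  rw [Matrix.sub_mulVec, h1, sub_eq_zero]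
  exact eq_comm

private theorem evb_pow {K : Type*} [Field K] {n : ℕ} (A : Matrix (Fin n) (Fin n) K) {x : K}
    {u : Fin n → K} (h : A.mulVec u = x • u) (e : ℕ) : (A ^ e).mulVec u = x ^ e • u := by
  induction e with
  | zero => rw [pow_zero, pow_zero, Matrix.one_mulVec, one_smul]
  | succ e ih =>
    rw [pow_succ, ← Matrix.mulVec_mulVec, h, Matrix.mulVec_smul, ih, smul_smul, pow_succ, mul_comm]

theorem sp_pow {K : Type*} [Field K] [IsAlgClosed K] {n : ℕ} (A : Matrix (Fin n) (Fin n) K)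
    (e : ℕ) (y : K) : y ∈ sp (A ^ e) ↔ ∃ x ∈ sp A, x ^ e = y := by
  constructor
  · intro h
    obtain ⟨u, hu0, hu⟩ := (mem_sp _ _).1 h
    obtain ⟨W, hW⟩ : ∃ W : Submodule K (Fin n → K), ∀ w, w ∈ W ↔ (A ^ e).mulVec w = y • w := by
      refine ⟨Module.End.eigenspace (Matrix.mulVecLin (A ^ e)) y, fun w => ?_⟩
      rw [Module.End.mem_eigenspace_iff, Matrix.mulVecLin_apply]
    have hst : ∀ w ∈ W, Matrix.mulVecLin A w ∈ W := by
      intro w hw
      rw [hW] at hw ⊢
      rw [Matrix.mulVecLin_apply, Matrix.mulVec_mulVec, ← pow_succ, pow_succ', ← Matrix.mulVec_mulVec,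
        hw, Matrix.mulVec_smul]
    have hnt : Nontrivial W := by
      refine ⟨⟨⟨u, (hW u).2 hu⟩, 0, fun h0 => hu0 (congrArg Subtype.val h0)⟩⟩
    obtain ⟨c, hc⟩ := Module.End.exists_eigenvalue ((Matrix.mulVecLin A).restrict hst)
    obtain ⟨v, hv⟩ := hc.exists_hasEigenvector
    have h1 : A.mulVec (v : Fin n → K) = c • (v : Fin n → K) := by
      have h2 := congrArg Subtype.val hv.apply_eq_smul
      exact h2
    have h0 : (v : Fin n → K) ≠ 0 := fun h0 => hv.2 (Subtype.ext h0)
    refine ⟨c, (mem_sp _ _).2 ⟨v, h0, h1⟩, ?_⟩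
    have h2 := evb_pow A h1 e
    rw [(hW _).1 v.2] at h2
    have h3 : (y - c ^ e) • (v : Fin n → K) = 0 := by rw [sub_smul, h2, sub_self]
    exact (sub_eq_zero.1 ((smul_eq_zero.1 h3).resolve_right h0)).symm
  · rintro ⟨x, hx, rfl⟩
    obtain ⟨u, hu0, hu⟩ := (mem_sp _ _).1 hx
    exact (mem_sp _ _).2 ⟨u, hu0, evb_pow A hu e⟩

private theorem evb_card {Ω K' : Type*} [Field Ω] [IsAlgClosed Ω] [Field K'] (j : Ω →+* K') {n : ℕ}
    (B : Matrix (Fin n) (Fin n) Ω) : (sp (B.map j)).card = (sp B).card := by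
  classical
  have h1 : sp (B.map j) = (sp B).image j := by
    ext x
    rw [evb_mem, Matrix.charpoly_map, (IsAlgClosed.splits B.charpoly).roots_map j,
      Multiset.mem_map, Finset.mem_image]
    exact exists_congr fun a => and_congr (evb_mem B a).symm Iff.rfl
  rw [h1, Finset.card_image_of_injective _ j.injective]

theorem ne_eq_card {K K' : Type*} [Field K] [Field K'] [IsAlgClosed K'] (ι : K →+* K') {n : ℕ}
    (A : Matrix (Fin n) (Fin n) K) : ne A = (sp (A.map ι)).card := by
  obtain ⟨j, hj⟩ : ∃ j : AlgebraicClosure K →+* K', j.comp (algebraMap K (AlgebraicClosure K)) = ι := by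
    let _ : Algebra K K' := ι.toAlgebra
    exact ⟨((IsAlgClosed.lift : AlgebraicClosure K →ₐ[K] K') : AlgebraicClosure K →+* K'),
      AlgHom.comp_algebraMap _⟩
  unfold ne
  rw [← evb_card j]
  congr 1
  congr 1
  ext a b
  show j (algebraMap K (AlgebraicClosure K) (A a b)) = ι (A a b)
  rw [← hj]
  rfl

theorem ne_map {K K' : Type*} [Field K] [Field K'] (ι : K →+* K') {n : ℕ}
    (A : Matrix (Fin n) (Fin n) K) : ne (A.map ι) = ne A := by
  rw [ne_eq_card ((algebraMap K' (AlgebraicClosure K')).comp ι) A]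
  rfl

private theorem evb_congr {K : Type*} [Field K] {n : ℕ} {A A' : Matrix (Fin n) (Fin n) K}
    (h : A.charpoly = A'.charpoly) : sp A = sp A' := by
  ext x
  rw [evb_mem, evb_mem, h]

theorem ne_congr {K : Type*} [Field K] {n : ℕ} {A A' : Matrix (Fin n) (Fin n) K}
    (h : A.charpoly = A'.charpoly) (e : ℕ) : ne (A ^ e) = ne (A' ^ e) := by
  have h1 : ∀ B : Matrix (Fin n) (Fin n) K,
      (B ^ e).map (algebraMap K (AlgebraicClosure K)) =
        (B.map (algebraMap K (AlgebraicClosure K))) ^ e := by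
    intro B
    have := map_pow (algebraMap K (AlgebraicClosure K)).mapMatrix B e
    rwa [RingHom.mapMatrix_apply, RingHom.mapMatrix_apply] at this
  have h2 : sp (A.map (algebraMap K (AlgebraicClosure K))) =
      sp (A'.map (algebraMap K (AlgebraicClosure K))) :=
    evb_congr (by rw [Matrix.charpoly_map, Matrix.charpoly_map, h])
  unfold ne
  rw [h1, h1]
  congr 1
  ext y
  rw [sp_pow, sp_pow, h2]

end Pool.Agent.Helper37.Ff
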