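import Pool.Agent.Helper37.Ff.Burn
import Pool.Agent.Helper37.Ff.EvB

/-!
# Project FRF (MP_6cbef8_nt), module CZ: many elements with one eigenvalue on each part

PLAN. Uses `burn` (module Burn) and `mem_sp`, `sp_pow` (module EvB). Let `B0` be the number of `burn n w` (`≥ 1`), `B = B0 ^ n`. For
`a ∈ sp (t ^ w)` let `W a = ker (t ^ w - a) ⊂ K ^ n` (`Module.End.eigenspace (Matrix.toLin' (t ^ w)) a`), of dimension `≤ n`; all
`c ∈ C` commute with `t`, so they act on `W a`: `ρ a : C →* End (W a)` by restriction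
(`LinearMap.restrict`; multiplicativity is clear). An eigenvalue `γ` of `ρ a c` occurs with some `α`, `α ^ w = a`, in
`Jt t c α γ`: the space of `u ∈ W a` with `c u = γ u` is not zero and stable under `t`, so it contains an eigenvector of `t`
(`K` algebraically closed: `Module.End.exists_eigenvalue`), `t u = α u`, and `α ^ w u = t ^ w u = a u`. So two eigenvalues of
`ρ a c` have the same `w`-th power by hypothesis, and `burn` gives `f a : C → Fin B0`. The map `c ↦ (f a c)_a` has at most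
`B0 ^ n` values (`card (sp (t ^ w)) ≤ n`). If `f a c = f a c'` for all `a`, then `c * c'⁻¹` is in the set `C0` on the right: for `Jt t x α γ`,
`Jt t x α' γ'`, `x = c c'⁻¹`, `α ^ w = α' ^ w = a`, the common eigenvectors are in `W a`, so `γ`, `γ'` are eigenvalues of `ρ a x`,
`γ = γ'`. Pigeonhole: some fibre `F` of `c ↦ (f a c)_a` has at least `card C / B0 ^ n` elements (`card C ≤ B0 ^ n * card F`); fix
`c' ∈ F`; `c ↦ c * c'⁻¹` is injective from `F` to `C0`.
-/

set_option autoImplicit false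

namespace Pool.Agent.Helper37.Ff

private theorem pow_mulVec' {K : Type*} [Field K] {n : ℕ} (A : Matrix (Fin n) (Fin n) K)
    (u : Fin n → K) (x : K) (h : A.mulVec u = x • u) (e : ℕ) :
    (A ^ e).mulVec u = x ^ e • u := by
  induction e with
  | zero => simp
  | succ e ih =>
    rw [pow_succ, ← Matrix.mulVec_mulVec, h, Matrix.mulVec_smul, ih, smul_smul, pow_succ, mul_comm]

private theorem exists_Jt {K : Type*} [Field K] [IsAlgClosed K] {n w : ℕ}
    (T M : Matrix (Fin n) (Fin n) K) (hTM : T * M = M * T) (μ a : K)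
    (u : Fin n → K) (hu : u ≠ 0) (hM : M.mulVec u = μ • u) (hT : (T ^ w).mulVec u = a • u) :
    ∃ α, Jt T M α μ ∧ α ^ w = a := by
  let f : Module.End K (Fin n → K) := Matrix.toLin' T
  let U : Submodule K (Fin n → K) :=
    (Module.End.eigenspace (Matrix.toLin' M) μ) ⊓ (Module.End.eigenspace (Matrix.toLin' (T ^ w)) a)
  have hmem : ∀ v : Fin n → K, v ∈ U ↔ (M.mulVec v = μ • v ∧ (T ^ w).mulVec v = a • v) := by
    intro v
    rw [Submodule.mem_inf, Module.End.mem_eigenspace_iff, Module.End.mem_eigenspace_iff]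
    rfl
  have hTT : T ^ w * T = T * T ^ w := (Commute.refl T).pow_left w
  have hU : ∀ v ∈ U, f v ∈ U := by
    intro v hv
    rw [hmem] at hv ⊢
    change M.mulVec (T.mulVec v) = μ • T.mulVec v ∧ (T ^ w).mulVec (T.mulVec v) = a • T.mulVec v
    constructor
    · rw [Matrix.mulVec_mulVec, ← hTM, ← Matrix.mulVec_mulVec, hv.1, Matrix.mulVec_smul]
    · rw [Matrix.mulVec_mulVec, hTT, ← Matrix.mulVec_mulVec, hv.2, Matrix.mulVec_smul]
  have huU : u ∈ U := (hmem u).2 ⟨hM, hT⟩
  have : Nontrivial U := ⟨⟨⟨u, huU⟩, 0, fun h => hu (congrArg Subtype.val h)⟩⟩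
  obtain ⟨α, hα⟩ := Module.End.exists_eigenvalue (f.restrict hU)
  obtain ⟨v, hv⟩ := hα.exists_hasEigenvector
  have hv2 : T.mulVec v.1 = α • v.1 := by
    have := congrArg Subtype.val hv.apply_eq_smul
    simpa [f] using this
  have hv0 : v.1 ≠ 0 := fun h => hv.2 (Subtype.ext h)
  have hv3 := (hmem v.1).1 v.2
  refine ⟨α, ⟨v.1, hv0, hv2, hv3.1⟩, ?_⟩
  have h1 := pow_mulVec' T v.1 α hv2 w
  rw [hv3.2] at h1
  by_contra hne
  have : (a - α ^ w) • v.1 = 0 := by rw [sub_smul, h1, sub_self]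
  rcases smul_eq_zero.1 this with h2 | h2
  · exact hne (sub_eq_zero.1 h2).symm
  · exact hv0 h2

private noncomputable def rho {K : Type} [Field K] {n : ℕ} (T : Matrix (Fin n) (Fin n) K) (w : ℕ)
    (a : K) (C : Subgroup (GL (Fin n) K))
    (hC : ∀ c ∈ C, T * (c : Matrix (Fin n) (Fin n) K) = (c : Matrix (Fin n) (Fin n) K) * T) :
    C →* Module.End K (Module.End.eigenspace (Matrix.toLin' (T ^ w)) a) where
  toFun c := (Matrix.toLin' ((c : GL (Fin n) K) : Matrix (Fin n) (Fin n) K)).restrict (by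
    intro v hv
    rw [Module.End.mem_eigenspace_iff] at hv ⊢
    have h1 : T ^ w * ((c : GL (Fin n) K) : Matrix (Fin n) (Fin n) K) =
        ((c : GL (Fin n) K) : Matrix (Fin n) (Fin n) K) * T ^ w :=
      Commute.pow_left (show Commute T _ from hC c.1 c.2) w
    change (T ^ w).mulVec (((c : GL (Fin n) K) : Matrix (Fin n) (Fin n) K).mulVec v) =
      a • ((c : GL (Fin n) K) : Matrix (Fin n) (Fin n) K).mulVec v
    have hv' : (T ^ w).mulVec v = a • v := hv
    rw [Matrix.mulVec_mulVec, h1, ← Matrix.mulVec_mulVec, hv', Matrix.mulVec_smul])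
  map_one' := by
    ext v : 2
    simp
  map_mul' c c' := by
    ext v : 2
    simp

private theorem rho_eig {K : Type} [Field K] {n : ℕ} (T : Matrix (Fin n) (Fin n) K) (w : ℕ)
    (a : K) (C : Subgroup (GL (Fin n) K))
    (hC : ∀ c ∈ C, T * (c : Matrix (Fin n) (Fin n) K) = (c : Matrix (Fin n) (Fin n) K) * T)
    (c : C) (μ : K) : (rho T w a C hC c).HasEigenvalue μ ↔
      ∃ u : Fin n → K, u ≠ 0 ∧ ((c : GL (Fin n) K) : Matrix (Fin n) (Fin n) K).mulVec u = μ • u ∧
        (T ^ w).mulVec u = a • u := by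
  constructor
  · intro h
    obtain ⟨v, hv⟩ := h.exists_hasEigenvector
    refine ⟨v.1, fun h => hv.2 (Subtype.ext h), ?_, ?_⟩
    · have := congrArg Subtype.val hv.apply_eq_smul
      simpa [rho] using this
    · exact Module.End.mem_eigenspace_iff.1 v.2
  · rintro ⟨u, hu, h1, h2⟩
    have huU : u ∈ Module.End.eigenspace (Matrix.toLin' (T ^ w)) a :=
      Module.End.mem_eigenspace_iff.2 h2
    refine Module.End.hasEigenvalue_of_hasEigenvector (x := ⟨u, huU⟩) ?_
    refine ⟨?_, fun h => hu (congrArg Subtype.val h)⟩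
    rw [Module.End.mem_eigenspace_iff]
    apply Subtype.ext
    simpa [rho] using h1

private theorem card_le_of_fib {C F D : Type*} [Finite C] [Finite F] [Finite D] (f : C → F) (N : ℕ)
    (hF : Nat.card F ≤ N)
    (h : ∀ c' : C, ∃ g : {c // f c = f c'} → D, Function.Injective g) :
    Nat.card C ≤ N * Nat.card D := by
  classical
  have := Fintype.ofFinite C
  have := Fintype.ofFinite F
  rw [← Nat.card_congr (Equiv.sigmaFiberEquiv f), Nat.card_sigma]
  calc ∑ y : F, Nat.card {x // f x = y} ≤ ∑ y : F, Nat.card D := by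
        refine Finset.sum_le_sum fun y _ => ?_
        by_cases hy : ∃ c', f c' = y
        · obtain ⟨c', rfl⟩ := hy
          obtain ⟨g, hg⟩ := h c'
          exact Nat.card_le_card_of_injective g hg
        · have : IsEmpty {x // f x = y} := ⟨fun x => hy ⟨x.1, x.2⟩⟩
          simp
    _ = Nat.card F * Nat.card D := by simp [Nat.card_eq_fintype_card]
    _ ≤ N * Nat.card D := Nat.mul_le_mul_right _ hF

private theorem card_sp_le {K : Type*} [Field K] {n : ℕ} (A : Matrix (Fin n) (Fin n) K) :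
    (sp A).card ≤ n := by
  classical
  rw [sp]
  calc _ ≤ A.charpoly.roots.card := by
        have := Multiset.toFinset_card_le A.charpoly.roots
        convert this
    _ ≤ A.charpoly.natDegree := Polynomial.card_roots' _
    _ = n := by rw [Matrix.charpoly_natDegree_eq_dim, Fintype.card_fin]

theorem card_czero (n w : ℕ) (hw : 0 < w) : ∃ B : ℕ, ∀ (K : Type) [Field K] [IsAlgClosed K],
    (∀ m : ℕ, 0 < m → m ≤ n → (m : K) ≠ 0) →
    ∀ (t : GL (Fin n) K) (C : Subgroup (GL (Fin n) K)) [Finite C], (∀ c ∈ C, t * c = c * t) →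
    (∀ c ∈ C, ∀ α γ α' γ' : K, Jt (t : Matrix (Fin n) (Fin n) K) (c : Matrix (Fin n) (Fin n) K) α γ →
      Jt (t : Matrix (Fin n) (Fin n) K) (c : Matrix (Fin n) (Fin n) K) α' γ' →
      α ^ w = α' ^ w → γ ^ w = γ' ^ w) →
    Nat.card C ≤ B * Nat.card {c : GL (Fin n) K // c ∈ C ∧ ∀ α γ α' γ' : K,
      Jt (t : Matrix (Fin n) (Fin n) K) (c : Matrix (Fin n) (Fin n) K) α γ →
      Jt (t : Matrix (Fin n) (Fin n) K) (c : Matrix (Fin n) (Fin n) K) α' γ' →
      α ^ w = α' ^ w → γ = γ'} := by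
  obtain ⟨B0, hB0⟩ := burn n w hw
  refine ⟨(B0 + 1) ^ n, ?_⟩
  intro K _ _ hK t C _ hcomm hpow
  classical
  set T : Matrix (Fin n) (Fin n) K := (t : Matrix (Fin n) (Fin n) K) with hT
  have hC : ∀ c ∈ C, T * (c : Matrix (Fin n) (Fin n) K) = (c : Matrix (Fin n) (Fin n) K) * T := by
    intro c hc
    have := congrArg (fun x : GL (Fin n) K => (x : Matrix (Fin n) (Fin n) K)) (hcomm c hc)
    simpa using this
  have hrk : ∀ a : K, Module.finrank K (Module.End.eigenspace (Matrix.toLin' (T ^ w)) a) ≤ n := by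
    intro a
    refine (Submodule.finrank_le _).trans ?_
    simp
  have hf : ∀ a : K, ∃ f : C → Fin B0, ∀ c c' : C, f c = f c' → ∀ μ ν : K,
      (rho T w a C hC (c * c'⁻¹)).HasEigenvalue μ →
      (rho T w a C hC (c * c'⁻¹)).HasEigenvalue ν → μ = ν := by
    intro a
    refine hB0 K hK _ (hrk a) C (rho T w a C hC) ?_
    intro c μ ν hμ hν
    obtain ⟨u, hu, h1, h2⟩ := (rho_eig T w a C hC c μ).1 hμ
    obtain ⟨v, hv, h3, h4⟩ := (rho_eig T w a C hC c ν).1 hν
    obtain ⟨α, hJ, hα⟩ := exists_Jt T _ (hC c.1 c.2) μ a u hu h1 h2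
    obtain ⟨β, hJ', hβ⟩ := exists_Jt T _ (hC c.1 c.2) ν a v hv h3 h4
    exact hpow c.1 c.2 α μ β ν hJ hJ' (hα.trans hβ.symm)
  choose f hf using hf
  let D := {c : GL (Fin n) K // c ∈ C ∧ ∀ α γ α' γ' : K,
      Jt (t : Matrix (Fin n) (Fin n) K) (c : Matrix (Fin n) (Fin n) K) α γ →
      Jt (t : Matrix (Fin n) (Fin n) K) (c : Matrix (Fin n) (Fin n) K) α' γ' →
      α ^ w = α' ^ w → γ = γ'}
  have hD : Finite D := Finite.of_injective (fun x : D => (⟨x.1, x.2.1⟩ : C)) (by
    intro x y hxy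
    exact Subtype.ext (congrArg (fun z : C => (z : GL (Fin n) K)) hxy))
  let Fm : C → ({a // a ∈ sp (T ^ w)} → Fin B0) := fun c a => f a.1 c
  refine card_le_of_fib Fm ((B0 + 1) ^ n) ?_ ?_
  · rw [Nat.card_eq_fintype_card, Fintype.card_fun, Fintype.card_fin, Fintype.card_coe]
    calc B0 ^ (sp (T ^ w)).card ≤ (B0 + 1) ^ (sp (T ^ w)).card :=
          Nat.pow_le_pow_left (Nat.le_succ _) _
      _ ≤ (B0 + 1) ^ n := Nat.pow_le_pow_right (Nat.succ_pos _) (card_sp_le _)
  · intro c'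
    refine ⟨fun c => ⟨((c.1 * c'⁻¹ : C) : GL (Fin n) K), (c.1 * c'⁻¹).2, ?_⟩, ?_⟩
    · intro α γ α' γ' hJ hJ' haa
      obtain ⟨u, hu, h1, h2⟩ := hJ
      obtain ⟨v, hv, h3, h4⟩ := hJ'
      have h5 : (T ^ w).mulVec u = α ^ w • u := pow_mulVec' T u α h1 w
      have h6 : (T ^ w).mulVec v = α ^ w • v := by
        rw [haa]
        exact pow_mulVec' T v α' h3 w
      have ha : α ^ w ∈ sp (T ^ w) := (mem_sp _ _).2 ⟨u, hu, h5⟩
      have h7 : f (α ^ w) c.1 = f (α ^ w) c' := congrFun c.2 ⟨α ^ w, ha⟩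
      exact hf (α ^ w) c.1 c' h7 γ γ'
        ((rho_eig T w (α ^ w) C hC (c.1 * c'⁻¹) γ).2 ⟨u, hu, h2, h5⟩)
        ((rho_eig T w (α ^ w) C hC (c.1 * c'⁻¹) γ').2 ⟨v, hv, h4, h6⟩)
    · intro x y hxy
      have h1 := congrArg (fun z : D => z.1) hxy
      have h2 : x.1 * c'⁻¹ = y.1 * c'⁻¹ := Subtype.ext h1
      exact Subtype.ext (mul_right_cancel h2)

end Pool.Agent.Helper37.Ff
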