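import Pool.Agent.Helper37.Ff.EvB

/-!
# Project FRF (MP_6cbef8_nt), module Cmt: a conjugation between good elements commutes with t

PLAN. `K` algebraically closed, `t` diagonalisable, so `K ^ n` is the sum of the spaces `W α = ker (t - α)`, `α ∈ sp t` (columns of the matrix
`P` in `Dg`). `c`, `c'` commute with `t` and so preserve each `W α`; on `W α` the only eigenvalue of `c` is `γ α`
(`Jt t c α (γ α)`; uniqueness `hu`), and the same for `c'`, with the same number (`hβ`). `β α = α γ α` is the only eigenvalue of `t c` and of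
`t c'` on `W α`, and the `β α` are different for different `α` (`hd'` for `c'`). So `(t c - β α) ^ n` is zero on `W α` (a linear map on a space
of dimension `≤ n` over an algebraically closed field with only the eigenvalue `0` is nilpotent:
`LinearMap.isNilpotent_iff_charpoly`, or `Module.End.maxGenEigenspace`/`iSup_maxGenEigenspace_eq_top` for the restriction), and
`t c' - β α` is invertible on `W α'` for `α' ≠ α`.
Let `u ∈ W α`. `0 = δ (t c - β α) ^ n u = (t c' - β α) ^ n (δ u)`. Write `δ u = ∑ u α'`, `u α' ∈ W α'`. The sum of the `W α'` is direct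
(eigenspaces) and `(t c' - β α) ^ n` preserves each of them, so `(t c' - β α) ^ n (u α') = 0`, so `u α' = 0` for `α' ≠ α`: `δ u ∈ W α`,
`t δ u = α δ u = δ t u`. As the `W α` span, `t δ = δ t`.
-/

set_option autoImplicit false

namespace Pool.Agent.Helper37.Ff

private theorem exists_eigen {K V : Type*} [Field K] [AddCommGroup V] [Module K V]
    (f : Module.End K V) (p : Submodule K V) (hp : ∀ x ∈ p, f x ∈ p) (μ : K)
    (h : p ⊓ f.maxGenEigenspace μ ≠ ⊥) : ∃ v ∈ p, v ≠ 0 ∧ f v = μ • v := by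
  obtain ⟨x, hx, hx0⟩ := Submodule.exists_mem_ne_zero_of_ne_bot h
  obtain ⟨hxp, hxg⟩ := Submodule.mem_inf.1 hx
  rw [Module.End.mem_maxGenEigenspace] at hxg
  classical
  have hfp : ∀ k : ℕ, ((f - μ • (1 : Module.End K V)) ^ k) x ∈ p := by
    intro k
    induction k with
    | zero => simpa using hxp
    | succ k ih =>
      rw [pow_succ', Module.End.mul_apply, LinearMap.sub_apply, LinearMap.smul_apply,
        Module.End.one_apply]
      exact p.sub_mem (hp _ ih) (p.smul_mem _ ih)
  have hk := Nat.find_spec hxg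
  have hmin := fun k hk => Nat.find_min hxg (m := k) hk
  set k := Nat.find hxg with hkdef
  have hk0 : k ≠ 0 := by
    intro h0
    rw [h0] at hk
    exact hx0 (by simpa using hk)
  obtain ⟨k', hk'⟩ := Nat.exists_eq_succ_of_ne_zero hk0
  refine ⟨((f - μ • (1 : Module.End K V)) ^ k') x, hfp k', hmin k' (by omega), ?_⟩
  rw [hk', Nat.succ_eq_add_one, pow_succ', Module.End.mul_apply, LinearMap.sub_apply,
    LinearMap.smul_apply, Module.End.one_apply] at hk
  exact sub_eq_zero.1 hk

private theorem iSup_eigen {K : Type*} [Field K] {n : ℕ} (t : Matrix (Fin n) (Fin n) K)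
    (ht : Dg t) : ⨆ α, Module.End.eigenspace (Matrix.toLin' t) α = ⊤ := by
  obtain ⟨P, a, hP⟩ := ht
  rw [eq_top_iff]
  intro x _
  have h1 : x = (P : Matrix (Fin n) (Fin n) K).mulVec
      (((P⁻¹ : GL (Fin n) K) : Matrix (Fin n) (Fin n) K).mulVec x) := by
    rw [Matrix.mulVec_mulVec, ← Units.val_mul, mul_inv_cancel, Units.val_one, Matrix.one_mulVec]
  set y := ((P⁻¹ : GL (Fin n) K) : Matrix (Fin n) (Fin n) K).mulVec x with hy
  have h2 : x = ∑ i, y i • (P : Matrix (Fin n) (Fin n) K).mulVec (Pi.single i 1) := by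
    rw [h1]
    conv_lhs => rw [← Finset.univ_sum_single y]
    rw [Matrix.mulVec_sum]
    refine Finset.sum_congr rfl fun i _ => ?_
    rw [← Matrix.mulVec_smul]
    congr 1
    ext j
    simp [Pi.single_apply]
  rw [h2]
  refine Submodule.sum_mem _ fun i _ => Submodule.smul_mem _ _ ?_
  refine Submodule.mem_iSup_of_mem (a i) ?_
  rw [Module.End.mem_eigenspace_iff, Matrix.toLin'_apply, Matrix.mulVec_mulVec]
  have h3 : t * (P : Matrix (Fin n) (Fin n) K) =
      (P : Matrix (Fin n) (Fin n) K) * Matrix.diagonal a := by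
    rw [hP, mul_assoc, ← Units.val_mul, inv_mul_cancel, Units.val_one, mul_one]
  rw [h3, ← Matrix.mulVec_mulVec]
  have h4 : (Matrix.diagonal a).mulVec (Pi.single i 1) = a i • (Pi.single i (1 : K)) := by
    ext j
    rw [Matrix.mulVec_diagonal]
    by_cases hij : j = i
    · subst hij; simp
    · simp [Pi.single_apply, hij]
  rw [h4, Matrix.mulVec_smul]

/-- the subspace `ker (t - α)` lies in the generalised eigenspace of `t c` for `α γ` -/
private theorem le_gen {K V : Type*} [Field K] [IsAlgClosed K] [AddCommGroup V] [Module K V]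
    [FiniteDimensional K V] (T C : Module.End K V) (hTC : T * C = C * T) (α : K) (hα : α ≠ 0)
    (γ : K) (hu : ∀ γ', (∃ u, u ≠ 0 ∧ T u = α • u ∧ C u = γ' • u) → γ' = γ) :
    T.eigenspace α ≤ (T * C).maxGenEigenspace (α * γ) := by
  have hst : ∀ x ∈ T.eigenspace α, (T * C) x ∈ T.eigenspace α := by
    intro x hx
    rw [Module.End.mem_eigenspace_iff] at hx ⊢
    have : T (C x) = C (T x) := by
      rw [← Module.End.mul_apply, hTC, Module.End.mul_apply]
    rw [Module.End.mul_apply, this, hx, map_smul, map_smul, this, hx, map_smul]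
  have h1 : ⨆ μ, (T * C).maxGenEigenspace μ = ⊤ := Module.End.iSup_maxGenEigenspace_eq_top _
  have h2 : T.eigenspace α = ⨆ μ, T.eigenspace α ⊓ (T * C).maxGenEigenspace μ := by
    have := Submodule.inf_iSup_genEigenspace (p := T.eigenspace α) (f := T * C) hst (k := ⊤)
    have h3 : (⨆ μ, (T * C).genEigenspace μ ⊤) = ⊤ := h1
    rw [h3, inf_top_eq] at this
    exact this
  rw [h2]
  refine iSup_le fun μ => ?_
  by_cases h3 : T.eigenspace α ⊓ (T * C).maxGenEigenspace μ = ⊥
  · rw [h3]; exact bot_le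
  obtain ⟨v, hv, hv0, hvμ⟩ := exists_eigen (T * C) (T.eigenspace α) hst μ h3
  have h4 : μ = α * γ := by
    rw [Module.End.mem_eigenspace_iff] at hv
    have h5 : C v = (μ / α) • v := by
      have h6 : α • C v = μ • v := by
        rw [← hvμ, Module.End.mul_apply, ← Module.End.mul_apply, hTC, Module.End.mul_apply, hv,
          map_smul]
      rw [div_eq_inv_mul, mul_smul, ← h6, smul_smul, inv_mul_cancel₀ hα, one_smul]
    have := hu (μ / α) ⟨v, hv0, hv, h5⟩
    rw [← this, mul_div_cancel₀ _ hα]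
  rw [h4]
  exact inf_le_right

private theorem exists_joint {K V : Type*} [Field K] [IsAlgClosed K] [AddCommGroup V] [Module K V]
    [FiniteDimensional K V] (T C : Module.End K V) (hTC : T * C = C * T) (α : K)
    (h : T.eigenspace α ≠ ⊥) : ∃ (γ : K) (u : V), u ≠ 0 ∧ T u = α • u ∧ C u = γ • u := by
  have hst : ∀ x ∈ T.eigenspace α, C x ∈ T.eigenspace α := by
    intro x hx
    rw [Module.End.mem_eigenspace_iff] at hx ⊢
    rw [← Module.End.mul_apply, hTC, Module.End.mul_apply, hx, map_smul]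
  haveI : Nontrivial (T.eigenspace α) := Submodule.nontrivial_iff_ne_bot.2 h
  obtain ⟨γ, hγ⟩ := Module.End.exists_eigenvalue (C.restrict hst)
  obtain ⟨u, hu⟩ := hγ.exists_hasEigenvector
  refine ⟨γ, u, ?_, ?_, ?_⟩
  · intro h0
    exact hu.2 (Subtype.ext h0)
  · exact Module.End.mem_eigenspace_iff.1 u.2
  · have := hu.apply_eq_smul
    have h2 := congrArg Subtype.val this
    simpa using h2

/-- the generalised eigenspace of `t c` for `α γ` lies in `ker (t - α)` -/
private theorem gen_le {K V : Type*} [Field K] [IsAlgClosed K] [AddCommGroup V] [Module K V]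
    [FiniteDimensional K V] (T C : Module.End K V) (hTC : T * C = C * T)
    (htop : ⨆ α, T.eigenspace α = ⊤) (h0 : ∀ α, T.eigenspace α ≠ ⊥ → α ≠ 0) (α β : K)
    (hd : ∀ α' γ', (∃ u, u ≠ 0 ∧ T u = α' • u ∧ C u = γ' • u) → α' * γ' = β → α' = α) :
    (T * C).maxGenEigenspace β ≤ T.eigenspace α := by
  have hcomm : Commute (T * C) T := by
    show T * C * T = T * (T * C)
    rw [hTC, ← mul_assoc, hTC]
  have hst : ∀ x ∈ (T * C).maxGenEigenspace β, T x ∈ (T * C).maxGenEigenspace β := by
    intro x hx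
    exact Module.End.mapsTo_maxGenEigenspace_of_comm hcomm β hx
  have h2 : (T * C).maxGenEigenspace β =
      ⨆ α', (T * C).maxGenEigenspace β ⊓ T.eigenspace α' := by
    have := Submodule.inf_iSup_genEigenspace (p := (T * C).maxGenEigenspace β) (f := T) hst
      (k := 1)
    have h3 : (⨆ μ, T.genEigenspace μ 1) = ⊤ := htop
    rw [h3, inf_top_eq] at this
    exact this
  rw [h2]
  refine iSup_le fun α' => ?_
  by_cases h3 : (T * C).maxGenEigenspace β ⊓ T.eigenspace α' = ⊥
  · rw [h3]; exact bot_le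
  have hst' : ∀ x ∈ T.eigenspace α', (T * C) x ∈ T.eigenspace α' := by
    intro x hx
    rw [Module.End.mem_eigenspace_iff] at hx ⊢
    have : T (C x) = C (T x) := by
      rw [← Module.End.mul_apply, hTC, Module.End.mul_apply]
    rw [Module.End.mul_apply, this, hx, map_smul, map_smul, this, hx, map_smul]
  rw [inf_comm] at h3
  obtain ⟨v, hv, hv0, hvμ⟩ := exists_eigen (T * C) (T.eigenspace α') hst' β h3
  have hα' : α' ≠ 0 := h0 α' (by
    intro hb
    rw [hb] at hv
    exact hv0 ((Submodule.mem_bot K).1 hv))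
  rw [Module.End.mem_eigenspace_iff] at hv
  have h5 : C v = (β / α') • v := by
    have h6 : α' • C v = β • v := by
      rw [← hvμ, Module.End.mul_apply, ← Module.End.mul_apply, hTC, Module.End.mul_apply, hv,
        map_smul]
    rw [div_eq_inv_mul, mul_smul, ← h6, smul_smul, inv_mul_cancel₀ hα', one_smul]
  have h7 := hd α' (β / α') ⟨v, hv0, hv, h5⟩ (mul_div_cancel₀ _ hα')
  rw [h7]
  exact inf_le_right

private theorem map_gen {K V : Type*} [Field K] [AddCommGroup V] [Module K V]
    (S S' D : Module.End K V) (h : D * S = S' * D) (β : K) (x : V)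
    (hx : x ∈ S.maxGenEigenspace β) : D x ∈ S'.maxGenEigenspace β := by
  rw [Module.End.mem_maxGenEigenspace] at hx ⊢
  obtain ⟨k, hk⟩ := hx
  refine ⟨k, ?_⟩
  have h1 : ∀ k : ℕ, D * (S - β • (1 : Module.End K V)) ^ k =
      (S' - β • (1 : Module.End K V)) ^ k * D := by
    intro k
    induction k with
    | zero => simp
    | succ k ih =>
      rw [pow_succ, ← mul_assoc, ih, mul_assoc, pow_succ, mul_assoc]
      congr 1
      rw [mul_sub, sub_mul, h]
      simp
  rw [← Module.End.mul_apply, ← h1, Module.End.mul_apply, hk, map_zero]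

theorem comm_of_conj {K : Type*} [Field K] [IsAlgClosed K] {n : ℕ} (t c c' δ : GL (Fin n) K)
    (ht : Dg (t : Matrix (Fin n) (Fin n) K)) (hc : t * c = c * t) (hc' : t * c' = c' * t)
    (hu : ∀ α γ γ' : K, Jt (t : Matrix (Fin n) (Fin n) K) (c : Matrix (Fin n) (Fin n) K) α γ →
      Jt (t : Matrix (Fin n) (Fin n) K) (c : Matrix (Fin n) (Fin n) K) α γ' → γ = γ')
    (hu' : ∀ α γ γ' : K, Jt (t : Matrix (Fin n) (Fin n) K) (c' : Matrix (Fin n) (Fin n) K) α γ →
      Jt (t : Matrix (Fin n) (Fin n) K) (c' : Matrix (Fin n) (Fin n) K) α γ' → γ = γ')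
    (hd' : ∀ α γ α' γ' : K,
      Jt (t : Matrix (Fin n) (Fin n) K) (c' : Matrix (Fin n) (Fin n) K) α γ →
      Jt (t : Matrix (Fin n) (Fin n) K) (c' : Matrix (Fin n) (Fin n) K) α' γ' →
      α * γ = α' * γ' → α = α')
    (hβ : ∀ α γ γ' : K, Jt (t : Matrix (Fin n) (Fin n) K) (c : Matrix (Fin n) (Fin n) K) α γ →
      Jt (t : Matrix (Fin n) (Fin n) K) (c' : Matrix (Fin n) (Fin n) K) α γ' → γ = γ')
    (h : δ * (t * c) * δ⁻¹ = t * c') : δ * t = t * δ := by
  set T : Module.End K (Fin n → K) := Matrix.toLin' (t : Matrix (Fin n) (Fin n) K) with hT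
  set C : Module.End K (Fin n → K) := Matrix.toLin' (c : Matrix (Fin n) (Fin n) K) with hC
  set C' : Module.End K (Fin n → K) := Matrix.toLin' (c' : Matrix (Fin n) (Fin n) K) with hC'
  set D : Module.End K (Fin n → K) := Matrix.toLin' (δ : Matrix (Fin n) (Fin n) K) with hD
  have hTC : T * C = C * T := by
    have := congrArg (fun g : GL (Fin n) K => Matrix.toLin' (g : Matrix (Fin n) (Fin n) K)) hc
    simp only [Units.val_mul, Matrix.toLin'_mul] at this
    exact this
  have hTC' : T * C' = C' * T := by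
    have := congrArg (fun g : GL (Fin n) K => Matrix.toLin' (g : Matrix (Fin n) (Fin n) K)) hc'
    simp only [Units.val_mul, Matrix.toLin'_mul] at this
    exact this
  have hDS : D * (T * C) = (T * C') * D := by
    have h1 : δ * (t * c) = t * c' * δ := by rw [← h]; group
    have := congrArg (fun g : GL (Fin n) K => Matrix.toLin' (g : Matrix (Fin n) (Fin n) K)) h1
    simp only [Units.val_mul, Matrix.toLin'_mul] at this
    exact this
  have htop : ⨆ α, T.eigenspace α = ⊤ := iSup_eigen _ ht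
  have hne : ∀ α, T.eigenspace α ≠ ⊥ → α ≠ 0 := by
    intro α hα h0
    obtain ⟨v, hv, hv0⟩ := Submodule.exists_mem_ne_zero_of_ne_bot hα
    rw [Module.End.mem_eigenspace_iff, h0, zero_smul, hT, Matrix.toLin'_apply] at hv
    apply hv0
    have h1 : v = ((t⁻¹ : GL (Fin n) K) : Matrix (Fin n) (Fin n) K).mulVec
        ((t : Matrix (Fin n) (Fin n) K).mulVec v) := by
      rw [Matrix.mulVec_mulVec, ← Units.val_mul, inv_mul_cancel, Units.val_one,
        Matrix.one_mulVec]
    rw [h1, hv, Matrix.mulVec_zero]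
  have hJ : ∀ α γ, (∃ u, u ≠ 0 ∧ T u = α • u ∧ C u = γ • u) ↔
      Jt (t : Matrix (Fin n) (Fin n) K) (c : Matrix (Fin n) (Fin n) K) α γ := by
    intro α γ
    unfold Jt
    simp only [hT, hC, Matrix.toLin'_apply]
  have hJ' : ∀ α γ, (∃ u, u ≠ 0 ∧ T u = α • u ∧ C' u = γ • u) ↔
      Jt (t : Matrix (Fin n) (Fin n) K) (c' : Matrix (Fin n) (Fin n) K) α γ := by
    intro α γ
    unfold Jt
    simp only [hT, hC', Matrix.toLin'_apply]
  have key : ∀ α, ∀ x ∈ T.eigenspace α, D (T x) = T (D x) := by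
    intro α x hx
    by_cases hbot : T.eigenspace α = ⊥
    · rw [hbot, Submodule.mem_bot] at hx
      rw [hx]; simp
    obtain ⟨γ, hγ⟩ := exists_joint T C hTC α hbot
    obtain ⟨γ', hγ'⟩ := exists_joint T C' hTC' α hbot
    have hγγ : γ = γ' := hβ α γ γ' ((hJ α γ).1 hγ) ((hJ' α γ').1 hγ')
    subst hγγ
    have h1 : x ∈ (T * C).maxGenEigenspace (α * γ) :=
      le_gen T C hTC α (hne α hbot) γ (fun γ'' h'' => hu α γ'' γ ((hJ α γ'').1 h'')
        ((hJ α γ).1 hγ)) hx
    have h2 := map_gen (T * C) (T * C') D hDS (α * γ) x h1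
    have h3 : D x ∈ T.eigenspace α :=
      gen_le T C' hTC' htop hne α (α * γ) (fun α' γ'' h'' he => hd' α' γ'' α γ
        ((hJ' α' γ'').1 h'') ((hJ' α γ).1 hγ') he) h2
    rw [Module.End.mem_eigenspace_iff] at hx h3
    rw [hx, h3, map_smul]
  have hfin : D * T = T * D := by
    have h1 : (⊤ : Submodule K (Fin n → K)) ≤ LinearMap.eqLocus (D * T) (T * D) := by
      rw [← htop]
      exact iSup_le fun α x hx => key α x hx
    ext1
    ext1
    exact h1 Submodule.mem_top
  have h2 : Matrix.toLin' (((δ * t : GL (Fin n) K)) : Matrix (Fin n) (Fin n) K) =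
      Matrix.toLin' (((t * δ : GL (Fin n) K)) : Matrix (Fin n) (Fin n) K) := by
    simp only [Units.val_mul, Matrix.toLin'_mul]
    exact hfin
  exact Units.ext (Matrix.toLin'.injective h2)

end Pool.Agent.Helper37.Ff
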