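import Pool.Agent.Helper37.Ub.Defs

/-!
# Definitions: Frobenius fields (MP_6cbef8_nt)
-/

set_option autoImplicit false

open NumberField Polynomial MeasureTheory Pool.Agent.Helper37.Af Pool.Agent.Helper37.Fd
  Pool.Agent.Helper37.Ad Pool.Agent.Helper37.Ub

namespace Pool.Agent.Helper37.Ff

/-- The splitting field of `f` over `L` is contained in the splitting field of `g` over `L`: the
polynomial `f` splits into linear factors over the splitting field of `g`. -/
def FieldIn {M : Type*} [Field M] (L : Type*) [Field L] [Algebra M L] (f g : (𝓞 M)[X]) : Prop :=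
  let h : L[X] := g.map ((algebraMap M L).comp (algebraMap (𝓞 M) M))
  (f.map ((algebraMap L h.SplittingField).comp
    ((algebraMap M L).comp (algebraMap (𝓞 M) M)))).Splits

/-- Every nonzero polynomial over `M` splits into linear factors over infinitely many of the fields
`E v` (this holds if `E v` is the completion of `M` at `v` and `v` runs through all, or almost all,
finite places of `M`). -/
def Abundant {M : Type*} [Field M] {Λ : Type*} {E : Λ → Type*} [∀ v, Field (E v)]
    (j : ∀ v, M →+* E v) : Prop :=
  ∀ h : M[X], h ≠ 0 → {v | (h.map (j v)).Splits}.Infinite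

section

variable {M : Type*} [Field M] [NumberField M] {Λ : Type*} (ℓ : Λ → ℕ) [∀ v, Fact (ℓ v).Prime]
  {E : Λ → Type*} [∀ v, NontriviallyNormedField (E v)] [∀ v, NormedAlgebra ℚ_[ℓ v] (E v)]
  (j : ∀ v, M →+* E v)
  {G : Type*} [Group G] [TopologicalSpace G] (V : ∀ v, G →* GL (Fin 2) (E v)) {d : ℕ}
  (T : ∀ (l : ℕ) [Fact l.Prime], G →* GL (Fin d) ℚ_[l])

/-- There is a set `C`, not of measure zero, all of whose elements are limits of elements `r` at
which the characteristic polynomials of `V v`, `T (ℓ v)` are the images of `f r`, `g r` for `v` in any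
given finite set, and such that the splitting field of `f r` over `L` is contained in that of
`g r`. -/
def OftenIn [MeasurableSpace G] (μ : Measure G) (L : Type*) [Field L] [Algebra M L]
    (f g : G → (𝓞 M)[X]) : Prop :=
  ∃ C : Set G, μ C ≠ 0 ∧ ∀ Φ : Finset Λ,
    C ⊆ closure {r | (∀ v ∈ Φ, Matches ℓ E j V T f g v r) ∧ FieldIn L (f r) (g r)}

/-- For `v` in any finite set the characteristic polynomials of `V v`, `T (ℓ v)` are the images of
those of `f`, `g` at a dense set of elements `r`, at which this holds for all but finitely many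
`v`. -/
def AlmostMatching (f g : G → (𝓞 M)[X]) : Prop :=
  ∀ Φ : Finset Λ, Dense {r | (∀ v ∈ Φ, Matches ℓ E j V T f g v r) ∧
    {v | ¬ Matches ℓ E j V T f g v r}.Finite}

end

end Pool.Agent.Helper37.Ff
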