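import Mathlib

/-!
# Project FRF (MP_6cbef8_nt), module Dns: a coset which is almost filled by a closed set

PLAN. Only Mathlib. `μ` is finite on the compact group `G`, left invariant, positive on nonempty open sets. If `B = 0` the hypothesis
`μ U ≤ 0` never holds (`U` open subgroup), any `U` works. Let `B ≥ 1`. Claim: there is an open normal subgroup `U` with
`μ (C U) < μ C + μ C / B` (`C U = {x | ∃ c ∈ C, c⁻¹ x ∈ U}`): the sets `C U` are closed and open, and `⋂ C U = C` over the open normal
subgroups `U` (they form a basis of neighbourhoods of `1` in a profinite group: e.g.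
`IsTopologicalGroup.exist_openSubgroup_sub_clopen_nhds_of_one` + normal core, or `ProfiniteGrp.exist_openNormalSubgroup_sub_open_nhds_of_one`; for
`x ∉ C` the set of `y` with `x y⁻¹ ∈ C`.. avoids a neighbourhood of 1). By outer regularity (`μ` is regular:
`MeasureTheory.Measure.IsHaarMeasure`, `Regular`; or take an open `W ⊇ C` with `μ W < μ C + μ C / B`; `C` compact, `W` open: there is `U`
with `C U ⊆ W`, e.g. `compact_open_separated_mul_right`). `C U` is a finite disjoint union of left cosets `g U`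
(all of measure `μ U`). If every coset `g U ⊆ C U` had `μ (C ∩ g U) ≤ μ U - μ U / B`, then summing
`μ C ≤ μ (C U) (1 - 1 / B) < μ C (1 + 1 / B) (1 - 1 / B) ≤ μ C`, a contradiction (`μ C > 0` finite). So some coset has
`μ (C ∩ g U) > μ U - μ U / B`, i.e. `μ (g U \ C) < μ U / B`. If `O ⊆ g U` is open and disjoint from `C`, then
`μ O ≤ μ (g U \ C) < μ U / B`, contrary to `μ U ≤ B * μ O`.
-/

set_option autoImplicit false

open MeasureTheory
open scoped Pointwise

namespace Pool.Agent.Helper37.Ff

theorem exists_coset {G : Type*} [Group G] [TopologicalSpace G] [IsTopologicalGroup G]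
    [CompactSpace G] [TotallyDisconnectedSpace G] [MeasurableSpace G] [BorelSpace G]
    (μ : Measure G) [μ.IsHaarMeasure] (C : Set G) (hC : IsClosed C) (h0 : μ C ≠ 0) (B : ℕ) :
    ∃ U : Subgroup G, U.Normal ∧ IsOpen (U : Set G) ∧ ∃ g : G, ∀ O : Set G, IsOpen O →
      (∀ x ∈ O, g⁻¹ * x ∈ U) → μ (U : Set G) ≤ B * μ O → (O ∩ C).Nonempty := by
  classical
  rcases Nat.eq_zero_or_pos B with rfl | hB
  · refine ⟨⊤, inferInstance, by simp, 1, fun O hO _ h => ?_⟩
    exfalso
    have h1 : μ ((⊤ : Subgroup G) : Set G) = 0 := by simpa using h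
    have h2 : 0 < μ ((⊤ : Subgroup G) : Set G) :=
      IsOpen.measure_pos μ (by simp) ⟨1, by simp⟩
    exact h2.ne' h1
  have hBr : (0 : ℝ) < B := by exact_mod_cast hB
  have hBr1 : (1 : ℝ) ≤ B := by exact_mod_cast hB
  have hfin : ∀ s : Set G, μ s ≠ ⊤ := fun s => measure_ne_top μ s
  have hc : 0 < μ.real C := by
    rw [Measure.real]
    exact ENNReal.toReal_pos h0 (hfin C)
  -- an open neighbourhood of `C` of small measure
  obtain ⟨W, hCW, hWo, hWm⟩ := C.exists_isOpen_lt_add (μ := μ) (hfin C)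
    (ε := ENNReal.ofReal (μ.real C / B)) (by
      have : 0 < ENNReal.ofReal (μ.real C / B) := ENNReal.ofReal_pos.2 (div_pos hc hBr)
      exact this.ne')
  have hWr : μ.real W < μ.real C + μ.real C / B := by
    have h1 : (μ W).toReal < (μ C + ENNReal.ofReal (μ.real C / B)).toReal :=
      (ENNReal.toReal_lt_toReal (hfin W) (by simp [hfin C])).2 hWm
    rw [ENNReal.toReal_add (hfin C) (by simp), ENNReal.toReal_ofReal (div_pos hc hBr).le] at h1
    exact h1
  -- an open normal subgroup `U` with `C U ⊆ W`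
  obtain ⟨V, hV, hCV⟩ := compact_open_separated_mul_right hC.isCompact hWo hCW
  obtain ⟨V', hV'V, hV'o, h1V'⟩ := mem_nhds_iff.1 hV
  obtain ⟨N, hN⟩ := ProfiniteGrp.exist_openNormalSubgroup_sub_open_nhds_of_one hV'o h1V'
  have hNn : (N : Subgroup G).Normal := N.isNormal'
  have hNo : IsOpen ((N : Subgroup G) : Set G) := N.isOpen'
  generalize hU : (N : Subgroup G) = U at hNn hNo
  have hUV : ∀ x ∈ U, x ∈ V := fun x hx => hV'V (hN (by rw [← hU] at hx; exact hx))
  refine ⟨U, hNn, hNo, ?_⟩
  have hu : 0 < μ.real (U : Set G) := by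
    rw [Measure.real]
    exact ENNReal.toReal_pos (IsOpen.measure_pos μ hNo ⟨1, U.one_mem⟩).ne' (hfin _)
  -- the quotient is finite
  have : Finite (G ⧸ U) := Subgroup.quotient_finite_of_isOpen U hNo
  have : Fintype (G ⧸ U) := Fintype.ofFinite _
  let F : G ⧸ U → Set G := fun q => {x | (x : G ⧸ U) = q}
  have hFU : ∀ g : G, F (g : G ⧸ U) = (fun x => g⁻¹ * x) ⁻¹' (U : Set G) := by
    intro g
    ext x
    change ((x : G ⧸ U) = (g : G ⧸ U)) ↔ g⁻¹ * x ∈ U
    rw [eq_comm, QuotientGroup.eq]
  have hFm : ∀ q, MeasurableSet (F q) := by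
    intro q
    induction q using QuotientGroup.induction_on with
    | H g =>
      rw [hFU g]
      exact (hNo.preimage (continuous_const.mul continuous_id)).measurableSet
  have hFμ : ∀ q, μ.real (F q) = μ.real (U : Set G) := by
    intro q
    induction q using QuotientGroup.induction_on with
    | H g =>
      rw [hFU g, Measure.real, measure_preimage_mul, Measure.real]
  have hdisj : Pairwise (Function.onFun Disjoint F) := by
    intro q q' hqq'
    rw [Function.onFun, Set.disjoint_left]
    intro x hx hx'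
    exact hqq' (hx.symm.trans hx')
  let S : Finset (G ⧸ U) := Finset.univ.filter fun q => (F q ∩ C).Nonempty
  have hSW : (⋃ q ∈ S, F q) ⊆ W := by
    intro x hx
    simp only [Set.mem_iUnion] at hx
    obtain ⟨q, hq, hxq⟩ := hx
    obtain ⟨y, hyq, hyC⟩ := (Finset.mem_filter.1 hq).2
    have h1 : y⁻¹ * x ∈ U := by
      rw [← QuotientGroup.eq]
      exact hyq.trans hxq.symm
    have h2 : y * (y⁻¹ * x) ∈ C * V := Set.mul_mem_mul hyC (hUV _ h1)
    rw [mul_inv_cancel_left] at h2
    exact hCV h2
  have hNu : (S.card : ℝ) * μ.real (U : Set G) ≤ μ.real W := by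
    have h1 : μ.real (⋃ q ∈ S, F q) = ∑ q ∈ S, μ.real (F q) :=
      measureReal_biUnion_finset (fun q _ q' _ h => hdisj h) (fun q _ => hFm q)
        (fun q _ => hfin _)
    have h2 : μ.real (⋃ q ∈ S, F q) ≤ μ.real W := measureReal_mono hSW (hfin W)
    rw [h1, Finset.sum_congr rfl (fun q _ => hFμ q), Finset.sum_const, nsmul_eq_mul] at h2
    exact h2
  have hCs : μ.real C ≤ ∑ q ∈ S, μ.real (C ∩ F q) := by
    have h1 : C ⊆ ⋃ q ∈ S, (C ∩ F q) := by
      intro x hx
      simp only [Set.mem_iUnion]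
      exact ⟨(x : G ⧸ U), Finset.mem_filter.2 ⟨Finset.mem_univ _, ⟨x, rfl, hx⟩⟩, hx, rfl⟩
    calc μ.real C ≤ μ.real (⋃ q ∈ S, (C ∩ F q)) := measureReal_mono h1 (hfin _)
      _ ≤ ∑ q ∈ S, μ.real (C ∩ F q) := measureReal_biUnion_finset_le S _
  -- a good coset
  have hgood : ∃ q ∈ S, μ.real (U : Set G) - μ.real (U : Set G) / B < μ.real (C ∩ F q) := by
    by_contra hcon
    push Not at hcon
    have h1 : μ.real C ≤ S.card * (μ.real (U : Set G) - μ.real (U : Set G) / B) := by
      calc μ.real C ≤ ∑ q ∈ S, μ.real (C ∩ F q) := hCs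
        _ ≤ ∑ q ∈ S, (μ.real (U : Set G) - μ.real (U : Set G) / B) :=
            Finset.sum_le_sum hcon
        _ = S.card * (μ.real (U : Set G) - μ.real (U : Set G) / B) := by
            rw [Finset.sum_const, nsmul_eq_mul]
    have h2 : μ.real C ≤ (S.card * μ.real (U : Set G)) * (1 - 1 / B) := by
      calc μ.real C ≤ S.card * (μ.real (U : Set G) - μ.real (U : Set G) / B) := h1
        _ = (S.card * μ.real (U : Set G)) * (1 - 1 / B) := by ring
    have h3 : (0 : ℝ) ≤ 1 - 1 / B := by
      rw [sub_nonneg, div_le_one hBr]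
      exact hBr1
    have h4 : (S.card * μ.real (U : Set G)) * (1 - 1 / B) ≤
        (μ.real C + μ.real C / B) * (1 - 1 / B) :=
      mul_le_mul_of_nonneg_right (hNu.trans hWr.le) h3
    have h5 : (μ.real C + μ.real C / B) * (1 - 1 / B) =
        μ.real C - μ.real C * (1 / B) ^ 2 := by ring
    have h6 : 0 < μ.real C * (1 / (B : ℝ)) ^ 2 := by positivity
    linarith
  obtain ⟨q, -, hq⟩ := hgood
  induction q using QuotientGroup.induction_on with
  | H g =>
    refine ⟨g, fun O hO hOU hμ => ?_⟩
    by_contra hne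
    rw [Set.not_nonempty_iff_eq_empty] at hne
    have hOF : O ⊆ F (g : G ⧸ U) := by
      intro x hx
      rw [hFU g]
      exact hOU x hx
    have h1 : μ.real (O ∪ (C ∩ F (g : G ⧸ U))) = μ.real O + μ.real (C ∩ F (g : G ⧸ U)) := by
      refine measureReal_union ?_ (hC.measurableSet.inter (hFm _)) (hfin _) (hfin _)
      rw [Set.disjoint_left]
      intro x hx hx'
      have : x ∈ O ∩ C := ⟨hx, hx'.1⟩
      rw [hne] at this
      exact this
    have h2 : μ.real (O ∪ (C ∩ F (g : G ⧸ U))) ≤ μ.real (F (g : G ⧸ U)) :=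
      measureReal_mono (Set.union_subset hOF Set.inter_subset_right) (hfin _)
    rw [h1, hFμ] at h2
    have h3 : μ.real O < μ.real (U : Set G) / B := by linarith
    have h4 : μ.real (U : Set G) ≤ B * μ.real O := by
      have h5 : (μ (U : Set G)).toReal ≤ ((B : ENNReal) * μ O).toReal :=
        (ENNReal.toReal_le_toReal (hfin _) (ENNReal.mul_ne_top (by simp) (hfin O))).2 hμ
      rw [ENNReal.toReal_mul, ENNReal.toReal_natCast] at h5
      exact h5
    rw [lt_div_iff₀ hBr] at h3
    linarith [mul_comm (μ.real O) (B : ℝ)]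

end Pool.Agent.Helper37.Ff
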