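import Pool.Agent.Helper37.Ff.Defs

/-!
# Project FRF (MP_6cbef8_nt), module Emb: embeddings of the fields L
-/

set_option autoImplicit false

open NumberField Polynomial

namespace Pool.Agent.Helper37.Ff

theorem exists_embed (M : Type) [Field M] (L : Type) [Field L] [Algebra M L]
    [FiniteDimensional M L] : ∃ h : M[X], h ≠ 0 ∧ ∀ (E : Type) [Field E] (j : M →+* E),
      (h.map j).Splits → ∃ i : L →+* E, i.comp (algebraMap M L) = j := by
  classical
  let b := Module.finBasis M L
  have h0 : ∀ i, minpoly M (b i) ≠ 0 := fun i =>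
    minpoly.ne_zero (Algebra.IsIntegral.isIntegral (b i))
  have hp : ∏ i, minpoly M (b i) ≠ 0 := Finset.prod_ne_zero_iff.2 fun i _ => h0 i
  refine ⟨∏ i, minpoly M (b i), hp, ?_⟩
  intro E _ j hj
  letI : Algebra M E := j.toAlgebra
  have h1 : ∀ i, ((minpoly M (b i)).map (algebraMap M E)).Splits := fun i =>
    hj.of_dvd ((Polynomial.map_ne_zero_iff j.injective).2 hp)
      (Polynomial.map_dvd j (Finset.dvd_prod_of_mem _ (Finset.mem_univ i)))
  have hS : IntermediateField.adjoin M (Set.range b) = ⊤ := by
    rw [eq_top_iff]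
    intro x _
    have h3 : Submodule.span M (Set.range b) ≤
        Subalgebra.toSubmodule (IntermediateField.adjoin M (Set.range b)).toSubalgebra :=
      Submodule.span_le.2 (IntermediateField.subset_adjoin M _)
    exact h3 (b.mem_span x)
  obtain ⟨φ⟩ := IntermediateField.nonempty_algHom_of_adjoin_splits (F := M) (E := L) (K := E)
    (S := Set.range b) (by
      rintro _ ⟨i, rfl⟩
      exact ⟨Algebra.IsIntegral.isIntegral (b i), h1 i⟩) hS
  exact ⟨(φ : L →+* E), φ.comp_algebraMap⟩

theorem splits_of_fieldIn {M : Type} [Field M] {L : Type} [Field L] [Algebra M L]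
    {f g : (𝓞 M)[X]} (h : FieldIn L f g) {E : Type} [Field E] (j : M →+* E) (i : L →+* E)
    (hi : i.comp (algebraMap M L) = j) (hg : (g.map (j.comp (algebraMap (𝓞 M) M))).Splits) :
    (f.map (j.comp (algebraMap (𝓞 M) M))).Splits := by
  letI : Algebra L E := i.toAlgebra
  have h1 : ((g.map ((algebraMap M L).comp (algebraMap (𝓞 M) M))).map (algebraMap L E)).Splits := by
    have h2 : (algebraMap L E).comp ((algebraMap M L).comp (algebraMap (𝓞 M) M)) =
        j.comp (algebraMap (𝓞 M) M) := by
      rw [← RingHom.comp_assoc]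
      congr 1
    rw [Polynomial.map_map, h2]
    exact hg
  have h3 : (f.map ((algebraMap L
      (g.map ((algebraMap M L).comp (algebraMap (𝓞 M) M))).SplittingField).comp
      ((algebraMap M L).comp (algebraMap (𝓞 M) M)))).Splits := h
  have h4 := h3.map (SplittingField.lift _ h1).toRingHom
  rw [Polynomial.map_map] at h4
  have h5 : (SplittingField.lift _ h1).toRingHom.comp ((algebraMap L
      (g.map ((algebraMap M L).comp (algebraMap (𝓞 M) M))).SplittingField).comp
      ((algebraMap M L).comp (algebraMap (𝓞 M) M))) = j.comp (algebraMap (𝓞 M) M) := by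
    rw [← RingHom.comp_assoc, ← RingHom.comp_assoc]
    congr 1
    rw [← hi]
    congr 1
    exact (SplittingField.lift _ h1).comp_algebraMap
  rw [h5] at h4
  exact h4

theorem fieldIn_of_dvd {M : Type*} [Field M] {f g : (𝓞 M)[X]} (hg : g.Monic) {E : Type*}
    [Field E] (j : M →+* E)
    (h : f.map (j.comp (algebraMap (𝓞 M) M)) ∣ g.map (j.comp (algebraMap (𝓞 M) M))) :
    FieldIn M f g := by
  have h1 : f.map (algebraMap (𝓞 M) M) ∣ g.map (algebraMap (𝓞 M) M) := by
    rw [← Polynomial.map_dvd_map' j, Polynomial.map_map, Polynomial.map_map]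
    exact h
  have hc : (algebraMap M M).comp (algebraMap (𝓞 M) M) = algebraMap (𝓞 M) M := rfl
  have h2 : ((f.map ((algebraMap M M).comp (algebraMap (𝓞 M) M))).map (algebraMap M
      (g.map ((algebraMap M M).comp (algebraMap (𝓞 M) M))).SplittingField)).Splits := by
    refine (SplittingField.splits
      (g.map ((algebraMap M M).comp (algebraMap (𝓞 M) M)))).of_dvd ?_ ?_
    · exact ((hg.map _).map _).ne_zero
    · exact Polynomial.map_dvd _ h1
  rw [Polynomial.map_map] at h2
  exact h2

end Pool.Agent.Helper37.Ff
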