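import Pool.Agent.Helper37.Ff.EvB

/-!
# Project FRF (MP_6cbef8_nt), module GdE: eigenvalues of good elements

PLAN. Uses the statements of module EvB. `k` is finite, `K` an algebraically closed field over `k`; write `t`, `c` also for the
matrices over `K`, `q = card k`. From `h`: (0) for every `α ∈ sp t` there is exactly one `γ` with `Jt α γ`, and it depends only on
`α ^ w`; existence: `ker (t - α)` is stable under `c` and `c` has an eigenvector in it.
(1) The eigenvalues of `t c` are the `α γ`, `Jt α γ`: if `t c u = x u`, `u ≠ 0`, the space `ker (t c - x)` is stable under `t` (`t`, `c`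
commute), so it contains `u' ≠ 0` with `t u' = α u'`; then `α ≠ 0` and `c u' = (x / α) u'` (`t c u' = c t u' = α c u'`), `Jt α (x / α)`.
(2) `α ↦ α γ(α)` is injective on `sp t`: if `α γ = α' γ'`, then `(α γ) ^ w = (α' γ') ^ w`, so `α ^ w = α' ^ w`, so `γ = γ' ≠ 0` and `α = α'`. So
`card (sp (t c)) = card (sp t)`, i.e. `ne (t * c) = ne t` (`ne_eq_card` with `algebraMap k K`).
(3) `sp ((t c) ^ w) = {(α γ) ^ w}` (`sp_pow`), and `α ^ w ↦ (α γ) ^ w = α ^ w * γ ^ w` is well defined (`γ` depends on `α ^ w` only) and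
injective on `{α ^ w} = sp (t ^ w)` by `h`. So `ne ((t * c) ^ w) = ne (t ^ w)`.
(4) The eigenvalues `α` of `t` are in `k` (`ht`), i.e. `α ^ q = α`. If `Jt α γ` with eigenvector `u`, then applying `x ↦ x ^ q` to all
entries (a ring homomorphism of `K`, `frobenius` power; it fixes the entries of `t`, `c`, which come from `k`, `FiniteField.pow_card`)
gives `Jt (α ^ q) (γ ^ q)`, so `Jt α (γ ^ q)` and `γ ^ q = γ` by uniqueness. So `(α γ) ^ q = α γ`, and the solutions of `x ^ q = x` in
`K` are the `q` elements of `k`. All roots of `(t c).charpoly` in `K` lie in `k`, so it splits over `k`.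
-/

set_option autoImplicit false

namespace Pool.Agent.Helper37.Ff

private theorem common_eig {K : Type*} [Field K] [IsAlgClosed K] {n : ℕ}
    (A B : Matrix (Fin n) (Fin n) K) (hAB : A * B = B * A) (x : K)
    (u : Fin n → K) (hu : u ≠ 0) (hx : A.mulVec u = x • u) : ∃ γ, Jt A B x γ := by
  let f : Module.End K (Fin n → K) := Matrix.toLin' A
  let g : Module.End K (Fin n → K) := Matrix.toLin' B
  have hfg : ∀ v, f (g v) = g (f v) := by
    intro v
    change A.mulVec (B.mulVec v) = B.mulVec (A.mulVec v)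
    rw [Matrix.mulVec_mulVec, Matrix.mulVec_mulVec, hAB]
  let W : Submodule K (Fin n → K) := f.eigenspace x
  have hW : ∀ v ∈ W, g v ∈ W := by
    intro v hv
    rw [Module.End.mem_eigenspace_iff] at hv ⊢
    rw [hfg, hv, map_smul]
  have huW : u ∈ W := by
    rw [Module.End.mem_eigenspace_iff]
    exact hx
  have : Nontrivial W := ⟨⟨⟨u, huW⟩, 0, fun h => hu (congrArg Subtype.val h)⟩⟩
  obtain ⟨γ, hγ⟩ := Module.End.exists_eigenvalue (g.restrict hW)
  obtain ⟨v, hv⟩ := hγ.exists_hasEigenvector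
  have hv2 := hv.apply_eq_smul
  have hv0 := hv.2
  refine ⟨γ, v.1, fun h => hv0 (Subtype.ext h), ?_, ?_⟩
  · have := v.2
    rw [Module.End.mem_eigenspace_iff] at this
    exact this
  · have := congrArg Subtype.val hv2
    simpa [g] using this

private theorem Jt_sp_left {K : Type*} [Field K] {n : ℕ} {A B : Matrix (Fin n) (Fin n) K}
    {α γ : K} (h : Jt A B α γ) : α ∈ sp A := by
  obtain ⟨u, hu, h1, _⟩ := h
  exact (mem_sp A α).2 ⟨u, hu, h1⟩

private theorem Jt_sp_right {K : Type*} [Field K] {n : ℕ} {A B : Matrix (Fin n) (Fin n) K}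
    {α γ : K} (h : Jt A B α γ) : γ ∈ sp B := by
  obtain ⟨u, hu, _, h1⟩ := h
  exact (mem_sp B γ).2 ⟨u, hu, h1⟩

private theorem Jt_mul {K : Type*} [Field K] {n : ℕ} {A B : Matrix (Fin n) (Fin n) K}
    {α γ : K} (h : Jt A B α γ) : α * γ ∈ sp (A * B) := by
  obtain ⟨u, hu, h1, h2⟩ := h
  refine (mem_sp _ _).2 ⟨u, hu, ?_⟩
  rw [← Matrix.mulVec_mulVec, h2, Matrix.mulVec_smul, h1, smul_smul, mul_comm]

private theorem sp_ne_zero {K : Type*} [Field K] {n : ℕ} {A C : Matrix (Fin n) (Fin n) K}
    (hC : C * A = 1) {α : K} (h : α ∈ sp A) : α ≠ 0 := by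
  rintro rfl
  obtain ⟨u, hu, h1⟩ := (mem_sp _ _).1 h
  apply hu
  have := congrArg C.mulVec h1
  rw [Matrix.mulVec_mulVec, hC, Matrix.one_mulVec] at this
  simpa using this

private theorem mul_Jt {K : Type*} [Field K] [IsAlgClosed K] {n : ℕ}
    {A B C : Matrix (Fin n) (Fin n) K} (hAB : A * B = B * A) (hC : C * A = 1)
    {x : K} (h : x ∈ sp (A * B)) : ∃ α γ, Jt A B α γ ∧ x = α * γ := by
  obtain ⟨u, hu, h1⟩ := (mem_sp _ _).1 h
  obtain ⟨α, v, hv, h2, h3⟩ := common_eig (A * B) A (by rw [mul_assoc, ← hAB, ← mul_assoc]) x u hu h1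
  have hα : α ≠ 0 := sp_ne_zero hC ((mem_sp _ _).2 ⟨v, hv, h3⟩)
  refine ⟨α, x / α, ⟨v, hv, h3, ?_⟩, by field_simp⟩
  have h4 : α • (B.mulVec v) = x • v := by
    rw [← Matrix.mulVec_smul, ← h3, Matrix.mulVec_mulVec, ← hAB, h2]
  rw [div_eq_inv_mul, mul_smul, ← h4, smul_smul, inv_mul_cancel₀ hα, one_smul]

private theorem card_image_congr {α β β' : Type*} [DecidableEq β] [DecidableEq β'] (s : Finset α)
    (f : α → β) (g : α → β') (h : ∀ a ∈ s, ∀ b ∈ s, (f a = f b ↔ g a = g b)) :
    (s.image f).card = (s.image g).card := by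
  classical
  refine Finset.card_bij (fun y hy => g (Finset.mem_image.1 hy).choose) ?_ ?_ ?_
  · intro y hy
    exact Finset.mem_image_of_mem g (Finset.mem_image.1 hy).choose_spec.1
  · intro y hy y' hy' he
    have h1 := (Finset.mem_image.1 hy).choose_spec
    have h2 := (Finset.mem_image.1 hy').choose_spec
    rw [← h1.2, ← h2.2]
    exact (h _ h1.1 _ h2.1).2 he
  · intro z hz
    obtain ⟨a, ha, rfl⟩ := Finset.mem_image.1 hz
    have hfa : f a ∈ s.image f := Finset.mem_image_of_mem f ha
    refine ⟨f a, hfa, ?_⟩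
    have h1 := (Finset.mem_image.1 hfa).choose_spec
    exact (h _ h1.1 _ ha).1 h1.2

private theorem pow_card_range {k : Type*} [Field k] [Fintype k] {K : Type*} [Field K]
    (i : k →+* K) {x : K} (hx : x ^ Fintype.card k = x) : x ∈ i.range := by
  have hc : 1 < Fintype.card k := Fintype.one_lt_card
  have h0 : (Polynomial.X ^ Fintype.card k - Polynomial.X : Polynomial k) ≠ 0 :=
    FiniteField.X_pow_card_sub_X_ne_zero k hc
  have hs : (Polynomial.X ^ Fintype.card k - Polynomial.X : Polynomial k).Splits := by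
    rw [Polynomial.splits_iff_card_roots, FiniteField.roots_X_pow_card_sub_X,
      FiniteField.X_pow_card_sub_X_natDegree_eq k hc]
    rfl
  refine hs.mem_range_of_isRoot h0 ?_
  simp [Polynomial.IsRoot, hx]

private theorem coe_unit_mul_comm {k : Type*} [Field k] {n : ℕ} (t c : GL (Fin n) k)
    (hc : t * c = c * t) : (t : Matrix (Fin n) (Fin n) k) * (c : Matrix (Fin n) (Fin n) k) =
      (c : Matrix (Fin n) (Fin n) k) * (t : Matrix (Fin n) (Fin n) k) := by
  have := congrArg (fun x : GL (Fin n) k => (x : Matrix (Fin n) (Fin n) k)) hc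
  simpa using this

theorem good_elem {k : Type*} [Field k] [Finite k] {K : Type*} [Field K] [IsAlgClosed K]
    [Algebra k K] {n w : ℕ} (t c : GL (Fin n) k) (hc : t * c = c * t)
    (ht : (t : Matrix (Fin n) (Fin n) k).charpoly.Splits)
    (h : ∀ α γ α' γ' : K,
      Jt ((t : Matrix (Fin n) (Fin n) k).map (algebraMap k K))
        ((c : Matrix (Fin n) (Fin n) k).map (algebraMap k K)) α γ →
      Jt ((t : Matrix (Fin n) (Fin n) k).map (algebraMap k K))
        ((c : Matrix (Fin n) (Fin n) k).map (algebraMap k K)) α' γ' →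
      (α ^ w = α' ^ w → γ = γ') ∧ ((α * γ) ^ w = (α' * γ') ^ w → α ^ w = α' ^ w)) :
    ((t * c : GL (Fin n) k) : Matrix (Fin n) (Fin n) k).charpoly.Splits ∧
    ne ((t * c : GL (Fin n) k) : Matrix (Fin n) (Fin n) k) =
      ne (t : Matrix (Fin n) (Fin n) k) ∧
    ne (((t * c) ^ w : GL (Fin n) k) : Matrix (Fin n) (Fin n) k) =
      ne ((t ^ w : GL (Fin n) k) : Matrix (Fin n) (Fin n) k) := by
  classical
  have := Fintype.ofFinite k
  set ι := algebraMap k K with hι
  set A : Matrix (Fin n) (Fin n) K := (t : Matrix (Fin n) (Fin n) k).map ι with hA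
  set B : Matrix (Fin n) (Fin n) K := (c : Matrix (Fin n) (Fin n) k).map ι with hB
  have hAB : A * B = B * A := by
    rw [hA, hB, ← Matrix.map_mul, ← Matrix.map_mul, coe_unit_mul_comm t c hc]
  obtain ⟨A', hA'⟩ : ∃ A', A' * A = 1 := by
    refine ⟨((t⁻¹ : GL (Fin n) k) : Matrix (Fin n) (Fin n) k).map ι, ?_⟩
    rw [hA, ← Matrix.map_mul]
    have : ((t⁻¹ : GL (Fin n) k) : Matrix (Fin n) (Fin n) k) * (t : Matrix (Fin n) (Fin n) k) = 1 :=
      t.inv_mul
    rw [this]
    simp
  obtain ⟨B', hB'⟩ : ∃ B', B' * B = 1 := by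
    refine ⟨((c⁻¹ : GL (Fin n) k) : Matrix (Fin n) (Fin n) k).map ι, ?_⟩
    rw [hB, ← Matrix.map_mul]
    have : ((c⁻¹ : GL (Fin n) k) : Matrix (Fin n) (Fin n) k) * (c : Matrix (Fin n) (Fin n) k) = 1 :=
      c.inv_mul
    rw [this]
    simp
  have hex : ∀ α ∈ sp A, ∃ γ, Jt A B α γ := by
    intro α hα
    obtain ⟨u, hu, h1⟩ := (mem_sp _ _).1 hα
    exact common_eig A B hAB α u hu h1
  choose! g hg using hex
  have huniq : ∀ α γ, Jt A B α γ → γ = g α := by
    intro α γ hj
    exact (h α γ α (g α) hj (hg α (Jt_sp_left hj))).1 rfl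
  have hgw : ∀ α ∈ sp A, ∀ α' ∈ sp A, (α ^ w = α' ^ w → g α = g α') ∧
      ((α * g α) ^ w = (α' * g α') ^ w → α ^ w = α' ^ w) := fun α hα α' hα' =>
    h α (g α) α' (g α') (hg α hα) (hg α' hα')
  have hsp : sp (A * B) = (sp A).image (fun α => α * g α) := by
    ext x
    rw [Finset.mem_image]
    constructor
    · intro hx
      obtain ⟨α, γ, hj, rfl⟩ := mul_Jt hAB hA' hx
      refine ⟨α, Jt_sp_left hj, ?_⟩
      rw [huniq α γ hj]
    · rintro ⟨α, hα, rfl⟩
      exact Jt_mul (hg α hα)
  have hcard1 : (sp (A * B)).card = (sp A).card := by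
    rw [hsp]
    refine Finset.card_image_of_injOn ?_
    intro α hα α' hα' he
    have he' : α * g α = α' * g α' := he
    have h1 := (hgw α hα α' hα').2 (by rw [he'])
    have h2 := (hgw α hα α' hα').1 h1
    have h3 : g α ≠ 0 := sp_ne_zero hB' (Jt_sp_right (hg α hα))
    rw [← h2] at he'
    exact mul_right_cancel₀ h3 he'
  have hspw : ∀ M : Matrix (Fin n) (Fin n) K, sp (M ^ w) = (sp M).image (fun x => x ^ w) := by
    intro M
    ext y
    rw [sp_pow, Finset.mem_image]
  have hcard2 : (sp ((A * B) ^ w)).card = (sp (A ^ w)).card := by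
    rw [hspw, hspw, hsp, Finset.image_image]
    refine card_image_congr _ _ _ ?_
    intro α hα α' hα'
    constructor
    · intro he
      exact (hgw α hα α' hα').2 he
    · intro he
      have he' : α ^ w = α' ^ w := he
      have h1 := (hgw α hα α' hα').1 he'
      change (α * g α) ^ w = (α' * g α') ^ w
      rw [mul_pow, mul_pow, he', h1]
  have hmapmul : ((t * c : GL (Fin n) k) : Matrix (Fin n) (Fin n) k).map ι = A * B := by
    rw [hA, hB, ← Matrix.map_mul]
    rfl
  have hmappow : ∀ s : GL (Fin n) k, ((s ^ w : GL (Fin n) k) : Matrix (Fin n) (Fin n) k).map ι =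
      ((s : Matrix (Fin n) (Fin n) k).map ι) ^ w := by
    intro s
    rw [Units.val_pow_eq_pow_val]
    exact map_pow (ι.mapMatrix) _ _
  refine ⟨?_, ?_, ?_⟩
  · refine Polynomial.Splits.of_splits_map ι (IsAlgClosed.splits _) ?_
    intro x hx
    rw [← Matrix.charpoly_map, hmapmul] at hx
    have hx' : x ∈ sp (A * B) := by
      rw [sp]
      simpa using hx
    obtain ⟨α, γ, hj, rfl⟩ := mul_Jt hAB hA' hx'
    refine pow_card_range ι ?_
    have hα : α ∈ sp A := Jt_sp_left hj
    have hαr : α ∈ ι.range := by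
      refine ht.mem_range_of_isRoot (Matrix.charpoly_monic _).ne_zero ?_
      rw [← Matrix.charpoly_map]
      have : α ∈ A.charpoly.roots := by
        rw [sp] at hα
        simpa using hα
      exact Polynomial.isRoot_of_mem_roots this
    obtain ⟨a, rfl⟩ := hαr
    let φ : K →ₐ[k] K := FiniteField.frobeniusAlgHom k K
    have hφ : ∀ x : K, φ x = x ^ Fintype.card k := fun x => rfl
    have hφι : ∀ x : k, φ (ι x) = ι x := fun x => φ.commutes x
    have hj2 : Jt A B (ι a) (φ γ) := by
      obtain ⟨u, hu, h1, h2⟩ := hj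
      have key : ∀ (M : Matrix (Fin n) (Fin n) k) (x : K), (M.map ι).mulVec u = x • u →
          (M.map ι).mulVec (fun i => φ (u i)) = φ x • (fun i => φ (u i)) := by
        intro M x hM
        funext i
        have := congrArg φ (congrFun hM i)
        simp only [Matrix.mulVec, dotProduct, Matrix.map_apply, map_sum, map_mul, Pi.smul_apply,
          smul_eq_mul, hφι] at this ⊢
        exact this
      refine ⟨fun i => φ (u i), ?_, ?_, ?_⟩
      · intro h0
        apply hu
        funext i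
        have := congrFun h0 i
        exact (map_eq_zero φ).1 this
      · have := key t (ι a) h1
        rwa [hφι] at this
      · exact key c γ h2
    have h5 : φ γ = γ := by
      rw [huniq _ _ hj2, huniq _ _ hj]
    rw [← hφ, map_mul, hφι, h5]
  · rw [ne_eq_card ι, ne_eq_card ι, hmapmul]
    exact hcard1
  · rw [ne_eq_card ι, ne_eq_card ι, hmappow, hmappow, hmapmul]
    exact hcard2

end Pool.Agent.Helper37.Ff
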