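import Pool.Agent.Helper37.Ff.EvB

/-!
# Project FRF (MP_6cbef8_nt), module Hen: a polynomial with separated residues splits
-/

set_option autoImplicit false

open Polynomial

namespace Pool.Agent.Helper37.Ff

private theorem ne_le_sp {k : Type} [Field k] {n : ℕ} (B : Matrix (Fin n) (Fin n) k)
    (h1 : B.charpoly.Splits) : ne B ≤ (sp B).card := by
  classical
  unfold ne sp
  rw [Matrix.charpoly_map, h1.roots_map, Multiset.toFinset_map]
  exact Finset.card_image_le

private theorem exists_small {ι : Type*} (s : Multiset ι) (g : ι → ℝ) (h0 : ∀ i ∈ s, 0 ≤ g i)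
    (h : (s.map g).prod < 1) : ∃ i ∈ s, g i < 1 := by
  induction s using Multiset.induction_on with
  | empty => simp at h
  | cons a s ih =>
    rw [Multiset.map_cons, Multiset.prod_cons] at h
    by_cases ha : g a < 1
    · exact ⟨a, Multiset.mem_cons_self a s, ha⟩
    · push Not at ha
      have h2 : (s.map g).prod < 1 := by
        by_contra hc
        push Not at hc
        nlinarith
      obtain ⟨i, hi, hgi⟩ := ih (fun i hi => h0 i (Multiset.mem_cons_of_mem hi)) h2
      exact ⟨i, Multiset.mem_cons_of_mem hi, hgi⟩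

theorem splits_of_residues {p : ℕ} [Fact p.Prime] {E : Type} [NontriviallyNormedField E]
    [IsUltrametricDist E] [NormedAlgebra ℚ_[p] E] [FiniteDimensional ℚ_[p] E] {k : Type} [Field k]
    (O : Subring E) (hO : ∀ x : E, x ∈ O ↔ ‖x‖ ≤ 1) (φ : O →+* k) (hs : Function.Surjective φ)
    (hφ : ∀ x : O, φ x = 0 ↔ ‖(x : E)‖ < 1) {n : ℕ} (A : Matrix (Fin n) (Fin n) O)
    (h1 : (A.map φ).charpoly.Splits) (h2 : ne (A.map O.subtype) ≤ ne (A.map φ)) :
    (A.map O.subtype).charpoly.Splits := by
  classical
  have : CompleteSpace E := FiniteDimensional.complete ℚ_[p] E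
  have : CharZero E := charZero_of_injective_algebraMap (algebraMap ℚ_[p] E).injective
  set Eb := AlgebraicClosure E with hEb
  let N : MulAlgebraNorm E Eb := spectralMulAlgNorm E Eb
  have hNdef : ∀ x : Eb, N x = spectralNorm E Eb x := fun x => rfl
  have hNext : ∀ x : E, N (algebraMap E Eb x) = ‖x‖ := fun x => spectralNorm_extends x
  have hNna : ∀ x y : Eb, N (x + y) ≤ max (N x) (N y) := fun x y =>
    isNonarchimedean_spectralNorm (K := E) (L := Eb) x y
  have hNneg : ∀ x : Eb, N (-x) = N x := fun x =>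
    spectralNorm_neg (Algebra.IsAlgebraic.isAlgebraic x)
  have hNnn : ∀ x : Eb, 0 ≤ N x := fun x => spectralNorm_nonneg x
  have hNsub : ∀ x y : Eb, N (x - y) = N (y - x) := fun x y => by
    rw [← hNneg (x - y), neg_sub]
  set ι : O →+* Eb := (algebraMap E Eb).comp O.subtype with hι
  set P : O[X] := A.charpoly with hP
  set Q : Eb[X] := P.map ι with hQ
  have hQm : Q.Monic := (Matrix.charpoly_monic A).map ι
  have hQ' : ((A.map O.subtype).map (algebraMap E Eb)).charpoly = Q := by
    rw [hQ, hι, ← Polynomial.map_map, hP, ← Matrix.charpoly_map, ← Matrix.charpoly_map]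
  have hspE : ne (A.map O.subtype) = Q.roots.toFinset.card := by
    unfold ne sp
    rw [hQ']
  have hQs : Q.Splits := IsAlgClosed.splits Q
  -- residues
  have hex : ∀ b ∈ sp (A.map φ), ∃ c : O, φ c = b ∧ ∃ x ∈ Q.roots.toFinset,
      N (ι c - x) < 1 := by
    intro b hb
    obtain ⟨c, hc⟩ := hs b
    refine ⟨c, hc, ?_⟩
    have hb' : (P.map φ).eval b = 0 := by
      have h3 : b ∈ (A.map φ).charpoly.roots := by
        unfold sp at hb
        exact Multiset.mem_toFinset.mp hb
      have h4 : (A.map φ).charpoly = P.map φ := by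
        rw [hP, ← Matrix.charpoly_map]
      rw [h4] at h3
      exact (Polynomial.mem_roots'.mp h3).2
    have h5 : φ (P.eval c) = 0 := by
      rw [← hc, Polynomial.eval_map_apply] at hb'
      exact hb'
    have h6 : ‖((P.eval c : O) : E)‖ < 1 := (hφ _).mp h5
    have h7 : Q.eval (ι c) = ι (P.eval c) := by
      rw [hQ, Polynomial.eval_map_apply]
    have h8 : N (Q.eval (ι c)) < 1 := by
      rw [h7]
      have := hNext ((P.eval c : O) : E)
      rw [← this] at h6
      exact h6
    rw [hQs.eval_eq_prod_roots_of_monic hQm] at h8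
    have h9 : N ((Q.roots.map (fun a => ι c - a)).prod)
        = (Q.roots.map (fun a => N (ι c - a))).prod := by
      rw [map_multiset_prod, Multiset.map_map]
      rfl
    rw [h9] at h8
    obtain ⟨x, hx, hx1⟩ := exists_small Q.roots (fun a => N (ι c - a))
      (fun i _ => hNnn _) h8
    exact ⟨x, Multiset.mem_toFinset.mpr hx, hx1⟩
  choose! c hc f hf hfN using hex
  have hsep : ∀ b ∈ sp (A.map φ), ∀ b' ∈ sp (A.map φ), ∀ x : Eb, N (ι (c b) - x) < 1 →
      N (ι (c b') - x) < 1 → b = b' := by
    intro b hb b' hb' x h3 h4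
    have h5 : N (ι (c b - c b')) < 1 := by
      have : ι (c b - c b') = (ι (c b) - x) + (x - ι (c b')) := by
        rw [map_sub]; ring
      rw [this]
      refine lt_of_le_of_lt (hNna _ _) (max_lt h3 ?_)
      rw [hNsub]
      exact h4
    have h6 : ‖((c b - c b' : O) : E)‖ < 1 := by
      have := hNext ((c b - c b' : O) : E)
      rw [← this]
      exact h5
    have h7 := (hφ _).mpr h6
    rw [map_sub, hc b hb, hc b' hb', sub_eq_zero] at h7
    exact h7
  have hcard : Q.roots.toFinset.card ≤ (sp (A.map φ)).card := by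
    rw [← hspE]
    exact h2.trans (ne_le_sp _ h1)
  have hsurj : ∀ x ∈ Q.roots.toFinset, ∃ b ∈ sp (A.map φ), f b = x := by
    have hinj : Set.InjOn f (sp (A.map φ)) := by
      intro b hb b' hb' hbb
      refine hsep b hb b' hb' (f b) (hfN b hb) ?_
      rw [hbb]
      exact hfN b' hb'
    intro x hx
    obtain ⟨b, hb, hbx⟩ := Finset.surj_on_of_inj_on_of_card_le (fun b _ => f b)
      (fun b hb => hf b hb) (fun b b' hb hb' h => hinj hb hb' h) hcard x hx
    exact ⟨b, hb, hbx.symm⟩
  -- all roots are fixed by the Galois group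
  have hfix : ∀ x ∈ Q.roots, x ∈ Set.range (algebraMap E Eb) := by
    intro x hx
    rw [InfiniteGalois.mem_range_algebraMap_iff_fixed]
    intro σ
    obtain ⟨b, hb, hbx⟩ := hsurj x (Multiset.mem_toFinset.mpr hx)
    have h3 : σ x ∈ Q.roots := by
      rw [Polynomial.mem_roots hQm.ne_zero, Polynomial.IsRoot.def] at hx ⊢
      have h4 : Q = (P.map O.subtype).map (algebraMap E Eb) := by
        rw [hQ, hι, Polynomial.map_map]
      rw [h4, Polynomial.eval_map_algebraMap] at hx ⊢
      rw [Polynomial.aeval_algHom_apply, hx, map_zero]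
    obtain ⟨b', hb', hbx'⟩ := hsurj (σ x) (Multiset.mem_toFinset.mpr h3)
    have h5 : N (ι (c b) - σ x) < 1 := by
      have h6 : ι (c b) - σ x = σ (ι (c b) - x) := by
        rw [map_sub]
        congr 1
        exact (AlgEquiv.commutes σ _).symm
      rw [h6, hNdef, ← spectralNorm_eq_of_equiv, ← hNdef, ← hbx]
      exact hfN b hb
    have h7 : N (ι (c b') - σ x) < 1 := by
      rw [← hbx']
      exact hfN b' hb'
    have h8 := hsep b hb b' hb' _ h5 h7
    rw [← hbx', ← h8, hbx]
  have hfin : ((A.map O.subtype).charpoly.map (algebraMap E Eb)).Splits := by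
    rw [← Matrix.charpoly_map]
    exact IsAlgClosed.splits _
  refine Polynomial.Splits.of_splits_map (algebraMap E Eb) hfin ?_
  intro x hx
  have h9 : (A.map O.subtype).charpoly.map (algebraMap E Eb) = Q := by
    rw [← hQ', ← Matrix.charpoly_map]
  rw [h9] at hx
  exact hfix x hx

end Pool.Agent.Helper37.Ff
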