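import Pool.Agent.Helper37.Ff.Sh
import Pool.Agent.Helper37.Ff.EvB

/-!
# Project FRF (MP_6cbef8_nt), module LR: eigenvalues on the parts have the same power

PLAN. Uses `exists_shift` (module Sh), `mem_sp`, `sp_pow` (module EvB). Write `Jt` for `Jt t c`. Let `X` be the (finite) set of the pairs
`(α ^ w, γ ^ w)`, `Jt α γ` (both components are `w`-th powers of elements of `sp t`, `sp c`: `mem_sp`; so the projections have at most
`n` elements: `card (sp A) ≤ n`, as the characteristic polynomial has degree `n`; the components are nonzero as `t`, `c` are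
invertible). Note: every `α ∈ sp t` occurs in some `Jt α γ` (the space `ker (t - α)` is stable under `c`, which has an eigenvector in
it, `K` algebraically closed), so the first projection of `X` is `{α ^ w} = sp (t ^ w)` (`sp_pow`).
Hypothesis `h` of `exists_shift`: for `a = α ^ w ≠ a' = α' ^ w` in `sp (t ^ w)` and `1 ≤ j ≤ n ^ 4` we have `a ^ (m j) ≠ a' ^ (m j)`: the map
`z ↦ z ^ (m j)` sends `sp (t ^ w)` onto `sp (t ^ (w * m * j))` (`sp_pow`), and these sets have the same cardinality (`hs`), so it is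
injective on `sp (t ^ w)`.
Let `i` be the shift, `y = (t ^ (1 + m i) c) ^ w`. For `Jt α γ` with common eigenvector `u`: `y u = (α ^ (1 + m i) γ) ^ w u
= (α ^ w) ^ (1 + m i) * γ ^ w u`. So `(a, b) ↦ a ^ (1 + m i) * b` maps `X` injectively into `sp y`:
`card X ≤ card (sp y) ≤ card (sp (t ^ w)) = card (first projection of X)` by `hb`. So the first projection is injective on `X`
(`Finset.card_image_iff`), which is the claim.
-/

set_option autoImplicit false

namespace Pool.Agent.Helper37.Ff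

private theorem lr_card_sp_le {K : Type*} [Field K] {n : ℕ} (A : Matrix (Fin n) (Fin n) K) :
    (sp A).card ≤ n := by
  classical
  have h1 : (sp A).card ≤ Multiset.card A.charpoly.roots := by
    unfold sp
    exact Multiset.toFinset_card_le _
  refine h1.trans ((Polynomial.card_roots' _).trans ?_)
  rw [Matrix.charpoly_natDegree_eq_dim, Fintype.card_fin]

private theorem lr_sp_ne_zero {K : Type*} [Field K] {n : ℕ} (t : GL (Fin n) K) (x : K)
    (hx : x ∈ sp (t : Matrix (Fin n) (Fin n) K)) : x ≠ 0 := by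
  rintro rfl
  obtain ⟨u, hu, h⟩ := (mem_sp _ _).1 hx
  apply hu
  have h1 : ((t⁻¹ : GL (Fin n) K) : Matrix (Fin n) (Fin n) K).mulVec
      ((t : Matrix (Fin n) (Fin n) K).mulVec u) = 0 := by
    rw [h, zero_smul, Matrix.mulVec_zero]
  rw [Matrix.mulVec_mulVec, ← Units.val_mul, inv_mul_cancel, Units.val_one,
    Matrix.one_mulVec] at h1
  exact h1

private theorem lr_mul {K : Type*} [Field K] {n : ℕ} (g g' : GL (Fin n) K) (u : Fin n → K)
    (x x' : K) (h : (g : Matrix (Fin n) (Fin n) K).mulVec u = x • u)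
    (h' : (g' : Matrix (Fin n) (Fin n) K).mulVec u = x' • u) :
    ((g * g' : GL (Fin n) K) : Matrix (Fin n) (Fin n) K).mulVec u = (x * x') • u := by
  rw [Units.val_mul, ← Matrix.mulVec_mulVec, h', Matrix.mulVec_smul, h, smul_smul, mul_comm]

private theorem lr_pow {K : Type*} [Field K] {n : ℕ} (g : GL (Fin n) K) (u : Fin n → K)
    (x : K) (h : (g : Matrix (Fin n) (Fin n) K).mulVec u = x • u) (e : ℕ) :
    ((g ^ e : GL (Fin n) K) : Matrix (Fin n) (Fin n) K).mulVec u = (x ^ e) • u := by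
  induction e with
  | zero => simp
  | succ e ih =>
    rw [pow_succ, pow_succ]
    exact lr_mul _ _ _ _ _ ih h

private theorem lr_exists {K : Type*} [Field K] [IsAlgClosed K] {n : ℕ} (t c : GL (Fin n) K)
    (hc : t * c = c * t) (α : K) (hα : α ∈ sp (t : Matrix (Fin n) (Fin n) K)) :
    ∃ γ, Jt (t : Matrix (Fin n) (Fin n) K) (c : Matrix (Fin n) (Fin n) K) α γ := by
  obtain ⟨u, hu, h⟩ := (mem_sp _ _).1 hα
  let tl : Module.End K (Fin n → K) := Matrix.toLin' (t : Matrix (Fin n) (Fin n) K)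
  let cl : Module.End K (Fin n → K) := Matrix.toLin' (c : Matrix (Fin n) (Fin n) K)
  let E : Submodule K (Fin n → K) := Module.End.eigenspace tl α
  have hE : ∀ v, v ∈ E ↔ (t : Matrix (Fin n) (Fin n) K).mulVec v = α • v := by
    intro v
    change v ∈ Module.End.eigenspace tl α ↔ _
    rw [Module.End.mem_eigenspace_iff]
    simp [tl]
  have hstab : ∀ v ∈ E, cl v ∈ E := by
    intro v hv
    rw [hE] at hv ⊢
    have h1 : cl v = (c : Matrix (Fin n) (Fin n) K).mulVec v := by simp [cl]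
    rw [h1, Matrix.mulVec_mulVec, ← Units.val_mul, hc, Units.val_mul, ← Matrix.mulVec_mulVec,
      hv, Matrix.mulVec_smul]
  have : Nontrivial E := by
    refine ⟨⟨⟨u, (hE u).2 h⟩, 0, fun h0 => hu ?_⟩⟩
    exact congrArg Subtype.val h0
  obtain ⟨γ, hγ⟩ := Module.End.exists_eigenvalue (cl.restrict hstab)
  obtain ⟨v, hv⟩ := hγ.exists_hasEigenvector
  refine ⟨γ, v.1, fun h0 => hv.2 (Subtype.ext h0), (hE _).1 v.2, ?_⟩
  have h1 := congrArg Subtype.val hv.apply_eq_smul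
  have h2 : cl v.1 = γ • v.1 := h1
  simpa [cl] using h2

/-- the set `X` and the shift -/
private theorem lr_shift {K : Type*} [Field K] [IsAlgClosed K] {n w m : ℕ} (t c : GL (Fin n) K)
    (hs : ∀ j, 0 < j → j ≤ n ^ 4 →
      (sp ((t ^ (w * m * j) : GL (Fin n) K) : Matrix (Fin n) (Fin n) K)).card =
        (sp ((t ^ w : GL (Fin n) K) : Matrix (Fin n) (Fin n) K)).card)
    (_hc : t * c = c * t) :
    ∃ X : Finset (K × K), (∀ p, p ∈ X ↔ ∃ α γ : K,
      Jt (t : Matrix (Fin n) (Fin n) K) (c : Matrix (Fin n) (Fin n) K) α γ ∧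
        (α ^ w, γ ^ w) = p) ∧
      (∃ i ≤ n ^ 4, ∀ x ∈ X, ∀ y ∈ X,
        x.1 ^ (1 + m * i) * x.2 = y.1 ^ (1 + m * i) * y.2 → x = y) := by
  classical
  let A : Matrix (Fin n) (Fin n) K := (t : Matrix (Fin n) (Fin n) K)
  let A' : Matrix (Fin n) (Fin n) K := (c : Matrix (Fin n) (Fin n) K)
  let X : Finset (K × K) := ((sp A ×ˢ sp A').filter (fun p => Jt A A' p.1 p.2)).image
    (fun p => (p.1 ^ w, p.2 ^ w))
  have hX : ∀ p, p ∈ X ↔ ∃ α γ : K, Jt A A' α γ ∧ (α ^ w, γ ^ w) = p := by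
    intro p
    constructor
    · intro hp
      obtain ⟨q, hq, rfl⟩ := Finset.mem_image.1 hp
      exact ⟨q.1, q.2, (Finset.mem_filter.1 hq).2, rfl⟩
    · rintro ⟨α, γ, hJ, rfl⟩
      obtain ⟨u, hu, h1, h2⟩ := hJ
      exact Finset.mem_image.2 ⟨(α, γ), Finset.mem_filter.2 ⟨Finset.mem_product.2
        ⟨(mem_sp _ _).2 ⟨u, hu, h1⟩, (mem_sp _ _).2 ⟨u, hu, h2⟩⟩, ⟨u, hu, h1, h2⟩⟩, rfl⟩
  refine ⟨X, hX, exists_shift n m X ?_ ?_ ?_ ?_⟩
  · have h1 : X.image Prod.fst ⊆ (sp A).image (fun x => x ^ w) := by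
      intro a ha
      obtain ⟨p, hp, rfl⟩ := Finset.mem_image.1 ha
      obtain ⟨α, γ, ⟨u, hu, h1, h2⟩, rfl⟩ := (hX p).1 hp
      exact Finset.mem_image.2 ⟨α, (mem_sp _ _).2 ⟨u, hu, h1⟩, rfl⟩
    exact (Finset.card_le_card h1).trans (Finset.card_image_le.trans (lr_card_sp_le _))
  · have h1 : X.image Prod.snd ⊆ (sp A').image (fun x => x ^ w) := by
      intro a ha
      obtain ⟨p, hp, rfl⟩ := Finset.mem_image.1 ha
      obtain ⟨α, γ, ⟨u, hu, h1, h2⟩, rfl⟩ := (hX p).1 hp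
      exact Finset.mem_image.2 ⟨γ, (mem_sp _ _).2 ⟨u, hu, h2⟩, rfl⟩
    exact (Finset.card_le_card h1).trans (Finset.card_image_le.trans (lr_card_sp_le _))
  · intro p hp
    obtain ⟨α, γ, ⟨u, hu, h1, h2⟩, rfl⟩ := (hX p).1 hp
    exact ⟨pow_ne_zero _ (lr_sp_ne_zero t α ((mem_sp _ _).2 ⟨u, hu, h1⟩)),
      pow_ne_zero _ (lr_sp_ne_zero c γ ((mem_sp _ _).2 ⟨u, hu, h2⟩))⟩
  · intro p hp q hq hpq j hj hj4
    obtain ⟨α, γ, ⟨u, hu, h1, h2⟩, rfl⟩ := (hX p).1 hp
    obtain ⟨α', γ', ⟨u', hu', h1', h2'⟩, rfl⟩ := (hX q).1 hq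
    -- `z ↦ z ^ (m j)` is injective on the set of eigenvalues of `t ^ w`
    have himg : (sp ((t ^ w : GL (Fin n) K) : Matrix (Fin n) (Fin n) K)).image
        (fun z => z ^ (m * j)) =
          sp ((t ^ (w * m * j) : GL (Fin n) K) : Matrix (Fin n) (Fin n) K) := by
      ext z
      have e1 : ((t ^ (w * m * j) : GL (Fin n) K) : Matrix (Fin n) (Fin n) K) =
          ((t ^ w : GL (Fin n) K) : Matrix (Fin n) (Fin n) K) ^ (m * j) := by
        rw [← Units.val_pow_eq_pow_val, ← pow_mul, mul_assoc]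
      rw [e1, sp_pow, Finset.mem_image]
    have hinj : Set.InjOn (fun z : K => z ^ (m * j))
        (sp ((t ^ w : GL (Fin n) K) : Matrix (Fin n) (Fin n) K)) := by
      rw [← Finset.card_image_iff, himg]
      exact hs j hj hj4
    have hmem : ∀ (α : K) (u : Fin n → K), u ≠ 0 → (t : Matrix (Fin n) (Fin n) K).mulVec u = α • u →
        α ^ w ∈ sp ((t ^ w : GL (Fin n) K) : Matrix (Fin n) (Fin n) K) := by
      intro α u hu h
      exact (mem_sp _ _).2 ⟨u, hu, lr_pow t u α h w⟩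
    intro heq
    exact hpq (hinj (hmem α u hu h1) (hmem α' u' hu' h1') heq)

theorem same_power {K : Type*} [Field K] [IsAlgClosed K] {n w m : ℕ} (t c : GL (Fin n) K)
    (hb : ∀ i, (sp (((t ^ (1 + m * i) * c) ^ w : GL (Fin n) K) : Matrix (Fin n) (Fin n) K)).card ≤
      (sp ((t ^ w : GL (Fin n) K) : Matrix (Fin n) (Fin n) K)).card)
    (hs : ∀ j, 0 < j → j ≤ n ^ 4 →
      (sp ((t ^ (w * m * j) : GL (Fin n) K) : Matrix (Fin n) (Fin n) K)).card =
        (sp ((t ^ w : GL (Fin n) K) : Matrix (Fin n) (Fin n) K)).card)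
    (hc : t * c = c * t) (α γ α' γ' : K)
    (h : Jt (t : Matrix (Fin n) (Fin n) K) (c : Matrix (Fin n) (Fin n) K) α γ)
    (h' : Jt (t : Matrix (Fin n) (Fin n) K) (c : Matrix (Fin n) (Fin n) K) α' γ')
    (hw : α ^ w = α' ^ w) : γ ^ w = γ' ^ w := by
  classical
  obtain ⟨X, hX, i, hi, hXi⟩ := lr_shift t c hs hc
  have hsub : X.image (fun p => p.1 ^ (1 + m * i) * p.2) ⊆
      sp (((t ^ (1 + m * i) * c) ^ w : GL (Fin n) K) : Matrix (Fin n) (Fin n) K) := by
    intro z hz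
    obtain ⟨p, hp, rfl⟩ := Finset.mem_image.1 hz
    obtain ⟨a, b, ⟨u, hu, h1, h2⟩, rfl⟩ := (hX p).1 hp
    refine (mem_sp _ _).2 ⟨u, hu, ?_⟩
    have h3 := lr_pow _ u _ (lr_mul _ _ u _ _ (lr_pow t u a h1 (1 + m * i)) h2) w
    rw [h3]
    congr 1
    change (a ^ (1 + m * i) * b) ^ w = (a ^ w) ^ (1 + m * i) * b ^ w
    rw [mul_pow, ← pow_mul, ← pow_mul, mul_comm (1 + m * i) w]
  have hcard1 : (X.image (fun p => p.1 ^ (1 + m * i) * p.2)).card = X.card :=
    Finset.card_image_of_injOn (fun x hx y hy hxy => hXi x hx y hy hxy)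
  have hfst : X.image Prod.fst = sp ((t ^ w : GL (Fin n) K) : Matrix (Fin n) (Fin n) K) := by
    ext z
    rw [Units.val_pow_eq_pow_val, sp_pow, Finset.mem_image]
    constructor
    · rintro ⟨p, hp, rfl⟩
      obtain ⟨a, b, ⟨u, hu, h1, h2⟩, rfl⟩ := (hX p).1 hp
      exact ⟨a, (mem_sp _ _).2 ⟨u, hu, h1⟩, rfl⟩
    · rintro ⟨a, ha, rfl⟩
      obtain ⟨b, hb⟩ := lr_exists t c hc a ha
      exact ⟨(a ^ w, b ^ w), (hX _).2 ⟨a, b, hb, rfl⟩, rfl⟩
  have hle : X.card ≤ (X.image Prod.fst).card := by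
    rw [hfst, ← hcard1]
    exact (Finset.card_le_card hsub).trans (hb i)
  have hinj : Set.InjOn Prod.fst (X : Set (K × K)) :=
    Finset.card_image_iff.1 (le_antisymm Finset.card_image_le hle)
  have h3 : ((α ^ w, γ ^ w) : K × K) = (α' ^ w, γ' ^ w) :=
    hinj ((hX _).2 ⟨α, γ, h, rfl⟩) ((hX _).2 ⟨α', γ', h', rfl⟩) hw
  exact congrArg Prod.snd h3

/-- PLAN: the same set `X` and shift `i ≤ n ^ 4`, for `c` with one eigenvalue on every part: the pairs of `t`, `c * t ^ (m * i)` are the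
`(α, γ * α ^ (m * i))`, `Jt t c α γ` (same eigenvectors; conversely an eigenvector common to `t`, `c * t ^ (m i)` is one of `c`). First
claim: if `α ^ w = α' ^ w`, then `α ^ (m i) = α' ^ (m i)` as `w ∣ m`, and `γ = γ'` by `h0`. Second claim: if
`(α * (γ * α ^ (m i))) ^ w = (α' * (γ' * α' ^ (m i))) ^ w` then `(α ^ w) ^ (1 + m i) * γ ^ w = (α' ^ w) ^ (1 + m i) * γ' ^ w`, so
`α ^ w = α' ^ w` by the choice of `i`. -/
theorem exists_shift_good {K : Type*} [Field K] [IsAlgClosed K] {n w m : ℕ} (hwm : w ∣ m)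
    (t c : GL (Fin n) K)
    (hs : ∀ j, 0 < j → j ≤ n ^ 4 →
      (sp ((t ^ (w * m * j) : GL (Fin n) K) : Matrix (Fin n) (Fin n) K)).card =
        (sp ((t ^ w : GL (Fin n) K) : Matrix (Fin n) (Fin n) K)).card)
    (hc : t * c = c * t)
    (h0 : ∀ α γ α' γ' : K,
      Jt (t : Matrix (Fin n) (Fin n) K) (c : Matrix (Fin n) (Fin n) K) α γ →
      Jt (t : Matrix (Fin n) (Fin n) K) (c : Matrix (Fin n) (Fin n) K) α' γ' →
      α ^ w = α' ^ w → γ = γ') :
    ∃ i ≤ n ^ 4, ∀ α γ α' γ' : K,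
      Jt (t : Matrix (Fin n) (Fin n) K) ((c * t ^ (m * i) : GL (Fin n) K) :
        Matrix (Fin n) (Fin n) K) α γ →
      Jt (t : Matrix (Fin n) (Fin n) K) ((c * t ^ (m * i) : GL (Fin n) K) :
        Matrix (Fin n) (Fin n) K) α' γ' →
      (α ^ w = α' ^ w → γ = γ') ∧ ((α * γ) ^ w = (α' * γ') ^ w → α ^ w = α' ^ w) := by
  obtain ⟨X, hX, i, hi, hXi⟩ := lr_shift t c hs hc
  -- the pairs of `t`, `c * t ^ (m * i)`
  have key : ∀ α γ : K, Jt (t : Matrix (Fin n) (Fin n) K) ((c * t ^ (m * i) : GL (Fin n) K) :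
        Matrix (Fin n) (Fin n) K) α γ → ∃ δ : K,
      Jt (t : Matrix (Fin n) (Fin n) K) (c : Matrix (Fin n) (Fin n) K) α δ ∧
        γ = δ * α ^ (m * i) := by
    rintro α γ ⟨u, hu, h1, h2⟩
    have hα : α ≠ 0 := lr_sp_ne_zero t α ((mem_sp _ _).2 ⟨u, hu, h1⟩)
    have h3 := lr_pow t u α h1 (m * i)
    have h4 : (c : Matrix (Fin n) (Fin n) K).mulVec u = (γ * (α ^ (m * i))⁻¹) • u := by
      rw [Units.val_mul, ← Matrix.mulVec_mulVec, h3, Matrix.mulVec_smul] at h2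
      have h5 := congrArg (fun z => (α ^ (m * i))⁻¹ • z) h2
      simp only [smul_smul] at h5
      rw [inv_mul_cancel₀ (pow_ne_zero _ hα), one_smul] at h5
      rw [h5, mul_comm]
    exact ⟨γ * (α ^ (m * i))⁻¹, ⟨u, hu, h1, h4⟩, by
      rw [mul_assoc, inv_mul_cancel₀ (pow_ne_zero _ hα), mul_one]⟩
  obtain ⟨q, rfl⟩ := hwm
  refine ⟨i, hi, fun α γ α' γ' h h' => ?_⟩
  obtain ⟨δ, hδ, rfl⟩ := key α γ h
  obtain ⟨δ', hδ', rfl⟩ := key α' γ' h'
  constructor
  · intro hw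
    have h1 : δ = δ' := h0 α δ α' δ' hδ hδ' hw
    have h2 : α ^ (w * q * i) = α' ^ (w * q * i) := by
      rw [mul_assoc, pow_mul, pow_mul α', hw]
    rw [h1, h2]
  · intro hw
    have h1 : ((α ^ w, δ ^ w) : K × K) = (α' ^ w, δ' ^ w) := by
      refine hXi _ ((hX _).2 ⟨α, δ, hδ, rfl⟩) _ ((hX _).2 ⟨α', δ', hδ', rfl⟩) ?_
      change (α ^ w) ^ (1 + w * q * i) * δ ^ w = (α' ^ w) ^ (1 + w * q * i) * δ' ^ w
      have e : ∀ a d : K, (a ^ w) ^ (1 + w * q * i) * d ^ w =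
          (a * (d * a ^ (w * q * i))) ^ w := by
        intro a d
        ring
      rw [e, e, hw]
    exact congrArg Prod.fst h1

end Pool.Agent.Helper37.Ff
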