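import Pool.Agent.Helper37.Ff.EvB
import Pool.Agent.Helper37.Ff.Alm
import Pool.Agent.NLL.Comp
import Pool.Agent.Helper37.Ad.MDefs

/-!
# Project FRF (MP_6cbef8_nt), module MnA: reductions of the Frobenius polynomials
-/

set_option autoImplicit false

open NumberField Polynomial

namespace Pool.Agent.Helper37.Ff

open Pool.Agent.Helper37.Fd Pool.Agent.Helper37.Ad Pool.Agent.NLL

/-- integral elements have norm at most one -/
private theorem norm_root_le {E : Type*} [NontriviallyNormedField E] [IsUltrametricDist E]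
    {O : Subring E} (hO : ∀ x : E, x ∈ O ↔ ‖x‖ ≤ 1) (p : O[X]) (hp : p.Monic) (x : E)
    (hx : (p.map O.subtype).eval x = 0) : ‖x‖ ≤ 1 := by
  by_contra h
  push Not at h
  have h0 : (0 : ℝ) < ‖x‖ := lt_trans one_pos h
  have hn : p.natDegree ≠ 0 := by
    intro hn
    have h1 : p = 1 := hp.natDegree_eq_zero.1 hn
    rw [h1, Polynomial.map_one, Polynomial.eval_one] at hx
    exact one_ne_zero hx
  have h1 : (p.map O.subtype).eval x =
      x ^ p.natDegree + ∑ i ∈ Finset.range p.natDegree, ((p.coeff i : O) : E) * x ^ i := by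
    rw [Polynomial.eval_map, Polynomial.eval₂_eq_sum_range, Finset.sum_range_succ, add_comm,
      hp.coeff_natDegree]
    simp
  have h2 : ‖∑ i ∈ Finset.range p.natDegree, ((p.coeff i : O) : E) * x ^ i‖ ≤
      ‖x‖ ^ (p.natDegree - 1) := by
    refine IsUltrametricDist.norm_sum_le_of_forall_le_of_nonneg (pow_nonneg h0.le _) ?_
    intro i hi
    rw [norm_mul, norm_pow]
    have h3 := (hO _).1 (p.coeff i).2
    have h4 : ‖x‖ ^ i ≤ ‖x‖ ^ (p.natDegree - 1) :=
      pow_le_pow_right₀ h.le (by have := Finset.mem_range.1 hi; omega)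
    calc ‖((p.coeff i : O) : E)‖ * ‖x‖ ^ i ≤ 1 * ‖x‖ ^ (p.natDegree - 1) :=
          mul_le_mul h3 h4 (pow_nonneg h0.le _) zero_le_one
      _ = _ := one_mul _
  rw [h1] at hx
  have h3 : ‖x‖ ^ p.natDegree ≤ ‖x‖ ^ (p.natDegree - 1) := by
    have h4 : x ^ p.natDegree =
        -∑ i ∈ Finset.range p.natDegree, ((p.coeff i : O) : E) * x ^ i :=
      eq_neg_of_add_eq_zero_left hx
    rw [← norm_pow, h4, norm_neg]
    exact h2
  have h4 : ‖x‖ ^ (p.natDegree - 1) < ‖x‖ ^ p.natDegree :=
    pow_lt_pow_right₀ h (by omega)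
  exact absurd h3 (not_le.2 h4)

/-- a polynomial over `O` which splits over `E` splits over the residue field -/
theorem splits_residue {E : Type*} [NontriviallyNormedField E] [IsUltrametricDist E]
    {O : Subring E} (hO : ∀ x : E, x ∈ O ↔ ‖x‖ ≤ 1) {k : Type*} [Field k] (φ : O →+* k)
    (p : O[X]) (hp : p.Monic) (h : (p.map O.subtype).Splits) : (p.map φ).Splits := by
  have h1 : p.Splits := by
    refine Splits.of_splits_map_of_injective O.subtype_injective h ?_
    intro a ha
    have h2 := (Polynomial.mem_roots'.1 ha).2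
    exact ⟨⟨a, (hO a).2 (norm_root_le hO p hp a h2)⟩, rfl⟩
  exact h1.map φ

private theorem cpn_map' {R A : Type*} [CommRing R] [CommRing A] (n : ℕ) (ψ : R →+* A)
    (g : R[X]) : (cpn n g).map ψ = cpn n (g.map ψ) := by
  ext i j
  unfold cpn
  rw [Matrix.map_apply, Matrix.of_apply, Matrix.of_apply, coeff_map]
  split_ifs
  · rw [map_neg]
  · rw [map_one]
  · rw [map_zero]

/-- the characteristic polynomial of the image of the companion matrix -/
theorem charpoly_cpn_map {R K : Type*} [CommRing R] [Field K] {n : ℕ} (ψ : R →+* K) (g : R[X])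
    (hg : g.Monic) (hn : g.natDegree = n) : ((cpn n g).map ψ).charpoly = g.map ψ := by
  rw [cpn_map', charpoly_cpn _ (hg.map ψ) (by rw [hg.natDegree_map, hn])]

/-- the number of different eigenvalues of a power is determined by the polynomial -/
theorem ne_pow_eq {R K : Type*} [CommRing R] [Field K] {n : ℕ} (ψ : R →+* K) (g : R[X])
    (hg : g.Monic) (hn : g.natDegree = n) (A : Matrix (Fin n) (Fin n) K)
    (hA : A.charpoly = g.map ψ) (e : ℕ) : ne (A ^ e) = ne ((cpn n g ^ e).map ψ) := by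
  have h1 : (cpn n g ^ e).map ψ = ((cpn n g).map ψ) ^ e := by
    rw [← RingHom.mapMatrix_apply, ← RingHom.mapMatrix_apply, map_pow]
  rw [h1]
  exact ne_congr (by rw [hA, charpoly_cpn_map ψ g hg hn]) e

section

variable {M : Type*} [Field M] [NumberField M] {Λ : Type*} (ℓ : Λ → ℕ) [∀ v, Fact (ℓ v).Prime]
  (E : Λ → Type*) [∀ v, NontriviallyNormedField (E v)]
  [∀ v, NormedAlgebra ℚ_[ℓ v] (E v)] (j : ∀ v, M →+* E v) {G : Type*} [Group G]
  (V : ∀ v, G →* GL (Fin 2) (E v)) {n : ℕ}
  (T : ∀ (l : ℕ) [Fact l.Prime], G →* GL (Fin n) ℚ_[l]) (f g : G → (𝓞 M)[X])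

theorem inj_place (v : Λ) : Function.Injective ((j v).comp (algebraMap (𝓞 M) M)) :=
  (j v).injective.comp (FaithfulSMul.algebraMap_injective (𝓞 M) M)

theorem monic_of_matches (v : Λ) (r : G) (h : Matches ℓ E j V T f g v r) :
    (g r).Monic ∧ (g r).natDegree = n := by
  have hι := inj_place (M := M) E j v
  have hm : (g r).Monic := by
    apply monic_of_injective hι
    rw [← h.2]
    exact Matrix.charpoly_monic _
  refine ⟨hm, ?_⟩
  have h1 := congrArg Polynomial.natDegree h.2
  rw [Matrix.charpoly_natDegree_eq_dim, Fintype.card_fin, hm.natDegree_map] at h1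
  exact h1.symm

/-- the number `ne` of the powers of `T (ℓ v) r` in terms of the polynomial `g r` -/
theorem ne_place (v : Λ) (r : G) (h : Matches ℓ E j V T f g v r) (e : ℕ) :
    ne ((T (ℓ v) r : Matrix (Fin n) (Fin n) ℚ_[ℓ v]) ^ e) =
      ne ((cpn n (g r) ^ e).map (algebraMap (𝓞 M) M)) := by
  obtain ⟨hm, hn⟩ := monic_of_matches ℓ E j V T f g v r h
  have h1 := ne_pow_eq ((j v).comp (algebraMap (𝓞 M) M)) (g r) hm hn _ h.2 e
  have h2 : (cpn n (g r) ^ e).map ((j v).comp (algebraMap (𝓞 M) M)) =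
      ((cpn n (g r) ^ e).map (algebraMap (𝓞 M) M)).map (j v) := by
    rw [Matrix.map_map]
    rfl
  rw [h2, ne_map (j v)] at h1
  rw [← h1, ← ne_map (algebraMap ℚ_[ℓ v] (E v))]
  congr 1
  rw [← RingHom.mapMatrix_apply, map_pow]
  rfl

end

end Pool.Agent.Helper37.Ff
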