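import Pool.Agent.Helper37.Ad.Base

/-!
# Project FRF (MP_6cbef8_nt), module Red: the reduction of an integral representation

PLAN. Only Mathlib (see Pool/Agent/Helper37/Ad/ResV.lean for the same construction). Lift `W g` to a matrix over `O`, multiplicative in
`g`, map it to `k` by `φ` (`RingHom.mapMatrix`), and use `MonoidHom.toHomUnits`. The kernel contains the open set of the `g` with
`‖W g i j - δ i j‖ < 1` for all `i, j`, so it is open (`Subgroup.isOpen_of_mem_nhds`).
-/

set_option autoImplicit false

namespace Pool.Agent.Helper37.Ff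

open Pool.Agent.Helper37.Ad

theorem exists_reduction {E : Type*} [NontriviallyNormedField E] [IsUltrametricDist E]
    {G : Type*} [Group G] [TopologicalSpace G] [IsTopologicalGroup G] {n : ℕ}
    (W : G →* GL (Fin n) E) (hW : Continuous W)
    (hi : ∀ g i j, ‖(W g : Matrix (Fin n) (Fin n) E) i j‖ ≤ 1) {k : Type*} [Field k]
    (O : Subring E) (hO : ∀ x : E, x ∈ O ↔ ‖x‖ ≤ 1) (φ : O →+* k)
    (hφ : ∀ x : O, φ x = 0 ↔ ‖(x : E)‖ < 1) :
    ∃ τ : G →* GL (Fin n) k, IsOpen (τ.ker : Set G) ∧ ∀ g, ∃ X : Matrix (Fin n) (Fin n) O,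
      (W g : Matrix (Fin n) (Fin n) E) = X.map O.subtype ∧
      (τ g : Matrix (Fin n) (Fin n) k) = X.map φ := by
  classical
  let X : G → Matrix (Fin n) (Fin n) O := fun g =>
    Matrix.of fun i j => ⟨(W g : Matrix (Fin n) (Fin n) E) i j, (hO _).2 (hi g i j)⟩
  have hX : ∀ g, (X g).map O.subtype = (W g : Matrix (Fin n) (Fin n) E) := fun g => rfl
  have hinj : ∀ Y Z : Matrix (Fin n) (Fin n) O, Y.map O.subtype = Z.map O.subtype → Y = Z :=
    fun Y Z h => Matrix.map_injective Subtype.val_injective h
  let F : G →* Matrix (Fin n) (Fin n) O :=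
    { toFun := X
      map_one' := by
        apply hinj
        rw [hX, map_one, Matrix.map_one _ (map_zero _) (map_one _)]
        rfl
      map_mul' := by
        intro a b
        apply hinj
        rw [hX, map_mul, Matrix.map_mul, hX, hX]
        rfl }
  have hF : ∀ g, F g = X g := fun g => rfl
  let τ : G →* GL (Fin n) k :=
    MonoidHom.toHomUnits ((φ.mapMatrix : Matrix (Fin n) (Fin n) O →+*
      Matrix (Fin n) (Fin n) k).toMonoidHom.comp F)
  have hτ : ∀ g, (τ g : Matrix (Fin n) (Fin n) k) = (X g).map φ := fun g => rfl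
  refine ⟨τ, ?_, fun g => ⟨X g, (hX g).symm, hτ g⟩⟩
  have hker : (τ.ker : Set G) = ⋂ i : Fin n, ⋂ j : Fin n,
      {g | ‖(W g : Matrix (Fin n) (Fin n) E) i j - (1 : Matrix (Fin n) (Fin n) E) i j‖ < 1} := by
    ext g
    simp only [SetLike.mem_coe, MonoidHom.mem_ker, Set.mem_iInter]
    have h1 : ∀ i j, φ (X g i j - (1 : Matrix (Fin n) (Fin n) O) i j) = 0 ↔
        ‖(W g : Matrix (Fin n) (Fin n) E) i j - (1 : Matrix (Fin n) (Fin n) E) i j‖ < 1 := by
      intro i j
      rw [hφ]
      have h2 : ((X g i j - (1 : Matrix (Fin n) (Fin n) O) i j : O) : E) =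
          (W g : Matrix (Fin n) (Fin n) E) i j - (1 : Matrix (Fin n) (Fin n) E) i j := by
        rw [AddSubgroupClass.coe_sub]
        congr 1
        by_cases hij : i = j
        · subst hij
          rw [Matrix.one_apply_eq, Matrix.one_apply_eq]
          rfl
        · rw [Matrix.one_apply_ne hij, Matrix.one_apply_ne hij]
          rfl
      rw [h2]
    have h3 : ∀ i j, φ ((1 : Matrix (Fin n) (Fin n) O) i j) = (1 : Matrix (Fin n) (Fin n) k) i j := by
      intro i j
      by_cases hij : i = j
      · subst hij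
        rw [Matrix.one_apply_eq, Matrix.one_apply_eq, map_one]
      · rw [Matrix.one_apply_ne hij, Matrix.one_apply_ne hij, map_zero]
    constructor
    · intro h i j
      refine (h1 i j).1 ?_
      rw [map_sub, h3, sub_eq_zero]
      have h4 : (τ g : Matrix (Fin n) (Fin n) k) = 1 := by rw [h]; rfl
      rw [hτ] at h4
      exact congrFun (congrFun h4 i) j
    · intro h
      apply Units.ext
      rw [hτ]
      ext i j
      have h5 := (h1 i j).2 (h i j)
      rw [map_sub, h3, sub_eq_zero] at h5
      exact h5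
  rw [hker]
  refine isOpen_iInter_of_finite fun i => isOpen_iInter_of_finite fun j => ?_
  refine isOpen_lt ?_ continuous_const
  refine Continuous.norm (Continuous.sub ?_ continuous_const)
  have h6 : Continuous fun g => (W g : Matrix (Fin n) (Fin n) E) :=
    (Units.continuous_val : Continuous
      (Units.val : (Matrix (Fin n) (Fin n) E)ˣ → Matrix (Fin n) (Fin n) E)).comp hW
  exact h6.matrix_elem i j

end Pool.Agent.Helper37.Ff
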