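import Pool.Agent.Helper37.Ff.EvB

/-!
# Project FRF (MP_6cbef8_nt), module RtU: roots of unity in fields of bounded degree

PLAN. Uses the statements of module EvB. Put `D = n ^ 2 * d` (or anything `≥` the degree below) and `w = (2 * D + 2)!`.
(1) If `ζ` in an extension of `ℚ` (characteristic zero) has order `N` and degree `≤ D` over `ℚ`, then `N ∣ w`: `φ(N) ≤ D`
(`IsPrimitiveRoot.totient_le_degree_minpoly`); for a prime `q` and `q ^ a ∣ N`, `a ≥ 1`, exactly dividing, `φ(q ^ a) ≤ φ(N)`
(`Nat.totient_dvd_of_dvd` and positivity) and `q ^ a ≤ 2 * φ(q ^ a)`, so `q ^ a ≤ 2 * D`, `q ^ a ∣ w` (`Nat.dvd_factorial`), and `N` is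
the product of its maximal prime powers (`Nat.dvd_iff_prime_pow_dvd_dvd`-style lemma, or
`Nat.factorization_prime_le_iff_dvd`).
(2) Let `K'` be the algebraic closure of `M`; `ne (A ^ e)` is the number of the `x ^ e`, `x ∈ sp (A.map ..)` (`sp_pow`). The map
`z ↦ z ^ N` sends the set of the `x ^ w` onto that of the `x ^ (w * N)`; it is injective: `x ^ (w * N) = y ^ (w * N)`, `y ≠ 0` (if `y = 0`
then `x = 0`), so `ζ = x / y` is a root of unity of `M(x, y)`, which has degree `≤ n ^ 2` over `M` (`x`, `y` are roots of a monic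
polynomial of degree `n` over `M`: `IntermediateField.adjoin.finrank`, `minpoly` divides the characteristic polynomial; degree of
`M⟮x⟯ ⊔ M⟮y⟯` at most the product: `IntermediateField.finrank_sup_le`), so `ζ` has degree `≤ n ^ 2 * [M : ℚ]` over `ℚ`
(`minpoly ℚ ζ` has degree at most the degree over `ℚ` of a finite extension containing `ζ`), and `ζ ^ w = 1`.
-/

set_option autoImplicit false

namespace Pool.Agent.Helper37.Ff

private theorem dvd_fact (D m : ℕ) (hm : 0 < m) (h : Nat.totient m ≤ D) :
    m ∣ (2 * D + 2).factorial := by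
  rw [Nat.dvd_iff_prime_pow_dvd_dvd]
  intro q a hq hqa
  rcases Nat.eq_zero_or_pos a with ha | ha
  · subst ha; simp
  have h1 : Nat.totient (q ^ a) ≤ Nat.totient m :=
    Nat.le_of_dvd (Nat.totient_pos.2 hm) (Nat.totient_dvd_of_dvd hqa)
  have h2 : q ^ a ≤ 2 * Nat.totient (q ^ a) := by
    rw [Nat.totient_prime_pow hq ha]
    have h3 : q ^ a = q ^ (a - 1) * q := by
      rw [← pow_succ]; congr 1; omega
    have h4 : q ≤ 2 * (q - 1) := by have := hq.two_le; omega
    calc q ^ a = q ^ (a - 1) * q := h3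
      _ ≤ q ^ (a - 1) * (2 * (q - 1)) := Nat.mul_le_mul_left _ h4
      _ = 2 * (q ^ (a - 1) * (q - 1)) := by ring
  exact Nat.dvd_factorial (pow_pos hq.pos a) (by omega)

private theorem pow_eq_one {F : Type*} [Field F] [CharZero F] (D : ℕ) (ζ : F)
    (hd : (minpoly ℚ ζ).natDegree ≤ D) (N : ℕ) (hN : 0 < N) (h : ζ ^ N = 1) :
    ζ ^ (2 * D + 2).factorial = 1 := by
  have hfin : IsOfFinOrder ζ := isOfFinOrder_iff_pow_eq_one.2 ⟨N, hN, h⟩
  have hpos : 0 < orderOf ζ := hfin.orderOf_pos
  have hpr : IsPrimitiveRoot ζ (orderOf ζ) := IsPrimitiveRoot.orderOf ζ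
  have h1 : Nat.totient (orderOf ζ) ≤ D := by
    have := Polynomial.cyclotomic_eq_minpoly_rat hpr hpos
    rw [← this, Polynomial.natDegree_cyclotomic] at hd
    exact hd
  exact orderOf_dvd_iff_pow_eq_one.1 (dvd_fact D _ hpos h1)

private theorem natDegree_div {M K : Type*} [Field M] [Field K] [CharZero K] [Algebra M K]
    [NumberField M] (n d : ℕ) (hd : Module.finrank ℚ M ≤ d) (p : Polynomial M) (hp : p.Monic)
    (hpn : p.natDegree = n) (x y : K) (hx : Polynomial.aeval x p = 0)
    (hy : Polynomial.aeval y p = 0) :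
    (minpoly ℚ (x / y)).natDegree ≤ n ^ 2 * d := by
  have hxi : IsIntegral M x := ⟨p, hp, hx⟩
  have hyi : IsIntegral M y := ⟨p, hp, hy⟩
  have hx1 : Module.finrank M (IntermediateField.adjoin M {x}) ≤ n := by
    rw [IntermediateField.adjoin.finrank hxi, ← hpn]
    exact Polynomial.natDegree_le_of_dvd (minpoly.dvd M x hx) hp.ne_zero
  have hy1 : Module.finrank M (IntermediateField.adjoin M {y}) ≤ n := by
    rw [IntermediateField.adjoin.finrank hyi, ← hpn]
    exact Polynomial.natDegree_le_of_dvd (minpoly.dvd M y hy) hp.ne_zero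
  haveI := IntermediateField.adjoin.finiteDimensional hxi
  haveI := IntermediateField.adjoin.finiteDimensional hyi
  set E : IntermediateField M K :=
    IntermediateField.adjoin M {x} ⊔ IntermediateField.adjoin M {y} with hE
  have hEn : Module.finrank M E ≤ n ^ 2 := by
    refine (IntermediateField.finrank_sup_le _ _).trans ?_
    rw [sq]
    exact Nat.mul_le_mul hx1 hy1
  haveI : FiniteDimensional M E := IntermediateField.finiteDimensional_sup _ _
  haveI : FiniteDimensional ℚ E := FiniteDimensional.trans ℚ M E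
  have hxE : x ∈ E := (le_sup_left : _ ≤ E) (IntermediateField.mem_adjoin_simple_self M x)
  have hyE : y ∈ E := (le_sup_right : _ ≤ E) (IntermediateField.mem_adjoin_simple_self M y)
  set z : E := ⟨x / y, div_mem hxE hyE⟩ with hz
  have h1 : minpoly ℚ (x / y) = minpoly ℚ z :=
    minpoly.algebraMap_eq (B := E) (B' := K) (algebraMap E K).injective z
  rw [h1]
  refine (minpoly.natDegree_le z).trans ?_
  rw [← Module.finrank_mul_finrank ℚ M E, mul_comm]
  exact Nat.mul_le_mul hEn hd

theorem ne_stable (n d : ℕ) : ∃ w : ℕ, 0 < w ∧ ∀ (M : Type) [Field M] [NumberField M],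
    Module.finrank ℚ M ≤ d → ∀ (A : Matrix (Fin n) (Fin n) M) (N : ℕ), 0 < N →
      ne (A ^ (w * N)) = ne (A ^ w) := by
  classical
  refine ⟨(2 * (n ^ 2 * d) + 2).factorial, Nat.factorial_pos _, ?_⟩
  set w := (2 * (n ^ 2 * d) + 2).factorial with hw
  have hw0 : 0 < w := Nat.factorial_pos _
  intro M _ _ hd A N hN
  set K := AlgebraicClosure M with hK
  haveI : CharZero K := charZero_of_injective_algebraMap (algebraMap M K).injective
  set B : Matrix (Fin n) (Fin n) K := A.map (algebraMap M K) with hB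
  have key : ∀ e : ℕ, ne (A ^ e) = ((sp B).image (fun x => x ^ e)).card := by
    intro e
    have h1 : (A ^ e).map (algebraMap M K) = B ^ e := by
      rw [hB]
      exact Matrix.map_pow A (algebraMap M K) e
    have h2 : sp (B ^ e) = (sp B).image (fun x => x ^ e) := by
      ext y
      rw [sp_pow, Finset.mem_image]
    unfold ne
    rw [h1, h2]
  rw [key, key]
  have h3 : (sp B).image (fun x => x ^ (w * N)) =
      ((sp B).image (fun x => x ^ w)).image (fun z => z ^ N) := by
    rw [Finset.image_image]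
    refine Finset.image_congr ?_
    intro x _
    simp [pow_mul]
  rw [h3]
  refine Finset.card_image_of_injOn ?_
  intro u hu v hv huv
  simp only [Finset.coe_image, Set.mem_image, Finset.mem_coe] at hu hv
  obtain ⟨x, hx, rfl⟩ := hu
  obtain ⟨y, hy, rfl⟩ := hv
  have huv' : (x ^ w) ^ N = (y ^ w) ^ N := huv
  show x ^ w = y ^ w
  rcases eq_or_ne y 0 with hy0 | hy0
  · subst hy0
    have h4 : x = 0 := by
      rw [zero_pow hw0.ne', zero_pow hN.ne'] at huv'
      exact pow_eq_zero_iff hw0.ne' |>.1 (pow_eq_zero_iff hN.ne' |>.1 huv')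
    rw [h4]
  have hroot : ∀ z ∈ sp B, Polynomial.aeval z A.charpoly = 0 := by
    intro z hz
    unfold sp at hz
    rw [Multiset.mem_toFinset, Polynomial.mem_roots (Matrix.charpoly_monic B).ne_zero] at hz
    have h5 : B.charpoly = A.charpoly.map (algebraMap M K) := by
      rw [hB]; exact Matrix.charpoly_map A (algebraMap M K)
    rw [h5] at hz
    rw [Polynomial.aeval_def, Polynomial.eval₂_eq_eval_map]
    exact hz
  have hdeg : (minpoly ℚ (x / y)).natDegree ≤ n ^ 2 * d := by
    refine natDegree_div n d hd A.charpoly (Matrix.charpoly_monic A) ?_ x y (hroot x hx)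
      (hroot y hy)
    simpa using Matrix.charpoly_natDegree_eq_dim A
  have h6 : (x / y) ^ (w * N) = 1 := by
    rw [div_pow, pow_mul, pow_mul, huv', div_self]
    exact pow_ne_zero _ (pow_ne_zero _ hy0)
  have h7 : (x / y) ^ w = 1 := pow_eq_one (n ^ 2 * d) (x / y) hdeg (w * N)
    (Nat.mul_pos hw0 hN) h6
  rw [div_pow] at h7
  exact (div_eq_one_iff_eq (pow_ne_zero _ hy0)).1 h7

end Pool.Agent.Helper37.Ff
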