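import Pool.Agent.Helper37.Ff.Hank

/-!
# Project FRF (MP_6cbef8_nt), module Semi: the number of eigenvalues is lower semicontinuous
-/

set_option autoImplicit false

namespace Pool.Agent.Helper37.Ff

private theorem semi_rank_open {E : Type*} [NontriviallyNormedField E] [CompleteSpace E] {n : ℕ}
    (m : ℕ) : IsOpen {H : Matrix (Fin n) (Fin n) E | m ≤ H.rank} := by
  let L : Matrix (Fin n) (Fin n) E →ₗ[E] ((Fin n → E) →L[E] (Fin n → E)) :=
    (LinearMap.toContinuousLinearMap (𝕜 := E) (E := Fin n → E) (F' := Fin n → E)).toLinearMap ∘ₗ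
      (Matrix.toLin' (R := E) (m := Fin n) (n := Fin n)).toLinearMap
  have hL : Continuous L := L.continuous_of_finiteDimensional
  have h := (isOpen_setOfPred_nat_le_rank (𝕜 := E) (E := Fin n → E) (F := Fin n → E) m).preimage hL
  have he : {H : Matrix (Fin n) (Fin n) E | m ≤ H.rank} =
      L ⁻¹' {f : (Fin n → E) →L[E] (Fin n → E) |
        (m : Cardinal) ≤ (f : (Fin n → E) →ₗ[E] (Fin n → E)).rank} := by
    ext H
    have h1 : ((L H : (Fin n → E) →L[E] (Fin n → E)) : (Fin n → E) →ₗ[E] (Fin n → E)) =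
        H.mulVecLin := rfl
    show m ≤ H.rank ↔ (m : Cardinal) ≤
      ((L H : (Fin n → E) →L[E] (Fin n → E)) : (Fin n → E) →ₗ[E] (Fin n → E)).rank
    rw [h1, LinearMap.rank, ← Module.finrank_eq_rank, Nat.cast_le]
    rfl
  rw [he]
  exact h

private theorem semi_ne_le {K : Type*} [Field K] {n : ℕ} (A : Matrix (Fin n) (Fin n) K) :
    ne A ≤ n := by
  classical
  unfold ne sp
  refine (Multiset.toFinset_card_le _).trans ((Polynomial.card_roots' _).trans ?_)
  rw [Matrix.charpoly_natDegree_eq_dim, Fintype.card_fin]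

theorem ne_open {X : Type*} [TopologicalSpace X] {E : Type*} [NontriviallyNormedField E]
    [CompleteSpace E] [CharZero E] {n : ℕ} (A : X → Matrix (Fin n) (Fin n) E) (hA : Continuous A)
    (m : ℕ) : IsOpen {x | m ≤ ne (A x)} := by
  have hc : Continuous fun x => (Matrix.of fun i j : Fin n => (A x ^ ((i : ℕ) + (j : ℕ))).trace) := by
    refine continuous_matrix fun i j => ?_
    exact (hA.pow ((i : ℕ) + (j : ℕ))).matrix_trace
  have h := (semi_rank_open (E := E) (n := n) m).preimage hc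
  have he : {x | m ≤ ne (A x)} =
      (fun x => (Matrix.of fun i j : Fin n => (A x ^ ((i : ℕ) + (j : ℕ))).trace)) ⁻¹'
        {H : Matrix (Fin n) (Fin n) E | m ≤ H.rank} := by
    ext x
    show m ≤ ne (A x) ↔ m ≤ hr (A x)
    rw [hr_eq_ne fun k hk _ => Nat.cast_ne_zero.2 hk.ne']
  rw [he]
  exact h

/-- the choice of an element with many eigenvalues -/
theorem exists_max {X : Type*} [TopologicalSpace X] {E : Type*} [NontriviallyNormedField E]
    [CompleteSpace E] [CharZero E] {n : ℕ} (A : X → Matrix (Fin n) (Fin n) E) (hA : Continuous A)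
    (w : ℕ) (U : Set X) (hU : IsOpen U) (hne : U.Nonempty) (R : Set X) (hR : Dense R) :
    ∃ r ∈ R ∩ U, ∀ x ∈ U, ne (A x ^ w) ≤ ne (A r ^ w) ∧
      (ne (A x ^ w) = ne (A r ^ w) → ne (A x) ≤ ne (A r)) := by
  have hb : BddAbove ((fun x => ne (A x ^ w) * (n + 1) + ne (A x)) '' U) := by
    refine ⟨n * (n + 1) + n, ?_⟩
    rintro _ ⟨x, -, rfl⟩
    exact Nat.add_le_add (Nat.mul_le_mul_right _ (semi_ne_le _)) (semi_ne_le _)
  obtain ⟨x₀, hx₀, hs⟩ := Nat.sSup_mem (hne.image _) hb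
  have hm : ∀ x ∈ U, ne (A x ^ w) * (n + 1) + ne (A x) ≤ ne (A x₀ ^ w) * (n + 1) + ne (A x₀) := by
    intro x hx
    have h := le_csSup hb (Set.mem_image_of_mem _ hx)
    rw [← hs] at h
    exact h
  have h1 : ∀ x ∈ U, ne (A x ^ w) ≤ ne (A x₀ ^ w) := by
    intro x hx
    have h := hm x hx
    have h2 := semi_ne_le (A x₀)
    by_contra hlt
    have h3 : (ne (A x₀ ^ w) + 1) * (n + 1) ≤ ne (A x ^ w) * (n + 1) :=
      Nat.mul_le_mul_right _ (by omega)
    have h4 : (ne (A x₀ ^ w) + 1) * (n + 1) = ne (A x₀ ^ w) * (n + 1) + (n + 1) := by ring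
    omega
  obtain ⟨r, hrV, hrR⟩ := hR.exists_mem_open
    ((hU.inter (ne_open A hA (ne (A x₀)))).inter
      (ne_open (fun x => A x ^ w) (hA.pow w) (ne (A x₀ ^ w))))
    ⟨x₀, ⟨hx₀, le_refl (ne (A x₀))⟩, le_refl (ne (A x₀ ^ w))⟩
  obtain ⟨⟨hrU, ha⟩, hbw⟩ := hrR
  refine ⟨r, ⟨hrV, hrU⟩, fun x hx => ⟨(h1 x hx).trans hbw, fun he => ?_⟩⟩
  have h5 : ne (A x ^ w) = ne (A x₀ ^ w) := le_antisymm (h1 x hx) (he ▸ hbw)
  have h6 := hm x hx
  rw [h5] at h6
  exact (Nat.le_of_add_le_add_left h6).trans ha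

end Pool.Agent.Helper37.Ff
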