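import Pool.Agent.Helper37.Ad.Defs

/-!
# Project FRF (MP_6cbef8_nt), module VU: an open normal subgroup has full image modulo large places

The elementary matrices are in the image (powers of unipotent elements), and they generate `SL_2(k)`.
-/

set_option autoImplicit false

namespace Pool.Agent.Helper37.Ff

open Pool.Agent.Helper37.Ad

private theorem vux_upow {R : Type*} [CommRing R] (a : R) (n : ℕ) :
    (!![1, a; 0, 1] : Matrix (Fin 2) (Fin 2) R) ^ n = !![1, n * a; 0, 1] := by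
  induction n with
  | zero =>
    rw [pow_zero, Nat.cast_zero, zero_mul, Matrix.one_fin_two]
  | succ n ih =>
    rw [pow_succ, ih, Matrix.mul_fin_two]
    congr 1
    simp
    ring

private theorem vux_lpow {R : Type*} [CommRing R] (a : R) (n : ℕ) :
    (!![1, 0; a, 1] : Matrix (Fin 2) (Fin 2) R) ^ n = !![1, 0; n * a, 1] := by
  induction n with
  | zero =>
    rw [pow_zero, Nat.cast_zero, zero_mul, Matrix.one_fin_two]
  | succ n ih =>
    rw [pow_succ, ih, Matrix.mul_fin_two]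
    congr 1
    simp
    ring

private theorem vux_gen {k : Type*} [Field k] (P : Matrix (Fin 2) (Fin 2) k → Prop)
    (hm : ∀ A B, P A → P B → P (A * B)) (hu : ∀ a, P !![1, a; 0, 1]) (hl : ∀ a, P !![1, 0; a, 1])
    (A : Matrix (Fin 2) (Fin 2) k) (hA : A.det = 1) : P A := by
  have h1 : ∀ a b c d : k, a * d - b * c = 1 → c ≠ 0 → P !![a, b; c, d] := by
    intro a b c d h hc
    have h2 : !![a, b; c, d] = !![1, (a - 1) / c; 0, 1] * !![1, 0; c, 1] * !![1, (d - 1) / c; 0, 1] := by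
      rw [Matrix.mul_fin_two, Matrix.mul_fin_two]
      have e1 : 1 * 1 + (a - 1) / c * c = a := by
        rw [div_mul_cancel₀ _ hc]
        ring
      have e2 : 0 * 1 + 1 * c = c := by ring
      have e3 : (1 * 0 + (a - 1) / c * 1) = (a - 1) / c := by ring
      have e4 : (0 * 0 + 1 * 1 : k) = 1 := by ring
      rw [e1, e2, e3, e4]
      have e5 : a * 1 + (a - 1) / c * 0 = a := by ring
      have e6 : c * 1 + 1 * 0 = c := by ring
      have e7 : c * ((d - 1) / c) + 1 * 1 = d := by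
        rw [mul_div_cancel₀ _ hc]
        ring
      have e8 : a * ((d - 1) / c) + (a - 1) / c * 1 = b := by
        field_simp
        linear_combination h
      rw [e5, e6, e7, e8]
    rw [h2]
    exact hm _ _ (hm _ _ (hu _) (hl _)) (hu _)
  obtain ⟨a, b, c, d, rfl⟩ : ∃ a b c d, A = !![a, b; c, d] :=
    ⟨A 0 0, A 0 1, A 1 0, A 1 1, Matrix.eta_fin_two A⟩
  rw [Matrix.det_fin_two_of] at hA
  by_cases hc : c = 0
  · subst hc
    have ha : a ≠ 0 := by
      rintro rfl
      rw [zero_mul, mul_zero, sub_zero] at hA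
      exact zero_ne_one hA
    have h2 : !![a, b; 0, d] = !![1, 0; -1, 1] * !![a, b; a, b + d] := by
      rw [Matrix.mul_fin_two]
      have e1 : 1 * a + 0 * a = a := by ring
      have e2 : 1 * b + 0 * (b + d) = b := by ring
      have e3 : -1 * a + 1 * a = 0 := by ring
      have e4 : -1 * b + 1 * (b + d) = d := by ring
      rw [e1, e2, e3, e4]
    rw [h2]
    exact hm _ _ (hl _) (h1 a b a (b + d) (by linear_combination hA) ha)
  · exact h1 a b c d hA hc

theorem residual_full {Λ : Type*} {E : Λ → Type*} [∀ v, NontriviallyNormedField (E v)]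
    [∀ v, IsUltrametricDist (E v)] {G : Type*} [Group G] (H : Subgroup G)
    (V : ∀ v, G →* GL (Fin 2) (E v)) (hH : AdelicallyOpen H V) :
    ∃ S : Finset Λ, ∀ v ∉ S, ∀ U : Subgroup G, U.Normal → U.index ≠ 0 →
      ‖((U.index : ℕ) : E v)‖ = 1 →
      ∀ {k : Type*} [Field k] (O : Subring (E v)) (φ : O →+* k), (∀ x : E v, x ∈ O ↔ ‖x‖ ≤ 1) →
        Function.Surjective φ → ∀ s : Matrix.SpecialLinearGroup (Fin 2) k,
          ∃ h ∈ H ⊓ U, ∃ X : Matrix (Fin 2) (Fin 2) O,
            (V v h : Matrix (Fin 2) (Fin 2) (E v)) = X.map O.subtype ∧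
            X.map φ = (s : Matrix (Fin 2) (Fin 2) k) := by
  classical
  obtain ⟨S, ε, hε, hop⟩ := hH
  refine ⟨S, fun v hv U hU hU0 hm k _ O φ hO hφ s => ?_⟩
  have hone : ∀ (w : Λ) (i j : Fin 2), ‖(1 : Matrix (Fin 2) (Fin 2) (E w)) i j‖ ≤ 1 := by
    intro w i j
    by_cases hij : i = j
    · rw [hij, Matrix.one_apply_eq, norm_one]
    · rw [Matrix.one_apply_ne hij, norm_zero]
      exact zero_le_one
  have hA : ∀ Y : Matrix.SpecialLinearGroup (Fin 2) (E v),
      (∀ i j, ‖(Y : Matrix (Fin 2) (Fin 2) (E v)) i j‖ ≤ 1) →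
      ∃ g ∈ H, (V v g : Matrix (Fin 2) (Fin 2) (E v)) = (Y : Matrix (Fin 2) (Fin 2) (E v)) := by
    intro Y hY
    obtain ⟨g, hg, hg2⟩ := hop (Function.update (fun _ => 1) v Y) (by
      intro w i j
      by_cases hw : w = v
      · subst hw
        rw [Function.update_self]
        exact hY i j
      · rw [Function.update_of_ne hw]
        exact hone w i j) (by
      intro w hw i j
      have hwv : w ≠ v := by
        rintro rfl
        exact hv hw
      rw [Function.update_of_ne hwv, Matrix.SpecialLinearGroup.coe_one, sub_self, norm_zero]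
      exact hε)
    refine ⟨g, hg, ?_⟩
    have h1 := hg2 v
    rw [Function.update_self] at h1
    exact h1
  have hm0 : ((U.index : ℕ) : E v) ≠ 0 := by
    intro h0
    rw [h0, norm_zero] at hm
    exact zero_ne_one hm
  have hdiv : ∀ x : E v, ‖x‖ ≤ 1 → ‖x / ((U.index : ℕ) : E v)‖ ≤ 1 := by
    intro x hx
    rw [norm_div, hm, div_one]
    exact hx
  have hB : ∀ Y : Matrix.SpecialLinearGroup (Fin 2) (E v),
      (∀ i j, ‖(Y : Matrix (Fin 2) (Fin 2) (E v)) i j‖ ≤ 1) →
      ∃ h ∈ H ⊓ U, (V v h : Matrix (Fin 2) (Fin 2) (E v)) =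
        (Y : Matrix (Fin 2) (Fin 2) (E v)) ^ U.index := by
    intro Y hY
    obtain ⟨g, hg, hg2⟩ := hA Y hY
    refine ⟨g ^ U.index, ⟨H.pow_mem hg _, U.pow_index_mem g⟩, ?_⟩
    rw [map_pow, Units.val_pow_eq_pow_val, hg2]
  have hup : ∀ x : E v, ‖x‖ ≤ 1 → ∃ h ∈ H ⊓ U,
      (V v h : Matrix (Fin 2) (Fin 2) (E v)) = !![1, x; 0, 1] := by
    intro x hx
    obtain ⟨h, hh, hh2⟩ := hB ⟨!![1, x / ((U.index : ℕ) : E v); 0, 1], by
      rw [Matrix.det_fin_two_of]
      ring⟩ (by
      intro i j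
      fin_cases i <;> fin_cases j
      · exact norm_one.le
      · exact hdiv x hx
      · exact norm_zero.le.trans zero_le_one
      · exact norm_one.le)
    refine ⟨h, hh, hh2.trans ?_⟩
    show (!![1, x / ((U.index : ℕ) : E v); 0, 1] : Matrix (Fin 2) (Fin 2) (E v)) ^ U.index = _
    rw [vux_upow, mul_div_cancel₀ _ hm0]
  have hlo : ∀ x : E v, ‖x‖ ≤ 1 → ∃ h ∈ H ⊓ U,
      (V v h : Matrix (Fin 2) (Fin 2) (E v)) = !![1, 0; x, 1] := by
    intro x hx
    obtain ⟨h, hh, hh2⟩ := hB ⟨!![1, 0; x / ((U.index : ℕ) : E v), 1], by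
      rw [Matrix.det_fin_two_of]
      ring⟩ (by
      intro i j
      fin_cases i <;> fin_cases j
      · exact norm_one.le
      · exact norm_zero.le.trans zero_le_one
      · exact hdiv x hx
      · exact norm_one.le)
    refine ⟨h, hh, hh2.trans ?_⟩
    show (!![1, 0; x / ((U.index : ℕ) : E v), 1] : Matrix (Fin 2) (Fin 2) (E v)) ^ U.index = _
    rw [vux_lpow, mul_div_cancel₀ _ hm0]
  refine vux_gen (fun M => ∃ h ∈ H ⊓ U, ∃ X : Matrix (Fin 2) (Fin 2) O,
    (V v h : Matrix (Fin 2) (Fin 2) (E v)) = X.map O.subtype ∧ X.map φ = M) ?_ ?_ ?_ _ s.det_coe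
  · rintro A B ⟨h, hh, X, hX, rfl⟩ ⟨h', hh', X', hX', rfl⟩
    refine ⟨h * h', mul_mem hh hh', X * X', ?_, ?_⟩
    · rw [map_mul, Units.val_mul, hX, hX', Matrix.map_mul]
    · rw [Matrix.map_mul]
  · intro a
    obtain ⟨x, rfl⟩ := hφ a
    obtain ⟨h, hh, hh2⟩ := hup (x : E v) ((hO _).1 x.2)
    refine ⟨h, hh, !![1, x; 0, 1], ?_, ?_⟩
    · rw [hh2]
      ext i j
      fin_cases i <;> fin_cases j <;> rfl
    · ext i j
      fin_cases i <;> fin_cases j
      · exact map_one φ
      · rfl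
      · exact map_zero φ
      · exact map_one φ
  · intro a
    obtain ⟨x, rfl⟩ := hφ a
    obtain ⟨h, hh, hh2⟩ := hlo (x : E v) ((hO _).1 x.2)
    refine ⟨h, hh, !![1, 0; x, 1], ?_, ?_⟩
    · rw [hh2]
      ext i j
      fin_cases i <;> fin_cases j <;> rfl
    · ext i j
      fin_cases i <;> fin_cases j
      · exact map_one φ
      · exact map_zero φ
      · rfl
      · exact map_one φ

end Pool.Agent.Helper37.Ff
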