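import Pool.Agent.Helper37.Ff.Bad
import Pool.Agent.Helper37.Ff.Semi
import Pool.Agent.Helper37.Ff.RtU
import Pool.Agent.Helper37.Ff.Hen
import Pool.Agent.Helper37.Ff.Dns
import Pool.Agent.Helper37.Ff.VU
import Pool.Agent.Helper37.Ff.Emb
import Pool.Agent.Helper37.Ff.Red
import Pool.Agent.Helper37.Ff.Alm
import Pool.Agent.Helper37.Ff.MnA
import Pool.Agent.Helper37.Ad.Main
import Pool.Agent.Helper37.Ad.Res

/-!
# Project FRF (MP_6cbef8_nt), module Mn: Frobenius fields, the main implication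

PLAN (see frf_plan.md). Uses the STATEMENTS of the modules of the project. Suppose no `v` is contained. By `Ad.adelic` (applied with
`D = {r | {v | ¬ Matches v r}.Finite}`) `AdelicallyOpen (commonKernel T) V`. Numbers: `w` of `ne_stable n [M : ℚ]`, `B` of
`bad_measure n w`. `C` = closure of the set of `OftenIn`, still contained in the closures (closed). `exists_coset μ C _ _ B` gives `U`, `g0`.
Choose `v0`; `exists_max` for `x ↦ T (ℓ v0) x`, the open set `{x | g0⁻¹ x ∈ U}` and the dense set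
`R = {r | Matches v0 r ∧ {v | ¬ Matches v r}.Finite}` gives `r1`. `A1 = cpn n (g r1)` over `𝓞 M` (companion matrix,
`NLL.charpoly_cpn`; `g r` is monic if `r` matches somewhere). `h` of `exists_embed M L`.
The place `v`: infinitely many `v` split `h * (g r1).map ..` (`Abundant`); finitely many `v` are excluded: `r1` does not match at `v`;
`ℓ v ≤ n`, `ℓ v < 3`, `ℓ v ∣ U.index` (finitely many primes, `hfin`); `v` in the set `S` of `residual_full`; the sets of `ne_almost` for `A1`,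
`A1 ^ w`, `A1 ^ (w * (w * U.index) * i)`, `0 < i ≤ n ^ 4`. `exists_residue` (Ad/Res) gives `O`, `k`, `φ`; `exists_reduction` gives
`τ` (for `baseChange (E v) (T (ℓ v))`) and `ρ` (for `V v`), with open kernels.
For `r` matching at `v`: over `O` the matrix `X` of `τ r` has `charpoly (X.map subtype) = (g r).map ..`. `ψ : 𝓞 M → O → k` the
reduction. `charpoly (τ r) = (g r).map ψ` (compare coefficients in `O`), so `ne ((τ r) ^ e) = ne ((cpn n (g r)) ^ e mapped by ψ)`
(`ne_congr`) and over `E v`, `M`, `E v0`: `ne ((T (ℓ v) r) ^ e) = ne ((T (ℓ v0) r) ^ e)` if `r` matches at `v0` too (both charpolys are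
images of `g r`; `ne_map`, `ne_congr`).
So `ne (τ r1 ^ e) = ne (T (ℓ v0) r1 ^ e)` for the `e` above (`≤`: `ne_red`; `≥`: `v` not excluded), and by `ne_stable` the numbers for
`e = w * (w * U.index) * i` are that for `w`. `(τ r1).charpoly` splits: `(g r1)` splits over `E v`, its roots have norm `≤ 1`, so it
is a product of linear factors over `O`, mapped to `k`. For `x` with `g0⁻¹ x ∈ U`: there is `r` matching at `v`, `v0`
with `g0⁻¹ r ∈ U` and `τ r = τ x` (density, `τ.ker` open), and `ne (τ x ^ w) ≤ ne (T (ℓ v) r ^ w) = ne (T (ℓ v0) r ^ w) ≤ ne (T (ℓ v0) r1 ^ w)`.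
`bad_measure` applies; `Bd` is open and meets `C` (`exists_coset`), so it contains an `r` matching at `v`, `v0` with
`FieldIn L (f r) (g r)`. `ne (T (ℓ v0) r ^ w) ≥ ne (τ r ^ w) = ne (T (ℓ v0) r1 ^ w)`, so equality by the choice of `r1`, so
`ne (T (ℓ v) r) = ne (T (ℓ v0) r) ≤ ne (T (ℓ v0) r1) = ne (τ r)`. `splits_of_residues` for the matrix over `O` of `baseChange (T (ℓ v)) r`: `(g r)`
splits over `E v`. `splits_of_fieldIn`: `f r` splits over `E v`, i.e. `(V v r).charpoly` splits, the roots are integral, so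
`(ρ r).charpoly` splits over `k`, contradiction with `r ∈ Bd`.
-/

set_option autoImplicit false

open NumberField Polynomial MeasureTheory

namespace Pool.Agent.Helper37.Ff

open Pool.Agent.Helper37.Af Pool.Agent.Helper37.Fd Pool.Agent.Helper37.Ad Pool.Agent.Helper37.Ub
  Pool.Agent.NLL

/-- elements of norm at most one -/
private theorem norm_int_le {M : Type*} [Field M] [NumberField M] {E : Type*}
    [NontriviallyNormedField E] [IsUltrametricDist E] (j : M →+* E) (x : 𝓞 M) :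
    ‖j (x : M)‖ ≤ 1 := by
  have h1 : IsIntegral ℤ (x : M) := RingOfIntegers.isIntegral_coe x
  have h2 : IsIntegral ℤ (j (x : M)) := h1.map j.toIntAlgHom
  have h3 : IsIntegral (NormedField.valuation (K := E)).integer (j (x : M)) := h2.tower_top
  have h4 := (Valuation.integer.integers (NormedField.valuation (K := E))).mem_of_integral h3
  rw [Valuation.mem_integer_iff, NormedField.valuation_apply] at h4
  exact_mod_cast h4

private theorem bc_cont' {p : ℕ} [Fact p.Prime] (E : Type*) [NontriviallyNormedField E]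
    [NormedAlgebra ℚ_[p] E] {G : Type*} [Group G] [TopologicalSpace G] {n : ℕ}
    {T : G →* GL (Fin n) ℚ_[p]} (hT : Continuous T) : Continuous (baseChange E T) := by
  have h1 : Continuous fun g => (T g : Matrix (Fin n) (Fin n) ℚ_[p]) :=
    Units.continuous_val.comp hT
  have h2 : Continuous fun g =>
      (((T g)⁻¹ : GL (Fin n) ℚ_[p]) : Matrix (Fin n) (Fin n) ℚ_[p]) :=
    Units.continuous_coe_inv.comp hT
  refine Units.continuous_iff.mpr ⟨?_, ?_⟩
  · refine continuous_matrix fun a b => ?_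
    exact (continuous_algebraMap ℚ_[p] E).comp ((continuous_apply_apply a b).comp h1)
  · refine continuous_matrix fun a b => ?_
    exact (continuous_algebraMap ℚ_[p] E).comp ((continuous_apply_apply a b).comp h2)

/-- the reduction of a matching element -/
private theorem charpoly_red {M : Type*} [Field M] {E k : Type*} [Field E] [Field k]
    (ι : 𝓞 M →+* E) {O : Subring E} (ιO : 𝓞 M →+* O) (hι : ∀ x, ((ιO x : O) : E) = ι x)
    (π : O →+* k) {n : ℕ} (X : Matrix (Fin n) (Fin n) O) (p : (𝓞 M)[X])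
    (h : (X.map O.subtype).charpoly = p.map ι) :
    X.charpoly = p.map ιO ∧ (X.map π).charpoly = p.map (π.comp ιO) := by
  have h1 : X.charpoly = p.map ιO := by
    apply Polynomial.map_injective O.subtype O.subtype_injective
    rw [Polynomial.map_map, ← Matrix.charpoly_map]
    have h2 : (O.subtype.comp ιO) = ι := RingHom.ext hι
    rw [h2]
    exact h
  refine ⟨h1, ?_⟩
  rw [← Polynomial.map_map, ← h1, ← Matrix.charpoly_map]

theorem contained_of_often {M : Type} [Field M] [NumberField M] {Λ : Type} [Nonempty Λ]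
    (ℓ : Λ → ℕ) [∀ v, Fact (ℓ v).Prime] (hfin : ∀ l, {v | ℓ v = l}.Finite)
    (E : Λ → Type) [∀ v, NontriviallyNormedField (E v)] [∀ v, IsUltrametricDist (E v)]
    [∀ v, NormedAlgebra ℚ_[ℓ v] (E v)] [∀ v, FiniteDimensional ℚ_[ℓ v] (E v)] (a : ℕ)
    (ha : ∀ v, Module.finrank ℚ_[ℓ v] (E v) ≤ a) (j : ∀ v, M →+* E v) (habd : Abundant j)
    (F : Λ → Type) [∀ v, NontriviallyNormedField (F v)] [∀ v, IsUltrametricDist (F v)]
    [∀ v, NormedAlgebra ℚ_[ℓ v] (F v)] [∀ v, FiniteDimensional ℚ_[ℓ v] (F v)]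
    (φ : ∀ v, E v →ₐ[ℚ_[ℓ v]] F v)
    {G : Type} [Group G] [TopologicalSpace G] [IsTopologicalGroup G] [CompactSpace G]
    [TotallyDisconnectedSpace G] [MeasurableSpace G] [BorelSpace G] (μ : Measure G)
    [μ.IsHaarMeasure]
    (V : ∀ v, G →* GL (Fin 2) (E v)) (hV : ∀ v, Continuous (V v))
    (hVi : ∀ v x s t, ‖(V v x : Matrix (Fin 2) (Fin 2) (E v)) s t‖ ≤ 1)
    (hopen : AdelicallyOpen ⊤ V) {n : ℕ} (T : ∀ (l : ℕ) [Fact l.Prime], G →* GL (Fin n) ℚ_[l])
    (f g : G → (𝓞 M)[X]) (hT : IsSystem ℓ φ V T) (hD : AlmostMatching ℓ j V T f g)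
    (L : Type) [Field L] [Algebra M L] [FiniteDimensional M L]
    (hO : OftenIn ℓ j V T μ L f g) : ∃ v, ContainedAt ℓ φ V T v := by
  classical
  by_contra hnot
  have hA := adelic ℓ E j F φ V T f g hfin a ha hV hVi hT.continuous
    (fun l _ y s t => hT.integral l y s t) hopen hT.semisimple hT.generated
    {r | {v | ¬ Matches ℓ E j V T f g v r}.Finite}
    (fun Φ => (hD Φ).mono fun r hr => ⟨hr.2, hr.1⟩) (fun r hr => hr)
  have hH : AdelicallyOpen (commonKernel T) V := by
    by_contra h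
    exact hnot ((hA.out 2 0).1 h)
  obtain ⟨w, hw, hst⟩ := ne_stable n (Module.finrank ℚ M)
  obtain ⟨B, hB⟩ := bad_measure n w hw
  obtain ⟨C0, hC0, hC⟩ := hO
  obtain ⟨U, hUn, hUo, g0, hU⟩ := exists_coset μ (closure C0) isClosed_closure
    (fun h => hC0 (measure_mono_null subset_closure h)) B
  have hCc := fun Φ : Finset Λ => closure_minimal (hC Φ) isClosed_closure
  obtain ⟨v0⟩ := ‹Nonempty Λ›
  -- the coset
  let W0 : Set G := {x | g0⁻¹ * x ∈ U}
  have hW0 : IsOpen W0 := hUo.preimage (continuous_const.mul continuous_id)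
  have hg0 : g0 ∈ W0 := by
    show g0⁻¹ * g0 ∈ U
    rw [inv_mul_cancel]
    exact U.one_mem
  have hidx : U.index ≠ 0 := by
    have : Finite (G ⧸ U) := Subgroup.quotient_finite_of_isOpen U hUo
    have : U.FiniteIndex := Subgroup.finiteIndex_of_finite_quotient
    exact Subgroup.FiniteIndex.index_ne_zero
  -- the element r1
  let A0 : G → Matrix (Fin n) (Fin n) ℚ_[ℓ v0] :=
    fun x => (T (ℓ v0) x : Matrix (Fin n) (Fin n) ℚ_[ℓ v0])
  have hA0 : Continuous A0 := Units.continuous_val.comp (hT.continuous (ℓ v0))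
  obtain ⟨r1, ⟨hr1R, hr1U⟩, hmax⟩ := exists_max A0 hA0 w W0 hW0 ⟨g0, hg0⟩ _ (hD {v0})
  obtain ⟨hr1v0, hr1F⟩ := hr1R
  have hr1v0 : Matches ℓ E j V T f g v0 r1 := hr1v0 v0 (Finset.mem_singleton_self v0)
  obtain ⟨hg1m, hg1n⟩ := monic_of_matches ℓ E j V T f g v0 r1 hr1v0
  obtain ⟨h, hh0, hemb⟩ := exists_embed M L
  -- the place v
  have hab := habd (h * (g r1).map (algebraMap (𝓞 M) M))
    (mul_ne_zero hh0 (hg1m.map (algebraMap (𝓞 M) M)).ne_zero)
  obtain ⟨S, hS⟩ := residual_full (commonKernel T) V hH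
  have hF2 : {v | ℓ v ≤ n + 3 + U.index}.Finite := by
    refine Set.Finite.subset (Set.Finite.biUnion (Set.finite_Iic (n + 3 + U.index))
      fun l _ => hfin l) ?_
    intro v hv
    rw [Set.mem_iUnion₂]
    exact ⟨ℓ v, hv, rfl⟩
  let ex : Finset ℕ := insert 1 (insert w
    ((Finset.range (n ^ 4 + 1)).image fun i => w * (w * U.index) * i))
  have hF4 : (⋃ e ∈ ex, {v | ∃ (k : Type) (_ : Field k) (ψ : 𝓞 M →+* k),
      (∀ x : 𝓞 M, ψ x = 0 → ‖j v (x : M)‖ < 1) ∧
      ne ((cpn n (g r1) ^ e).map ψ) < ne ((cpn n (g r1) ^ e).map (algebraMap (𝓞 M) M))}).Finite :=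
    Set.Finite.biUnion ex.finite_toSet fun e _ => ne_almost ℓ hfin E j _
  obtain ⟨v, hvs, hvF⟩ := (hab.sdiff (((hr1F.union hF2).union S.finite_toSet).union hF4)).nonempty
  simp only [Set.mem_union, not_or, Set.mem_ofPred_eq, not_not] at hvF
  obtain ⟨⟨⟨hr1v, hvbig⟩, hvS⟩, hv4⟩ := hvF
  rw [not_le] at hvbig
  have hp : (ℓ v).Prime := Fact.out
  have hcop : U.index.Coprime (ℓ v) := by
    rw [Nat.coprime_comm, hp.coprime_iff_not_dvd]
    intro hdvd
    have := Nat.le_of_dvd (Nat.pos_of_ne_zero hidx) hdvd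
    omega
  have hnorm : ‖((U.index : ℕ) : E v)‖ = 1 := by
    have e : ((U.index : ℕ) : E v) = algebraMap ℚ_[ℓ v] (E v) ((U.index : ℕ) : ℚ_[ℓ v]) := by simp
    rw [e, norm_algebraMap']
    exact Padic.norm_natCast_eq_one_iff.2 (Nat.coprime_comm.1 hcop)
  -- the residue field
  obtain ⟨O, k, _, _, _, π, hOm, hπs, hπ0, -⟩ := exists_residue (p := ℓ v) (E v)
  have hkn : ∀ m : ℕ, 0 < m → m ≤ n → (m : k) ≠ 0 := by
    intro m hm hmn h0
    rw [CharP.cast_eq_zero_iff k (ℓ v)] at h0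
    have := Nat.le_of_dvd hm h0
    omega
  have hWi : ∀ x s t, ‖(baseChange (E v) (T (ℓ v)) x : Matrix (Fin n) (Fin n) (E v)) s t‖ ≤ 1 := by
    intro x s t
    show ‖algebraMap ℚ_[ℓ v] (E v) ((T (ℓ v) x : Matrix (Fin n) (Fin n) ℚ_[ℓ v]) s t)‖ ≤ 1
    rw [norm_algebraMap']
    exact hT.integral (ℓ v) x s t
  obtain ⟨τ, hτo, hτ⟩ := exists_reduction (baseChange (E v) (T (ℓ v)))
    (bc_cont' (E v) (hT.continuous (ℓ v))) hWi O hOm π hπ0
  obtain ⟨ρ, hρo, hρ⟩ := exists_reduction (V v) (hV v) (hVi v) O hOm π hπ0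
  let ιv : 𝓞 M →+* E v := (j v).comp (algebraMap (𝓞 M) M)
  let ιO : 𝓞 M →+* O := RingHom.codRestrict ιv O fun x => (hOm _).2 (norm_int_le (j v) x)
  have hιO : ∀ x, ((ιO x : O) : E v) = ιv x := fun x => rfl
  have hψ : ∀ x : 𝓞 M, (π.comp ιO) x = 0 → ‖j v (x : M)‖ < 1 := fun x hx => (hπ0 _).1 hx
  -- matching elements at `v`
  have hch : ∀ r, Matches ℓ E j V T f g v r →
      (τ r : Matrix (Fin n) (Fin n) k).charpoly = (g r).map (π.comp ιO) := by
    intro r hr
    obtain ⟨X, hX1, hX2⟩ := hτ r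
    have h1 := hr.2
    rw [hX1] at h1
    rw [hX2]
    exact (charpoly_red ιv ιO hιO π X (g r) h1).2
  have hne : ∀ r, Matches ℓ E j V T f g v r → ∀ e,
      ne ((τ r : Matrix (Fin n) (Fin n) k) ^ e) = ne ((cpn n (g r) ^ e).map (π.comp ιO)) := by
    intro r hr e
    obtain ⟨hm, hn⟩ := monic_of_matches ℓ E j V T f g v r hr
    exact ne_pow_eq _ _ hm hn _ (hch r hr) e
  have hle : ∀ r, Matches ℓ E j V T f g v r → ∀ e,
      ne ((τ r : Matrix (Fin n) (Fin n) k) ^ e) ≤
        ne ((cpn n (g r) ^ e).map (algebraMap (𝓞 M) M)) := by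
    intro r hr e
    rw [hne r hr e]
    exact ne_red (algebraMap (𝓞 M) M) (FaithfulSMul.algebraMap_injective (𝓞 M) M) _ hkn _
  have heq : ∀ e ∈ ex, ne ((τ r1 : Matrix (Fin n) (Fin n) k) ^ e) =
      ne ((cpn n (g r1) ^ e).map (algebraMap (𝓞 M) M)) := by
    intro e he
    refine le_antisymm (hle r1 hr1v e) ?_
    rw [hne r1 hr1v e]
    by_contra hlt
    rw [not_le] at hlt
    refine hv4 ?_
    rw [Set.mem_iUnion₂]
    exact ⟨e, he, k, inferInstance, π.comp ιO, hψ, hlt⟩
  have hw_ex : w ∈ ex := Finset.mem_insert_of_mem (Finset.mem_insert_self _ _)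
  have h1_ex : 1 ∈ ex := Finset.mem_insert_self _ _
  have hpowmap : ∀ e, (cpn n (g r1) ^ e).map (algebraMap (𝓞 M) M) =
      ((cpn n (g r1)).map (algebraMap (𝓞 M) M)) ^ e := by
    intro e
    rw [← RingHom.mapMatrix_apply, ← RingHom.mapMatrix_apply, map_pow]
  have hlong : ∀ i, 0 < i → i ≤ n ^ 4 →
      ne ((τ r1 : Matrix (Fin n) (Fin n) k) ^ (w * (w * U.index) * i)) =
        ne ((τ r1 : Matrix (Fin n) (Fin n) k) ^ w) := by
    intro i hi hin
    rw [heq w hw_ex, heq (w * (w * U.index) * i) (by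
      refine Finset.mem_insert_of_mem (Finset.mem_insert_of_mem ?_)
      exact Finset.mem_image.2 ⟨i, Finset.mem_range.2 (by omega), rfl⟩), hpowmap, hpowmap,
      mul_assoc]
    exact hst M le_rfl _ _ (Nat.mul_pos (Nat.mul_pos hw (Nat.pos_of_ne_zero hidx)) hi)
  have hA0r : ∀ r, Matches ℓ E j V T f g v0 r → ∀ e,
      ne (A0 r ^ e) = ne ((cpn n (g r) ^ e).map (algebraMap (𝓞 M) M)) :=
    fun r hr e => ne_place ℓ E j V T f g v0 r hr e
  -- the bound on the coset
  have hbound : ∀ x, g0⁻¹ * x ∈ U → ne ((τ x : Matrix (Fin n) (Fin n) k) ^ w) ≤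
      ne ((τ r1 : Matrix (Fin n) (Fin n) k) ^ w) := by
    intro x hx
    have hop : IsOpen (W0 ∩ {y | τ y = τ x}) := by
      refine hW0.inter ?_
      have e : {y | τ y = τ x} = (fun y => x⁻¹ * y) ⁻¹' (τ.ker : Set G) := by
        ext y
        simp only [Set.mem_preimage, SetLike.mem_coe, MonoidHom.mem_ker, map_mul, map_inv,
          Set.mem_ofPred_eq]
        rw [inv_mul_eq_one]
        exact eq_comm
      rw [e]
      exact hτo.preimage (continuous_const.mul continuous_id)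
    obtain ⟨r, ⟨hrW, hrτ⟩, hrm, -⟩ := (hD {v, v0}).inter_open_nonempty _ hop ⟨x, hx, rfl⟩
    have hrv : Matches ℓ E j V T f g v r := hrm v (by simp)
    have hrv0 : Matches ℓ E j V T f g v0 r := hrm v0 (by simp)
    have hrτ' : τ r = τ x := hrτ
    rw [← hrτ', heq w hw_ex]
    refine (hle r hrv w).trans ?_
    rw [← hA0r r hrv0, ← hA0r r1 hr1v0]
    exact (hmax r hrW).1
  -- full residual image
  have hfull : ∀ s : Matrix.SpecialLinearGroup (Fin 2) k, ∃ h ∈ U, τ h = 1 ∧
      (ρ h : Matrix (Fin 2) (Fin 2) k) = (s : Matrix (Fin 2) (Fin 2) k) := by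
    intro s
    obtain ⟨y, hy, X, hX1, hX2⟩ := hS v hvS U hUn hidx hnorm O π hOm hπs s
    obtain ⟨hyH, hyU⟩ := Subgroup.mem_inf.1 hy
    refine ⟨y, hyU, ?_, ?_⟩
    · have hTy : T (ℓ v) y = 1 := by
        have h1 : y ∈ (T (ℓ v)).ker := by
          have h2 : commonKernel T ≤ (T (ℓ v)).ker :=
            iInf₂_le (f := fun (l : ℕ) (_ : Fact l.Prime) => (T l).ker) (ℓ v) inferInstance
          exact h2 hyH
        exact h1
      obtain ⟨Y, hY1, hY2⟩ := hτ y
      have h1 : Y = 1 := by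
        have h2 : (baseChange (E v) (T (ℓ v)) y : Matrix (Fin n) (Fin n) (E v)) = 1 := by
          show ((Matrix.GeneralLinearGroup.map (algebraMap ℚ_[ℓ v] (E v)) (T (ℓ v) y) :
            GL (Fin n) (E v)) : Matrix (Fin n) (Fin n) (E v)) = 1
          rw [hTy, map_one, Units.val_one]
        rw [h2] at hY1
        ext s t
        have h3 := congrFun (congrFun hY1 s) t
        rw [Matrix.map_apply] at h3
        show ((Y s t : O) : E v) = (((1 : Matrix (Fin n) (Fin n) O) s t : O) : E v)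
        have h4 : ((Y s t : O) : E v) = (1 : Matrix (Fin n) (Fin n) (E v)) s t := h3.symm
        rw [h4, Matrix.one_apply, Matrix.one_apply]
        split_ifs <;> rfl
      apply Units.ext
      rw [hY2, h1, Units.val_one]
      ext s t
      rw [Matrix.map_apply, Matrix.one_apply, Matrix.one_apply]
      split_ifs
      · exact map_one π
      · exact map_zero π
    · obtain ⟨Y, hY1, hY2⟩ := hρ y
      have h1 : Y = X := by
        ext s t
        have h2 := congrFun (congrFun (hY1.symm.trans hX1) s) t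
        exact h2
      rw [hY2, h1, hX2]
  -- splitting of `r1`
  have hspl : ∀ (m : ℕ) (X : Matrix (Fin m) (Fin m) O), (X.map O.subtype).charpoly.Splits →
      (X.map π).charpoly.Splits := by
    intro m X hX
    have h1 := Matrix.charpoly_map X O.subtype
    have h2 := Matrix.charpoly_map X π
    have h3 : (X.map O.subtype).charpoly = X.charpoly.map O.subtype := h1
    have h4 : (X.map π).charpoly = X.charpoly.map π := h2
    rw [h4]
    rw [h3] at hX
    exact splits_residue hOm π _ X.charpoly_monic hX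
  have hvs' := hvs
  rw [Set.mem_ofPred_eq, Polynomial.map_mul] at hvs'
  have hmne : h.map (j v) * ((g r1).map (algebraMap (𝓞 M) M)).map (j v) ≠ 0 :=
    mul_ne_zero ((Polynomial.map_ne_zero_iff (j v).injective).2 hh0)
      ((hg1m.map (algebraMap (𝓞 M) M)).map (j v)).ne_zero
  have hhv : (h.map (j v)).Splits := hvs'.of_dvd hmne (Dvd.intro _ rfl)
  have hgv : ((g r1).map ιv).Splits := by
    have h1 := hvs'.of_dvd hmne (Dvd.intro_left _ rfl)
    rwa [Polynomial.map_map] at h1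
  have hτ1 : (τ r1 : Matrix (Fin n) (Fin n) k).charpoly.Splits := by
    obtain ⟨X, hX1, hX2⟩ := hτ r1
    rw [hX2]
    refine hspl n X ?_
    rw [← hX1, hr1v.2]
    exact hgv
  obtain ⟨hBo, hBm⟩ := hB μ k (ℓ v) (by omega) (by omega) τ ρ hτo hρo U hUn hUo hcop hfull g0 r1
    hr1U hτ1 hbound hlong _ rfl
  obtain ⟨x, hxB, hxC⟩ := hU _ hBo (fun x hx => hx.1) hBm
  obtain ⟨r, hrB, hrm, hrF⟩ := mem_closure_iff.1 (hCc {v, v0} hxC) _ hBo hxB
  obtain ⟨hrU, hrs, hrn, hrw, hrρ⟩ := hrB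
  have hrv : Matches ℓ E j V T f g v r := hrm v (by simp)
  have hrv0 : Matches ℓ E j V T f g v0 r := hrm v0 (by simp)
  have hcmp : ne (A0 r) ≤ ne (A0 r1) := by
    refine (hmax r hrU).2 (le_antisymm (hmax r hrU).1 ?_)
    rw [hA0r r hrv0, hA0r r1 hr1v0, ← heq w hw_ex, ← hrw]
    exact hle r hrv w
  obtain ⟨X, hX1, hX2⟩ := hτ r
  have hgsplit : ((g r).map ιv).Splits := by
    have h1 := hrv.2
    rw [hX1] at h1
    rw [← h1]
    refine splits_of_residues (p := ℓ v) O hOm π hπs hπ0 X (by rw [← hX2]; exact hrs) ?_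
    rw [← hX1, ← hX2, hrn]
    have h2 := hA0r r hrv0 1
    have h3 := hA0r r1 hr1v0 1
    have h4 := heq 1 h1_ex
    have h5 := ne_place ℓ E j V T f g v r hrv 1
    simp only [pow_one] at h2 h3 h4 h5
    have h6 : ne (baseChange (E v) (T (ℓ v)) r : Matrix (Fin n) (Fin n) (E v)) =
        ne (T (ℓ v) r : Matrix (Fin n) (Fin n) ℚ_[ℓ v]) := by
      rw [← ne_map (algebraMap ℚ_[ℓ v] (E v))]
      rfl
    rw [h6, h5, h4, ← h2, ← h3]
    exact hcmp
  obtain ⟨i, hi⟩ := hemb (E v) (j v) hhv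
  have hfs := splits_of_fieldIn hrF (j v) i hi hgsplit
  refine hrρ ?_
  obtain ⟨Y, hY1, hY2⟩ := hρ r
  rw [hY2]
  refine hspl 2 Y ?_
  rw [← hY1, hrv.1]
  exact hfs

end Pool.Agent.Helper37.Ff
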