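import Mathlib

/-!
# Project FRF: eigenvalues in the algebraic closure (helper definitions)
-/

set_option autoImplicit false

open Polynomial

namespace Pool.Agent.Helper37.Ff

/-- the set of eigenvalues of a matrix in its field -/
noncomputable def sp {K : Type*} [Field K] {n : ℕ} (A : Matrix (Fin n) (Fin n) K) : Finset K := by
  classical
  exact A.charpoly.roots.toFinset

/-- the number of distinct eigenvalues in the algebraic closure -/
noncomputable def ne {K : Type*} [Field K] {n : ℕ} (A : Matrix (Fin n) (Fin n) K) : ℕ :=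
  (sp (A.map (algebraMap K (AlgebraicClosure K)))).card

/-- the rank of the Hankel matrix of the traces of the powers -/
noncomputable def hr {K : Type*} [Field K] {n : ℕ} (A : Matrix (Fin n) (Fin n) K) : ℕ :=
  (Matrix.of fun i j : Fin n => (A ^ ((i : ℕ) + (j : ℕ))).trace).rank

/-- `t` and `c` have a common eigenvector for the eigenvalues `α` and `γ` -/
def Jt {K : Type*} [Field K] {n : ℕ} (t c : Matrix (Fin n) (Fin n) K) (α γ : K) : Prop :=
  ∃ u : Fin n → K, u ≠ 0 ∧ t.mulVec u = α • u ∧ c.mulVec u = γ • u

/-- the matrix is diagonalisable over its field -/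
def Dg {K : Type*} [Field K] {n : ℕ} (A : Matrix (Fin n) (Fin n) K) : Prop :=
  ∃ (P : GL (Fin n) K) (a : Fin n → K),
    A = (P : Matrix (Fin n) (Fin n) K) * Matrix.diagonal a *
      ((P⁻¹ : GL (Fin n) K) : Matrix (Fin n) (Fin n) K)

end Pool.Agent.Helper37.Ff
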