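import Pool.Agent.Helper37.Ff.Cmt

/-!
# Project FRF (MP_6cbef8_nt), module Orb: counting conjugates of good elements

PLAN. Uses `comm_of_conj` (module Cmt), `mem_sp`. Write `t = P * diagonal a * P⁻¹`; the `i`-th column of `P` is an eigenvector of `t` for
`a i`, so `a i ∈ sp t` and all elements of `sp t` are of this form. For `c ∈ Y` and `i` there is exactly one `γ` with `Jt t c (a i) γ`
(existence: `ker (t - a i)` is stable under `c`, `K` algebraically closed); put `β c i = a i * γ`; it is an eigenvalue of `t c`.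
Let `Z` be the set of the `γ ∈ Γ` with `t γ = δ (t c) δ⁻¹` for some `δ ∈ Γ`, `c ∈ Y`. Map
`Φ : Γ × Y → Z`, `(δ, c) ↦ t⁻¹ δ t c δ⁻¹` (in `Γ` by `hΓ`). Fix `z ∈ Z`, `y = t z`. All `β c i` with `Φ (δ, c) = z` are eigenvalues of `y`
(conjugate of `t c`), and `card (sp y) ≤ n`: the function `i ↦ β c i` has values in `sp y`, at most `n ^ n` functions. If `(δ, c)`,
`(δ', c')` are in the fibre of `z` with `β c = β c'`, then `x = δ'⁻¹ δ` satisfies `x (t c) x⁻¹ = t c'`, so `x` commutes with `t` by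
`comm_of_conj` (hypothesis `hβ`: `α = a i ∈ sp t`, `a i γ = β c i = β c' i = a i γ'`, so `γ = γ'`), i.e. `x ∈ C := {c ∈ Γ | t c = c t}`. So for fixed
`z` and fixed function choose one `(δ₀, c₀)`; then `δ ∈ δ₀ C` and `c` is determined by `δ` and `z` (`t c = δ⁻¹ y δ`): at most `card C` pairs. In total
`card Γ * card Y ≤ card Z * (n ^ n * card C)` (`Finset.card_le_mul_card_image`-style fibre bounds, or an injection of `Γ × Y` into
`Z × (Fin n → Fin n) × C` made from choices).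
-/

set_option autoImplicit false

namespace Pool.Agent.Helper37.Ff

private theorem sp_card_le {K : Type*} [Field K] {n : ℕ} (A : Matrix (Fin n) (Fin n) K) :
    (sp A).card ≤ n := by
  classical
  unfold sp
  refine (Multiset.toFinset_card_le _).trans ((Polynomial.card_roots' _).trans ?_)
  rw [Matrix.charpoly_natDegree_eq_dim, Fintype.card_fin]

private theorem exists_Jt {K : Type*} [Field K] [IsAlgClosed K] {n : ℕ}
    (t c : Matrix (Fin n) (Fin n) K) (h : t * c = c * t) (α : K) (u : Fin n → K) (hu : u ≠ 0)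
    (htu : t.mulVec u = α • u) : ∃ γ, Jt t c α γ := by
  classical
  let f : Module.End K (Fin n → K) := Matrix.toLin' t
  let g : Module.End K (Fin n → K) := Matrix.toLin' c
  have hf : ∀ x, f x = t.mulVec x := fun x => Matrix.toLin'_apply t x
  have hg : ∀ x, g x = c.mulVec x := fun x => Matrix.toLin'_apply c x
  have hfg : ∀ x, f (g x) = g (f x) := by
    intro x
    rw [hf, hg, hg, hf, Matrix.mulVec_mulVec, Matrix.mulVec_mulVec, h]
  have hW : ∀ x ∈ Module.End.eigenspace f α, g x ∈ Module.End.eigenspace f α := by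
    intro x hx
    rw [Module.End.mem_eigenspace_iff] at hx ⊢
    rw [hfg, hx, map_smul]
  have hu' : u ∈ Module.End.eigenspace f α := by
    rw [Module.End.mem_eigenspace_iff, hf, htu]
  have : Nontrivial (Module.End.eigenspace f α) :=
    ⟨⟨⟨u, hu'⟩, 0, fun h0 => hu (congrArg Subtype.val h0)⟩⟩
  obtain ⟨γ, hγ⟩ := Module.End.exists_eigenvalue (g.restrict hW)
  obtain ⟨v, hv⟩ := hγ.exists_hasEigenvector
  refine ⟨γ, v.1, fun h0 => hv.2 (Subtype.ext h0), ?_, ?_⟩
  · have := v.2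
    rw [Module.End.mem_eigenspace_iff, hf] at this
    exact this
  · have h1 : (g.restrict hW) v = γ • v := Module.End.mem_eigenspace_iff.1 hv.1
    have h2 := congrArg Subtype.val h1
    rw [LinearMap.coe_restrict_apply, hg] at h2
    exact h2

theorem orbit_count {K : Type*} [Field K] [IsAlgClosed K] {n : ℕ} (t : GL (Fin n) K)
    (ht : Dg (t : Matrix (Fin n) (Fin n) K)) (Γ : Subgroup (GL (Fin n) K)) [Finite Γ]
    (hΓ : ∀ γ ∈ Γ, t⁻¹ * γ * t ∈ Γ) (Y : Set (GL (Fin n) K))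
    (hY : ∀ c ∈ Y, c ∈ Γ ∧ t * c = c * t ∧
      (∀ α γ γ' : K, Jt (t : Matrix (Fin n) (Fin n) K) (c : Matrix (Fin n) (Fin n) K) α γ →
        Jt (t : Matrix (Fin n) (Fin n) K) (c : Matrix (Fin n) (Fin n) K) α γ' → γ = γ') ∧
      (∀ α γ α' γ' : K,
        Jt (t : Matrix (Fin n) (Fin n) K) (c : Matrix (Fin n) (Fin n) K) α γ →
        Jt (t : Matrix (Fin n) (Fin n) K) (c : Matrix (Fin n) (Fin n) K) α' γ' →
        α * γ = α' * γ' → α = α')) :
    Nat.card Γ * Nat.card Y ≤ n ^ n * Nat.card {c : GL (Fin n) K // c ∈ Γ ∧ t * c = c * t} *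
      Nat.card {γ : GL (Fin n) K // γ ∈ Γ ∧ ∃ δ ∈ Γ, ∃ c ∈ Y, t * γ = δ * (t * c) * δ⁻¹} := by
  classical
  obtain ⟨P, a, hPa⟩ := id ht
  have hinv : (P : Matrix (Fin n) (Fin n) K) *
      ((P⁻¹ : GL (Fin n) K) : Matrix (Fin n) (Fin n) K) = 1 := by
    rw [← Units.val_mul, mul_inv_cancel, Units.val_one]
  have hinv' : ((P⁻¹ : GL (Fin n) K) : Matrix (Fin n) (Fin n) K) *
      (P : Matrix (Fin n) (Fin n) K) = 1 := by
    rw [← Units.val_mul, inv_mul_cancel, Units.val_one]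
  -- columns are eigenvectors
  have hcol : ∀ i, ∃ u : Fin n → K, u ≠ 0 ∧
      (t : Matrix (Fin n) (Fin n) K).mulVec u = a i • u := by
    intro i
    refine ⟨(P : Matrix (Fin n) (Fin n) K).mulVec (Pi.single i 1), ?_, ?_⟩
    · intro h0
      have h1 := congrArg (((P⁻¹ : GL (Fin n) K) : Matrix (Fin n) (Fin n) K).mulVec) h0
      rw [Matrix.mulVec_mulVec, hinv', Matrix.one_mulVec, Matrix.mulVec_zero] at h1
      have h2 := congrFun h1 i
      rw [Pi.single_eq_same] at h2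
      exact one_ne_zero h2
    · rw [hPa, Matrix.mulVec_mulVec, Matrix.mul_assoc, Matrix.mul_assoc, hinv', Matrix.mul_one,
        ← Matrix.mulVec_mulVec, Matrix.diagonal_mulVec_single, mul_one, ← Matrix.mulVec_smul]
      congr 1
      funext j
      by_cases hj : j = i
      · subst hj
        simp
      · simp [hj]
  -- every eigenvalue of t is an a i
  have hev : ∀ (α : K) (u : Fin n → K), u ≠ 0 →
      (t : Matrix (Fin n) (Fin n) K).mulVec u = α • u → ∃ i, a i = α := by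
    intro α u hu htu
    have h1 : (Matrix.diagonal a).mulVec
        (((P⁻¹ : GL (Fin n) K) : Matrix (Fin n) (Fin n) K).mulVec u) =
        α • (((P⁻¹ : GL (Fin n) K) : Matrix (Fin n) (Fin n) K).mulVec u) := by
      have h2 := congrArg (((P⁻¹ : GL (Fin n) K) : Matrix (Fin n) (Fin n) K).mulVec) htu
      rw [hPa, Matrix.mulVec_mulVec, ← Matrix.mul_assoc, ← Matrix.mul_assoc, hinv',
        Matrix.one_mul, ← Matrix.mulVec_mulVec, Matrix.mulVec_smul] at h2
      exact h2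
    have h3 : (((P⁻¹ : GL (Fin n) K) : Matrix (Fin n) (Fin n) K).mulVec u) ≠ 0 := by
      intro h0
      apply hu
      have h4 := congrArg ((P : Matrix (Fin n) (Fin n) K).mulVec) h0
      rwa [Matrix.mulVec_mulVec, hinv, Matrix.one_mulVec, Matrix.mulVec_zero] at h4
    obtain ⟨i, hi⟩ := Function.ne_iff.1 h3
    refine ⟨i, ?_⟩
    have h5 := congrFun h1 i
    rw [Matrix.mulVec_diagonal, Pi.smul_apply, smul_eq_mul] at h5
    exact mul_right_cancel₀ hi h5
  have ha0 : ∀ i, a i ≠ 0 := by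
    intro i h0
    obtain ⟨u, hu, htu⟩ := hcol i
    apply hu
    have h1 := congrArg (((t⁻¹ : GL (Fin n) K) : Matrix (Fin n) (Fin n) K).mulVec) htu
    rw [h0, zero_smul, Matrix.mulVec_zero, Matrix.mulVec_mulVec, ← Units.val_mul,
      inv_mul_cancel, Units.val_one, Matrix.one_mulVec] at h1
    exact h1
  -- the eigenvalue functions
  have hex : ∀ (c : Y) (i : Fin n),
      ∃ γ, Jt (t : Matrix (Fin n) (Fin n) K) ((c : GL (Fin n) K) : Matrix (Fin n) (Fin n) K)
        (a i) γ := by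
    intro c i
    obtain ⟨u, hu, htu⟩ := hcol i
    refine exists_Jt _ _ ?_ (a i) u hu htu
    have := congrArg Units.val (hY c.1 c.2).2.1
    rwa [Units.val_mul, Units.val_mul] at this
  choose g hg using hex
  let C := {c : GL (Fin n) K // c ∈ Γ ∧ t * c = c * t}
  let Z := {γ : GL (Fin n) K // γ ∈ Γ ∧ ∃ δ ∈ Γ, ∃ c ∈ Y, t * γ = δ * (t * c) * δ⁻¹}
  have hΓf : (Γ : Set (GL (Fin n) K)).Finite := Set.toFinite _
  have : Finite C :=
    Finite.of_injective (fun c : C => (⟨c.1, c.2.1⟩ : Γ)) (by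
      intro x y hxy
      exact Subtype.ext (congrArg (fun z : Γ => (z : GL (Fin n) K)) hxy))
  have : Finite Z :=
    Finite.of_injective (fun c : Z => (⟨c.1, c.2.1⟩ : Γ)) (by
      intro x y hxy
      exact Subtype.ext (congrArg (fun z : Γ => (z : GL (Fin n) K)) hxy))
  have hYf : Finite Y :=
    Finite.of_injective (fun c : Y => (⟨c.1, (hY c.1 c.2).1⟩ : Γ)) (by
      intro x y hxy
      exact Subtype.ext (congrArg (fun z : Γ => (z : GL (Fin n) K)) hxy))
  -- the map Φ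
  have hmem : ∀ (δ : Γ) (c : Y), t⁻¹ * ((δ : GL (Fin n) K) * (t * (c : GL (Fin n) K)) *
      (δ : GL (Fin n) K)⁻¹) ∈ Γ := by
    intro δ c
    have h1 : t⁻¹ * ((δ : GL (Fin n) K) * (t * (c : GL (Fin n) K)) * (δ : GL (Fin n) K)⁻¹) =
        (t⁻¹ * (δ : GL (Fin n) K) * t) * (c : GL (Fin n) K) * (δ : GL (Fin n) K)⁻¹ := by
      group
    rw [h1]
    exact Γ.mul_mem (Γ.mul_mem (hΓ _ δ.2) (hY c.1 c.2).1) (Γ.inv_mem δ.2)
  let Φ : Γ × Y → Z := fun p => ⟨t⁻¹ * ((p.1 : GL (Fin n) K) * (t * (p.2 : GL (Fin n) K)) *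
    (p.1 : GL (Fin n) K)⁻¹), hmem p.1 p.2, p.1, p.1.2, p.2, p.2.2, by group⟩
  have hΦ : ∀ p : Γ × Y, t * (Φ p : GL (Fin n) K) =
      (p.1 : GL (Fin n) K) * (t * (p.2 : GL (Fin n) K)) * (p.1 : GL (Fin n) K)⁻¹ := by
    intro p
    change t * (t⁻¹ * ((p.1 : GL (Fin n) K) * (t * (p.2 : GL (Fin n) K)) *
      (p.1 : GL (Fin n) K)⁻¹)) = _
    rw [mul_inv_cancel_left]
  have hsp : ∀ (p : Γ × Y) (i : Fin n),
      a i * g p.2 i ∈ sp ((t * (Φ p : GL (Fin n) K) : GL (Fin n) K) :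
        Matrix (Fin n) (Fin n) K) := by
    intro p i
    rw [mem_sp, hΦ]
    obtain ⟨u, hu, h1, h2⟩ := hg p.2 i
    refine ⟨((p.1 : GL (Fin n) K) : Matrix (Fin n) (Fin n) K).mulVec u, ?_, ?_⟩
    · intro h0
      apply hu
      have h4 := congrArg ((((p.1 : GL (Fin n) K)⁻¹ : GL (Fin n) K) :
        Matrix (Fin n) (Fin n) K).mulVec) h0
      rwa [Matrix.mulVec_mulVec, ← Units.val_mul, inv_mul_cancel, Units.val_one,
        Matrix.one_mulVec, Matrix.mulVec_zero] at h4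
    · rw [Matrix.mulVec_mulVec, ← Units.val_mul, inv_mul_cancel_right, Units.val_mul,
        Units.val_mul, ← Matrix.mulVec_mulVec, ← Matrix.mulVec_mulVec, h2, Matrix.mulVec_smul,
        h1, Matrix.mulVec_smul, Matrix.mulVec_smul, smul_smul, mul_comm]
  let T := Σ z : Z, (Fin n → sp ((t * (z : GL (Fin n) K) : GL (Fin n) K) :
        Matrix (Fin n) (Fin n) K))
  let Θ : Γ × Y → T := fun p => ⟨Φ p, fun i => ⟨a i * g p.2 i, hsp p i⟩⟩
  have hΘ : ∀ p q : Γ × Y, Θ p = Θ q → Φ p = Φ q ∧ ∀ i, g p.2 i = g q.2 i := by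
    intro p q h
    have h1 : Φ p = Φ q := congrArg Sigma.fst h
    refine ⟨h1, fun i => ?_⟩
    have h2 := congrArg (fun z : T => ((z.2 i : sp ((t * (z.1 : GL (Fin n) K) : GL (Fin n) K) :
        Matrix (Fin n) (Fin n) K)) : K)) h
    exact mul_left_cancel₀ (ha0 i) h2
  have hcomm : ∀ p q : Γ × Y, Θ p = Θ q →
      t * ((q.1 : GL (Fin n) K)⁻¹ * (p.1 : GL (Fin n) K)) =
        ((q.1 : GL (Fin n) K)⁻¹ * (p.1 : GL (Fin n) K)) * t := by
    intro p q h
    obtain ⟨h1, h2⟩ := hΘ p q h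
    have hp := hY p.2.1 p.2.2
    have hq := hY q.2.1 q.2.2
    refine (comm_of_conj t p.2.1 q.2.1 ((q.1 : GL (Fin n) K)⁻¹ * (p.1 : GL (Fin n) K)) ht
      hp.2.1 hq.2.1 hp.2.2.1 hq.2.2.1 hq.2.2.2 ?_ ?_).symm
    · intro α γ γ' hJ hJ'
      obtain ⟨u, hu, h3, h4⟩ := id hJ
      obtain ⟨i, rfl⟩ := hev α u hu h3
      rw [hp.2.2.1 _ _ _ hJ (hg p.2 i), hq.2.2.1 _ _ _ hJ' (hg q.2 i), h2 i]
    · have h3 := hΦ p
      rw [h1, hΦ q] at h3
      have h4 : t * (p.2 : GL (Fin n) K) = (p.1 : GL (Fin n) K)⁻¹ *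
          ((q.1 : GL (Fin n) K) * (t * (q.2 : GL (Fin n) K)) * (q.1 : GL (Fin n) K)⁻¹) *
          (p.1 : GL (Fin n) K) := by
        rw [h3]
        group
      rw [h4]
      group
  rcases isEmpty_or_nonempty (Γ × Y) with hemp | hne
  · have h0 : Nat.card (Γ × Y) = 0 := Nat.card_of_isEmpty
    rw [Nat.card_prod] at h0
    rw [h0]
    exact Nat.zero_le _
  have hmemC : ∀ p : Γ × Y, ((Function.invFun Θ (Θ p)).1 : GL (Fin n) K)⁻¹ *
      (p.1 : GL (Fin n) K) ∈ Γ ∧ t * (((Function.invFun Θ (Θ p)).1 : GL (Fin n) K)⁻¹ *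
      (p.1 : GL (Fin n) K)) = (((Function.invFun Θ (Θ p)).1 : GL (Fin n) K)⁻¹ *
      (p.1 : GL (Fin n) K)) * t := by
    intro p
    refine ⟨Γ.mul_mem (Γ.inv_mem (Function.invFun Θ (Θ p)).1.2) p.1.2, ?_⟩
    exact hcomm p _ (Function.invFun_eq ⟨p, rfl⟩).symm
  let Ψ : Γ × Y → T × C := fun p => (Θ p, ⟨_, hmemC p⟩)
  have hΨ : Function.Injective Ψ := by
    intro p q h
    have h1 : Θ p = Θ q := congrArg Prod.fst h
    have h2 : ((Function.invFun Θ (Θ p)).1 : GL (Fin n) K)⁻¹ * (p.1 : GL (Fin n) K) =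
        ((Function.invFun Θ (Θ q)).1 : GL (Fin n) K)⁻¹ * (q.1 : GL (Fin n) K) :=
      congrArg (fun z : T × C => (z.2 : GL (Fin n) K)) h
    rw [h1] at h2
    have h3 : (p.1 : GL (Fin n) K) = q.1 := mul_left_cancel h2
    have h4 := hΦ p
    rw [(hΘ p q h1).1, hΦ q, h3] at h4
    have h5 : (q.2 : GL (Fin n) K) = p.2 :=
      mul_left_cancel (mul_left_cancel (mul_right_cancel h4))
    exact Prod.ext (Subtype.ext h3) (Subtype.ext h5.symm)
  have hle := Nat.card_le_card_of_injective Ψ hΨ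
  have := Fintype.ofFinite Z
  rw [Nat.card_prod, Nat.card_prod, Nat.card_sigma] at hle
  have hb : ∀ z : Z, Nat.card (Fin n → sp ((t * (z : GL (Fin n) K) : GL (Fin n) K) :
        Matrix (Fin n) (Fin n) K)) ≤ n ^ n := by
    intro z
    rw [Nat.card_eq_fintype_card, Fintype.card_fun, Fintype.card_coe, Fintype.card_fin]
    exact Nat.pow_le_pow_left (sp_card_le _) _
  have hs : ∑ z : Z, Nat.card (Fin n → sp ((t * (z : GL (Fin n) K) : GL (Fin n) K) :
        Matrix (Fin n) (Fin n) K)) ≤ Nat.card Z * n ^ n := by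
    refine (Finset.sum_le_card_nsmul _ _ _ (fun z _ => hb z)).trans ?_
    rw [smul_eq_mul, Finset.card_univ, Nat.card_eq_fintype_card]
  calc Nat.card Γ * Nat.card Y ≤ _ := hle
    _ ≤ (Nat.card Z * n ^ n) * Nat.card C := Nat.mul_le_mul_right _ hs
    _ = n ^ n * Nat.card C * Nat.card Z := by ring

end Pool.Agent.Helper37.Ff
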