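import Mathlib

/-!
# Project FRF (MP_6cbef8_nt), module Sh: a shift without collisions

Pigeonhole: every pair of elements of `X` with different first coordinates is bad for at most one exponent `i ≤ n ^ 4`,
and there are at most `n ^ 4` such pairs.
-/

set_option autoImplicit false

namespace Pool.Agent.Helper37.Ff

private theorem shx_key {K : Type*} [Field K] {a b c d : K} (ha : a ≠ 0) (hc : c ≠ 0) {m i j : ℕ}
    (h1 : a ^ (1 + m * i) * c = b ^ (1 + m * i) * d)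
    (h2 : a ^ (1 + m * (i + j)) * c = b ^ (1 + m * (i + j)) * d) : a ^ (m * j) = b ^ (m * j) := by
  have h3 : ∀ z : K, z ^ (1 + m * (i + j)) = z ^ (1 + m * i) * z ^ (m * j) := by
    intro z
    rw [← pow_add]
    congr 1
    ring
  rw [h3, h3] at h2
  have h4 : a ^ (1 + m * i) * c * a ^ (m * j) = a ^ (1 + m * i) * c * b ^ (m * j) := by
    calc a ^ (1 + m * i) * c * a ^ (m * j) = a ^ (1 + m * i) * a ^ (m * j) * c := by ring
      _ = b ^ (1 + m * i) * b ^ (m * j) * d := h2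
      _ = b ^ (1 + m * i) * d * b ^ (m * j) := by ring
      _ = a ^ (1 + m * i) * c * b ^ (m * j) := by rw [h1]
  exact mul_left_cancel₀ (mul_ne_zero (pow_ne_zero _ ha) hc) h4

theorem exists_shift {K : Type*} [Field K] [DecidableEq K] (n m : ℕ) (X : Finset (K × K))
    (h1 : (X.image Prod.fst).card ≤ n) (h2 : (X.image Prod.snd).card ≤ n)
    (h0 : ∀ x ∈ X, x.1 ≠ 0 ∧ x.2 ≠ 0)
    (h : ∀ x ∈ X, ∀ y ∈ X, x.1 ≠ y.1 → ∀ j, 0 < j → j ≤ n ^ 4 →
      x.1 ^ (m * j) ≠ y.1 ^ (m * j)) :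
    ∃ i ≤ n ^ 4, ∀ x ∈ X, ∀ y ∈ X,
      x.1 ^ (1 + m * i) * x.2 = y.1 ^ (1 + m * i) * y.2 → x = y := by
  by_contra hcon
  push Not at hcon
  have hsub : X ⊆ (X.image Prod.fst) ×ˢ (X.image Prod.snd) := by
    intro x hx
    exact Finset.mem_product.2 ⟨Finset.mem_image_of_mem _ hx, Finset.mem_image_of_mem _ hx⟩
  have hX : X.card ≤ n * n := by
    refine (Finset.card_le_card hsub).trans ?_
    rw [Finset.card_product]
    exact Nat.mul_le_mul h1 h2
  have hcon' : ∀ i : ℕ, ∃ p : (K × K) × (K × K), i ≤ n ^ 4 → (p.1 ∈ X ∧ p.2 ∈ X ∧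
      p.1.1 ^ (1 + m * i) * p.1.2 = p.2.1 ^ (1 + m * i) * p.2.2 ∧ p.1 ≠ p.2) := by
    intro i
    by_cases hi : i ≤ n ^ 4
    · obtain ⟨x, hx, y, hy, h3, h4⟩ := hcon i hi
      exact ⟨(x, y), fun _ => ⟨hx, hy, h3, h4⟩⟩
    · exact ⟨((0, 0), (0, 0)), fun h' => absurd h' hi⟩
  choose f hf using hcon'
  have hcard : (X ×ˢ X).card < (Finset.range (n ^ 4 + 1)).card := by
    rw [Finset.card_product, Finset.card_range]
    have h3 : X.card * X.card ≤ (n * n) * (n * n) := Nat.mul_le_mul hX hX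
    have h4 : n ^ 4 = (n * n) * (n * n) := by ring
    omega
  obtain ⟨i, hi, i', hi', hne, heq⟩ := Finset.exists_ne_map_eq_of_card_lt_of_maps_to hcard
    (f := f) (fun i hi => by
      have hi1 : i ≤ n ^ 4 := by
        have := Finset.mem_range.1 (Finset.mem_coe.1 hi)
        omega
      exact Finset.mem_coe.2 (Finset.mem_product.2 ⟨(hf i hi1).1, (hf i hi1).2.1⟩))
  have hfin : ∀ i i' : ℕ, i < i' → i' ≤ n ^ 4 → f i = f i' → False := by
    intro i i' hlt hi' heq
    obtain ⟨a1, a2, a3, a4⟩ := hf i (by omega)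
    obtain ⟨-, -, b3, -⟩ := hf i' hi'
    rw [← heq] at b3
    obtain ⟨j, rfl⟩ := Nat.exists_eq_add_of_lt hlt
    have hx0 := h0 _ a1
    have hy0 := h0 _ a2
    have hfst : (f i).1.1 ≠ (f i).2.1 := by
      intro h5
      apply a4
      rw [h5] at a3
      have h6 := mul_left_cancel₀ (pow_ne_zero _ hy0.1) a3
      exact Prod.ext h5 h6
    have h7 := shx_key (j := j + 1) hx0.1 hx0.2 a3 (by rw [← add_assoc]; exact b3)
    exact h _ a1 _ a2 hfst (j + 1) (by omega) (by omega) h7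
  rw [Finset.mem_range] at hi hi'
  rcases Nat.lt_or_gt_of_ne hne with h3 | h3
  · exact hfin i i' h3 (by omega) heq
  · exact hfin i' i h3 (by omega) heq.symm

end Pool.Agent.Helper37.Ff
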