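import Pool.Agent.Helper37.Ff.CZ
import Pool.Agent.Helper37.Ff.LR
import Pool.Agent.Helper37.Ff.GdE
import Pool.Agent.Helper37.Ff.Orb

/-!
# Project FRF (MP_6cbef8_nt), module ThP: many elements of a coset have all eigenvalues in the field
-/

set_option autoImplicit false

open Polynomial

namespace Pool.Agent.Helper37.Ff

private theorem ne_of_charpoly {k : Type*} [Field k] {n : ℕ} {A A' : Matrix (Fin n) (Fin n) k}
    (h : A.charpoly = A'.charpoly) : ne A = ne A' := by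
  unfold ne sp
  rw [Matrix.charpoly_map, Matrix.charpoly_map, h]

private theorem splits_of_Dg {k : Type*} [Field k] {n : ℕ} {A : Matrix (Fin n) (Fin n) k}
    (h : Dg A) : A.charpoly.Splits := by
  obtain ⟨P, a, rfl⟩ := h
  have h1 := Matrix.charpoly_units_conj P (Matrix.diagonal a)
  rw [Matrix.coe_units_inv, h1, Matrix.charpoly_diagonal]
  exact Polynomial.Splits.prod fun i _ => Polynomial.Splits.X_sub_C _

private theorem charpoly_conj_GL {k : Type*} [Field k] {n : ℕ} (P A : GL (Fin n) k) :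
    ((P * A * P⁻¹ : GL (Fin n) k) : Matrix (Fin n) (Fin n) k).charpoly =
      (A : Matrix (Fin n) (Fin n) k).charpoly := by
  have h := Matrix.charpoly_units_conj P (A : Matrix (Fin n) (Fin n) k)
  rw [Matrix.GeneralLinearGroup.coe_mul, Matrix.GeneralLinearGroup.coe_mul, Matrix.coe_units_inv]
  exact h

private theorem Dg_map {k K : Type*} [Field k] [Field K] (f : k →+* K) {n : ℕ}
    {t : GL (Fin n) k} (h : Dg (t : Matrix (Fin n) (Fin n) k)) :
    Dg ((Matrix.GeneralLinearGroup.map f t : GL (Fin n) K) : Matrix (Fin n) (Fin n) K) := by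
  obtain ⟨P, a, h⟩ := h
  refine ⟨Matrix.GeneralLinearGroup.map f P, fun i => f (a i), ?_⟩
  have h1 : ((Matrix.GeneralLinearGroup.map f t : GL (Fin n) K) : Matrix (Fin n) (Fin n) K) =
      (t : Matrix (Fin n) (Fin n) k).map f := rfl
  have h2 : ((Matrix.GeneralLinearGroup.map f P : GL (Fin n) K) : Matrix (Fin n) (Fin n) K) =
      (P : Matrix (Fin n) (Fin n) k).map f := rfl
  have h3 : (((Matrix.GeneralLinearGroup.map f P)⁻¹ : GL (Fin n) K) :
      Matrix (Fin n) (Fin n) K) = ((P⁻¹ : GL (Fin n) k) : Matrix (Fin n) (Fin n) k).map f := by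
    rw [← map_inv]
    rfl
  rw [h1, h2, h3, h, Matrix.map_mul, Matrix.map_mul, Matrix.diagonal_map (map_zero f)]

private theorem map_inj {k K : Type*} [Field k] [Field K] (f : k →+* K) (n : ℕ) :
    Function.Injective (Matrix.GeneralLinearGroup.map f : GL (Fin n) k →* GL (Fin n) K) := by
  intro a b h
  apply Units.ext
  ext i j
  have h1 := congrArg (fun g : GL (Fin n) K => (g : Matrix (Fin n) (Fin n) K) i j) h
  exact f.injective h1

theorem many_split (n w : ℕ) (hw : 0 < w) : ∃ B : ℕ, ∀ (k : Type) [Field k] [Finite k],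
    (∀ m : ℕ, 0 < m → m ≤ n → (m : k) ≠ 0) →
    ∀ (Γ : Subgroup (GL (Fin n) k)) (t : GL (Fin n) k), (∀ γ ∈ Γ, t⁻¹ * γ * t ∈ Γ) →
    Dg (t : Matrix (Fin n) (Fin n) k) → ∀ m : ℕ, w ∣ m → t ^ m ∈ Γ →
    (∀ γ ∈ Γ, ne (((t * γ) ^ w : GL (Fin n) k) : Matrix (Fin n) (Fin n) k) ≤
      ne ((t ^ w : GL (Fin n) k) : Matrix (Fin n) (Fin n) k)) →
    (∀ j, 0 < j → j ≤ n ^ 4 → ne ((t ^ (w * m * j) : GL (Fin n) k) : Matrix (Fin n) (Fin n) k) =
      ne ((t ^ w : GL (Fin n) k) : Matrix (Fin n) (Fin n) k)) →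
    Nat.card Γ ≤ B * Nat.card {γ : GL (Fin n) k // γ ∈ Γ ∧
      ((t * γ : GL (Fin n) k) : Matrix (Fin n) (Fin n) k).charpoly.Splits ∧
      ne ((t * γ : GL (Fin n) k) : Matrix (Fin n) (Fin n) k) =
        ne (t : Matrix (Fin n) (Fin n) k) ∧
      ne (((t * γ) ^ w : GL (Fin n) k) : Matrix (Fin n) (Fin n) k) =
        ne ((t ^ w : GL (Fin n) k) : Matrix (Fin n) (Fin n) k)} := by
  obtain ⟨B0, hB0⟩ := card_czero n w hw
  refine ⟨n ^ n * B0 * (n ^ 4 + 1), ?_⟩
  intro k _ _ hchar Γ t hΓ hd m hwm htm hP hs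
  let K := AlgebraicClosure k
  let ι : GL (Fin n) k →* GL (Fin n) K := Matrix.GeneralLinearGroup.map (algebraMap k K)
  have hι : Function.Injective ι := map_inj (algebraMap k K) n
  have hcoe : ∀ g : GL (Fin n) k, ((ι g : GL (Fin n) K) : Matrix (Fin n) (Fin n) K) =
      (g : Matrix (Fin n) (Fin n) k).map (algebraMap k K) := fun g => rfl
  have hne : ∀ g : GL (Fin n) k, (sp ((ι g : GL (Fin n) K) : Matrix (Fin n) (Fin n) K)).card =
      ne (g : Matrix (Fin n) (Fin n) k) := fun g => rfl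
  have hfinG : Finite (GL (Fin n) k) := inferInstance
  let Γ' : Subgroup (GL (Fin n) K) := Γ.map ι
  have hΓ'mem : ∀ g, g ∈ Γ' ↔ ∃ γ ∈ Γ, ι γ = g := fun g => Subgroup.mem_map
  have hfinΓ' : Finite Γ' := by
    have h1 : (Γ' : Set (GL (Fin n) K)).Finite := by
      rw [Subgroup.coe_map]
      exact (Set.toFinite (Γ : Set (GL (Fin n) k))).image ι
    exact h1.to_subtype
  let C : Subgroup (GL (Fin n) K) := Γ' ⊓ Subgroup.centralizer {ι t}
  have hCmem : ∀ g, g ∈ C ↔ g ∈ Γ' ∧ ι t * g = g * ι t := by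
    intro g
    rw [Subgroup.mem_inf, Subgroup.mem_centralizer_singleton_iff]
    constructor
    · rintro ⟨h1, h2⟩; exact ⟨h1, by rw [h2]⟩
    · rintro ⟨h1, h2⟩; exact ⟨h1, by rw [h2]⟩
  have hfinC : Finite C := by
    have h1 : (C : Set (GL (Fin n) K)).Finite :=
      Set.Finite.subset (Set.toFinite (Γ' : Set (GL (Fin n) K))) (fun g hg => ((hCmem g).mp hg).1)
    exact h1.to_subtype
  have hcharK : ∀ m : ℕ, 0 < m → m ≤ n → (m : K) ≠ 0 := by
    intro a ha han h
    refine hchar a ha han ?_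
    apply (algebraMap k K).injective
    rw [map_natCast, map_zero]
    exact h
  -- the shifted elements
  have hbC : ∀ c ∈ C, ∀ i, (sp (((ι t ^ (1 + m * i) * c) ^ w : GL (Fin n) K) :
      Matrix (Fin n) (Fin n) K)).card ≤
      (sp ((ι t ^ w : GL (Fin n) K) : Matrix (Fin n) (Fin n) K)).card := by
    intro c hc i
    obtain ⟨hc1, _⟩ := (hCmem c).mp hc
    obtain ⟨γ, hγ, rfl⟩ := (hΓ'mem c).mp hc1
    have h1 : (ι t ^ (1 + m * i) * ι γ) ^ w = ι ((t * ((t ^ m) ^ i * γ)) ^ w) := by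
      rw [map_pow, map_mul, map_mul, map_pow, map_pow, pow_add, pow_one, pow_mul, mul_assoc]
    have h2 : ι t ^ w = ι (t ^ w) := by rw [map_pow]
    rw [h1, h2, hne, hne]
    exact hP _ (Γ.mul_mem (Γ.pow_mem htm i) hγ)
  have hsC : ∀ j, 0 < j → j ≤ n ^ 4 →
      (sp ((ι t ^ (w * m * j) : GL (Fin n) K) : Matrix (Fin n) (Fin n) K)).card =
        (sp ((ι t ^ w : GL (Fin n) K) : Matrix (Fin n) (Fin n) K)).card := by
    intro j hj hj'
    have h1 : ι t ^ (w * m * j) = ι (t ^ (w * m * j)) := by rw [map_pow]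
    have h2 : ι t ^ w = ι (t ^ w) := by rw [map_pow]
    rw [h1, h2, hne, hne]
    exact hs j hj hj'
  have hcomm : ∀ c ∈ C, ι t * c = c * ι t := fun c hc => ((hCmem c).mp hc).2
  have h1C := hB0 K hcharK (ι t) C hcomm (by
    intro c hc α γ α' γ' h h' hww
    exact same_power (ι t) c (hbC c hc) hsC (hcomm c hc) α γ α' γ' h h' hww)
  set C0 := {c : GL (Fin n) K // c ∈ C ∧ ∀ α γ α' γ' : K,
      Jt ((ι t : GL (Fin n) K) : Matrix (Fin n) (Fin n) K) (c : Matrix (Fin n) (Fin n) K) α γ →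
      Jt ((ι t : GL (Fin n) K) : Matrix (Fin n) (Fin n) K) (c : Matrix (Fin n) (Fin n) K) α' γ' →
      α ^ w = α' ^ w → γ = γ'} with hC0
  let Y : Set (GL (Fin n) K) := {c | c ∈ C ∧ ∀ α γ α' γ' : K,
      Jt ((ι t : GL (Fin n) K) : Matrix (Fin n) (Fin n) K) (c : Matrix (Fin n) (Fin n) K) α γ →
      Jt ((ι t : GL (Fin n) K) : Matrix (Fin n) (Fin n) K) (c : Matrix (Fin n) (Fin n) K) α' γ' →
      (α ^ w = α' ^ w → γ = γ') ∧ ((α * γ) ^ w = (α' * γ') ^ w → α ^ w = α' ^ w)}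
  have hfinY : Finite Y := by
    have h1 : Y.Finite := Set.Finite.subset (Set.toFinite (C : Set (GL (Fin n) K)))
      (fun g hg => hg.1)
    exact h1.to_subtype
  have hshift : ∀ c : C0, ∃ i ≤ n ^ 4, (c : GL (Fin n) K) * ι t ^ (m * i) ∈ Y := by
    intro c
    obtain ⟨i, hi, hi'⟩ := exists_shift_good hwm (ι t) c.1 hsC (hcomm c.1 c.2.1) c.2.2
    refine ⟨i, hi, ?_, hi'⟩
    refine C.mul_mem c.2.1 ?_
    rw [hCmem]
    constructor
    · rw [hΓ'mem]
      refine ⟨(t ^ m) ^ i, Γ.pow_mem htm i, ?_⟩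
      rw [map_pow, map_pow, pow_mul]
    · rw [← pow_succ', ← pow_succ]
  have h2C : Nat.card C0 ≤ (n ^ 4 + 1) * Nat.card Y := by
    choose i hi hiY using hshift
    have h3 : Nat.card C0 ≤ Nat.card (Fin (n ^ 4 + 1) × Y) := by
      refine Nat.card_le_card_of_injective
        (fun c : C0 => ((⟨i c, Nat.lt_succ_of_le (hi c)⟩ : Fin (n ^ 4 + 1)),
          (⟨_, hiY c⟩ : Y))) ?_
      intro c c' hcc
      rw [Prod.mk.injEq] at hcc
      obtain ⟨h4, h5⟩ := hcc
      have h4' : i c = i c' := congrArg Fin.val h4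
      have h5' : (c : GL (Fin n) K) * ι t ^ (m * i c) = (c' : GL (Fin n) K) * ι t ^ (m * i c') :=
        congrArg Subtype.val h5
      rw [h4'] at h5'
      exact Subtype.ext (mul_right_cancel h5')
    rw [Nat.card_prod, Nat.card_fin] at h3
    exact h3
  have horb := orbit_count (ι t) (Dg_map (algebraMap k K) hd) Γ' (by
    intro γ hγ
    obtain ⟨γ0, hγ0, rfl⟩ := (hΓ'mem γ).mp hγ
    rw [hΓ'mem]
    refine ⟨t⁻¹ * γ0 * t, hΓ γ0 hγ0, ?_⟩
    rw [map_mul, map_mul, map_inv]) Y (by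
    intro c hc
    have hcC := hc.1
    refine ⟨((hCmem c).mp hcC).1, hcomm c hcC, ?_, ?_⟩
    · intro α γ γ' h h'
      exact (hc.2 α γ α γ' h h').1 rfl
    · intro α γ α' γ' h h' haa
      have h3 := hc.2 α γ α' γ' h h'
      have h4 : α ^ w = α' ^ w := h3.2 (by rw [haa])
      have h5 : γ = γ' := h3.1 h4
      subst h5
      have h6 : γ ≠ 0 := by
        rintro rfl
        obtain ⟨u, hu, _, hcu⟩ := h
        rw [zero_smul] at hcu
        apply hu
        have h7 : (((c⁻¹ : GL (Fin n) K) : Matrix (Fin n) (Fin n) K)).mulVec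
            ((c : Matrix (Fin n) (Fin n) K).mulVec u) = u := by
          rw [Matrix.mulVec_mulVec, ← Matrix.GeneralLinearGroup.coe_mul, inv_mul_cancel,
            Matrix.GeneralLinearGroup.coe_one, Matrix.one_mulVec]
        rw [← h7, hcu, Matrix.mulVec_zero]
      exact mul_right_cancel₀ h6 haa)
  have hcardC : Nat.card {c : GL (Fin n) K // c ∈ Γ' ∧ ι t * c = c * ι t} = Nat.card C := by
    refine Nat.card_congr (Equiv.subtypeEquivRight fun c => ?_)
    exact (hCmem c).symm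
  have hcardΓ : Nat.card Γ' = Nat.card Γ :=
    (Nat.card_congr (Γ.equivMapOfInjective ι hι).toEquiv).symm
  rw [hcardC, hcardΓ] at horb
  set Z := {γ : GL (Fin n) k // γ ∈ Γ ∧
      ((t * γ : GL (Fin n) k) : Matrix (Fin n) (Fin n) k).charpoly.Splits ∧
      ne ((t * γ : GL (Fin n) k) : Matrix (Fin n) (Fin n) k) =
        ne (t : Matrix (Fin n) (Fin n) k) ∧
      ne (((t * γ) ^ w : GL (Fin n) k) : Matrix (Fin n) (Fin n) k) =
        ne ((t ^ w : GL (Fin n) k) : Matrix (Fin n) (Fin n) k)} with hZ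
  set Z' := {γ : GL (Fin n) K // γ ∈ Γ' ∧ ∃ δ ∈ Γ', ∃ c ∈ Y,
      ι t * γ = δ * (ι t * c) * δ⁻¹} with hZ'
  have hgood : ∀ z : Z', ∃ γ : Z, ι γ.1 = z.1 := by
    rintro ⟨z, hz, δ, hδ, c, hc, hzc⟩
    obtain ⟨γ, hγ, rfl⟩ := (hΓ'mem z).mp hz
    obtain ⟨δ1, hδ1, rfl⟩ := (hΓ'mem δ).mp hδ
    obtain ⟨c1, hc1, rfl⟩ := (hΓ'mem c).mp ((hCmem c).mp hc.1).1
    have h3 : t * c1 = c1 * t := by
      apply hι
      rw [map_mul, map_mul]
      exact hcomm _ hc.1
    have h4 : t * γ = δ1 * (t * c1) * δ1⁻¹ := by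
      apply hι
      rw [map_mul, map_mul, map_mul, map_mul, map_inv]
      exact hzc
    have h5 := good_elem (K := K) (w := w) t c1 h3 (splits_of_Dg hd) hc.2
    refine ⟨⟨γ, hγ, ?_, ?_, ?_⟩, rfl⟩
    · rw [h4, charpoly_conj_GL]
      exact h5.1
    · rw [← h5.2.1]
      apply ne_of_charpoly
      rw [h4, charpoly_conj_GL]
    · rw [← h5.2.2]
      apply ne_of_charpoly
      rw [h4, conj_pow, charpoly_conj_GL]
  have hcardZ : Nat.card Z' ≤ Nat.card Z := by
    choose f hf using hgood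
    have : Finite Z := inferInstance
    refine Nat.card_le_card_of_injective f ?_
    intro a b hab
    apply Subtype.ext
    rw [← hf a, ← hf b, hab]
  have hCpos : 0 < Nat.card C := Nat.card_pos
  have hYpos : 0 < Nat.card Y := by
    rcases Nat.eq_zero_or_pos (Nat.card Y) with h | h
    · exfalso
      rw [h, Nat.mul_zero] at h2C
      have : Nat.card C ≤ B0 * 0 := h1C.trans (Nat.mul_le_mul_left _ h2C)
      omega
    · exact h
  have hfinal : Nat.card Y * Nat.card Γ ≤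
      Nat.card Y * (n ^ n * B0 * (n ^ 4 + 1) * Nat.card Z) := by
    calc Nat.card Y * Nat.card Γ = Nat.card Γ * Nat.card Y := Nat.mul_comm _ _
      _ ≤ n ^ n * Nat.card C * Nat.card Z' := horb
      _ ≤ n ^ n * (B0 * ((n ^ 4 + 1) * Nat.card Y)) * Nat.card Z := by
          refine Nat.mul_le_mul (Nat.mul_le_mul_left _ ?_) hcardZ
          exact h1C.trans (Nat.mul_le_mul_left _ h2C)
      _ = Nat.card Y * (n ^ n * B0 * (n ^ 4 + 1) * Nat.card Z) := by ring
  exact Nat.le_of_mul_le_mul_left hfinal hYpos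

end Pool.Agent.Helper37.Ff
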